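import Pool.Agent.Lib.MP_0370b2_nt.S2.St
import Pool.Agent.Lib.MP_bf776f_nt.SU.An

/-! Analysis of the jets of order four. -/

namespace Pool.Agent.CSU.Q2

open Polynomial Finset

variable {F : Type} [NormedField F] {q : ℕ}

theorem psi_eq (θ u : F) (l m j : ℕ) :
    psi q θ u l m j = ∑' i, cT q θ u m i / (θ ^ q ^ (i + m) - θ ^ q ^ j) ^ (l + 1) := by
  simp only [psi, cT, div_div]

theorem psi_zero (θ u : F) (m j : ℕ) : psi q θ u 0 m j = phi q θ u m j := by
  simp only [psi, phi, zero_add, pow_one]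

theorem Jt_coeff (θ u : F) (m j l : ℕ) :
    (Jt q θ u m j).coeff l = if l < 4 then psi q θ u l m j else 0 := by
  simp only [Jt, finsetSum_coeff, coeff_C_mul_X_pow, sum_ite_eq, mem_range]

theorem Jt_coeff_lt (θ u : F) (m j : ℕ) {l : ℕ} (hl : l < 4) :
    (Jt q θ u m j).coeff l = psi q θ u l m j := by
  rw [Jt_coeff, if_pos hl]

variable [IsUltrametricDist F] {θ : F}

theorem psi_small (h : Fr q F) (hθ : 1 < ‖θ‖) {u : F} (hu : ‖u‖ ≤ 1) (l : ℕ) {m j : ℕ}
    (hj : j < m) : ‖psi q θ u l m j‖ * ‖θ‖ ^ q ^ m ≤ 1 := by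
  rw [psi_eq]
  refine h.tsum_small hθ hu m _ fun i => ?_
  rw [norm_pow]
  refine le_trans ?_ (le_self_pow₀ (h.one_le_sub hθ (by omega)) l.succ_ne_zero)
  rw [h.norm_sub hθ (by omega)]
  exact pow_le_pow_right₀ hθ.le (Nat.pow_le_pow_right (by have := h.lt; omega) (by omega))

variable [CompleteSpace F]

theorem hs_psi (h : Fr q F) (hθ : 1 < ‖θ‖) (u : F) (l : ℕ) {m j : ℕ} (hj : j < m) :
    HasSum (fun i => cT q θ u m i / (θ ^ q ^ (i + m) - θ ^ q ^ j) ^ (l + 1))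
      (psi q θ u l m j) := by
  rw [psi_eq]
  exact (h.summ hθ u m _ fun i => by
    rw [norm_pow]; exact one_le_pow₀ (h.one_le_sub hθ (by omega))).hasSum

/-- The series defining `psi` converges. -/
theorem hasSum_psi (h : Fr q F) (hθ : 1 < ‖θ‖) (u : F) (l : ℕ) {m j : ℕ} (hj : j < m) :
    HasSum (fun i =>
      u ^ q ^ (i + m) / (cD q θ i ^ q ^ m * (θ ^ q ^ (i + m) - θ ^ q ^ j) ^ (l + 1)))
      (psi q θ u l m j) := by
  simpa only [cT, div_div] using hs_psi h hθ u l hj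

theorem psi_succ (h : Fr q F) (hθ : 1 < ‖θ‖) (u : F) (l : ℕ) {m j : ℕ} (hj : j < m) :
    psi q θ u (l + 1) (m + 1) j =
      psi q θ u l m j + (θ ^ q ^ j - θ ^ q ^ m) * psi q θ u (l + 1) m j := by
  have h1 := Fr.shift (hs_psi h hθ u (l + 1) (hj.trans m.lt_succ_self))
    ((hs_psi h hθ u l hj).add ((hs_psi h hθ u (l + 1) hj).mul_left (θ ^ q ^ j - θ ^ q ^ m)))
    fun i => by
      have := h.sub_ne hθ (show j < i + 1 + m by omega)
      rw [← h.cT_succ hθ u m i, show i + (m + 1) = i + 1 + m by ring, pow_succ _ (l + 1)]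
      field_simp; ring
  have := h.sub_ne hθ hj
  rw [h1, zero_add, sub_eq_self, pow_succ _ (l + 1)]; field_simp; ring

theorem psi_tw (h : Fr q F) (hθ : 1 < ‖θ‖) (u : F) (l : ℕ) {m j : ℕ} (hj : j < m) :
    psi q θ u l (m + 1) (j + 1) = psi q θ u l m j ^ q := by
  have h1 := h.hasSum_pow 1 (hs_psi h hθ u l hj)
  rw [pow_one] at h1
  refine Fr.uniq (hs_psi h hθ _ l (Nat.add_lt_add_right hj 1)) h1 fun i => ?_
  rw [div_pow, Fr.cT_pow, ← add_assoc, h.sub_tw, pow_right_comm]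

theorem an4 : An4S := by
  intro k F _ _ _ _ _ _ θ u σ hθ hσ m j hj
  have h := fr k F
  refine ⟨by rw [Jt_coeff_lt _ _ _ _ (by norm_num), psi_zero], ?_, ?_, fun hu l => ?_⟩
  · rw [X_pow_dvd_iff]
    intro d hd
    rw [add_sub_assoc, ← C_sub, add_mul]
    rcases d with _ | d
    · simp only [coeff_sub, coeff_add, coeff_X_mul_zero, coeff_C_mul, coeff_C_zero,
        Jt_coeff_lt _ _ _ _ hd, psi_zero, h.phi_succ hθ u hj]
      ring
    · simp only [coeff_sub, coeff_add, coeff_X_mul, coeff_C_mul, coeff_C_succ,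
        Jt_coeff_lt _ _ _ _ hd, Jt_coeff_lt _ _ _ _ (show d < 4 by omega),
        psi_succ h hθ u d hj]
      ring
  · ext l
    rw [coeff_map, Jt_coeff, Jt_coeff]
    split_ifs
    · rw [hσ, psi_tw h hθ u l hj]
    · rw [map_zero]
  · rw [Jt_coeff]
    split_ifs
    · exact psi_small h hθ hu l hj
    · simp

end Pool.Agent.CSU.Q2
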