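import Pool.Agent.Lib.MP_0370b2_nt.S2.Bas

/-! The auxiliary row of degree two. -/

namespace Pool.Agent.CSU.Q2

open Polynomial Finset

variable {k F : Type} [Field k] [NormedField F] [Algebra k F] {θ : F} {U : Submodule k F}

/-- All coefficients have height at most `h`. -/
def H2 (U : Submodule k F) (h : ℕ) (f : F[X][X]) : Prop := ∀ b l, (f.coeff b).coeff l ∈ U ^ h

lemma H2.mul {a b : ℕ} {f g : F[X][X]} (hf : H2 U a f) (hg : H2 U b g) :
    H2 U (a + b) (f * g) := fun n l => by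
  rw [coeff_mul, finsetSum_coeff]
  refine sum_mem fun p _ => ?_
  rw [coeff_mul]
  exact sum_mem fun r _ => Ht.mul (hf _ _) (hg _ _)

lemma H2.mono (hU : Ht θ U) {a b : ℕ} {f : F[X][X]} (hf : H2 U a f) (h : a ≤ b) : H2 U b f :=
  fun n l => hU.le (hf n l) h

lemma H2.sum {ι : Type} {s : Finset ι} {a : ℕ} {f : ι → F[X][X]} (hf : ∀ i ∈ s, H2 U a (f i)) :
    H2 U a (∑ i ∈ s, f i) := fun n l => by
  rw [finsetSum_coeff, finsetSum_coeff]
  exact sum_mem fun i hi => hf i hi n l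

lemma H2.cc {a : ℕ} {c : F} (hc : c ∈ U ^ a) : H2 U a (C (C c)) := fun n l => by
  rw [coeff_C]
  split_ifs
  · rw [coeff_C]
    split_ifs
    · exact hc
    · exact zero_mem _
  · exact zero_mem _

lemma H2.one (hU : Ht θ U) (a : ℕ) : H2 U a 1 := by simpa using H2.cc (hU.one_mem a)

lemma H2.pow (hU : Ht θ U) {a : ℕ} {f : F[X][X]} (hf : H2 U a f) (n : ℕ) :
    H2 U (a * n) (f ^ n) := by
  induction n with
  | zero => simpa using H2.one hU 0
  | succ n ih => rw [pow_succ, mul_add, mul_one]; exact ih.mul hf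

lemma H2.tau (hU : Ht θ U) {a : ℕ} {c : F} (hc : c ∈ U ^ a) : H2 U a (C (X + C c)) :=
  fun n l => by
  rw [coeff_C]
  split_ifs
  · rw [coeff_add, coeff_X, coeff_C]
    refine add_mem ?_ ?_ <;> split_ifs
    exacts [hU.one_mem a, zero_mem _, hc, zero_mem _]
  · exact zero_mem _

lemma H2.up (hU : Ht θ U) {a δ : ℕ} {c : F} (hc : c ∈ U ^ a) {g : k[X]} (hg : g.natDegree ≤ δ) :
    H2 U (a * δ) (aeval (C (X + C c) : F[X][X]) (g.map (algebraMap k F))) := by
  rw [aeval_def, eval₂_eq_sum_range]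
  refine H2.sum fun i hi => ?_
  have h1 := mem_range.1 hi
  have h2 : (g.map (algebraMap k F)).natDegree ≤ g.natDegree := natDegree_map_le
  have h0 : H2 U 0 (C (C ((g.map (algebraMap k F)).coeff i))) := H2.cc (by
    rw [coeff_map, Algebra.algebraMap_eq_smul_one]
    exact Submodule.smul_mem _ _ (hU.one_mem 0))
  refine (h0.mul ((H2.tau hU hc).pow hU i)).mono hU ?_
  rw [zero_add]
  gcongr
  omega

lemma H2.mon (hU : Ht θ U) {a : ℕ} {Y : Fin 2 → F[X][X]} (hY : ∀ i, H2 U a (Y i)) (o : Fin 6) :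
    H2 U (a * 2) (mon Y o) := by
  have h1 := fun i => (hY i).mono hU (show a ≤ a * 2 by omega)
  fin_cases o
  exacts [H2.one hU _, h1 0, h1 1, (hY 0).pow hU 2,
    ((hY 0).mul (hY 1)).mono hU (by omega), (hY 1).pow hU 2]

theorem aux2 : Aux2S := by
  classical
  intro k F _ _ _ _ θ U r κ w δ f hU hw hf
  obtain ⟨c, hc⟩ := hU.sie (120 * κ + 1) (by omega)
  refine ⟨c, fun L a t cc Y s hL hm ht => ?_⟩
  have hcard : Fintype.card (Fin r × Fin (w * L)) = r * w * L := by
    simp only [Fintype.card_prod, Fintype.card_fin, mul_assoc]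
  have : Nonempty (Fin r × Fin (w * L)) := by
    rw [← Fintype.card_pos_iff, hcard]
    exact Nat.mul_pos (by omega) hL
  obtain ⟨b, hb0, hb, hs⟩ := hc (Fin r × Fin (w * L)) (Σ j : Fin (120 * L), s j)
    (fun e u => ps (cc e.1) (Y e.1) ((X : F[X]) ^ (u.2 : ℕ) • up F (f u.1)) e.2.1) _ t ht
    (fun e u => by
      obtain ⟨m1, m2, _⟩ := hm e.1 e.1.2
      have h1 : H2 U (a * u.2 + (a * δ + a * 2))
          (ev ((X : F[X]) ^ (u.2 : ℕ) • up F (f u.1)) (C (X + C (cc e.1))) (Y e.1)) := by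
        rw [ev_smul, map_pow, aeval_X]
        exact ((H2.tau hU m1).pow hU _).mul (H2.sum fun o _ =>
          (H2.up hU m1 (hf u.1 o)).mul (H2.mon hU (fun i b l => m2 i l b) o))
      refine hU.le (h1 _ _) ?_
      have := u.2.2.le
      nlinarith)
    (by
      have h1 : Fintype.card (Σ j : Fin (120 * L), s j) ≤ 120 * L * κ := by
        rw [Fintype.card_sigma]
        refine (sum_le_card_nsmul _ _ κ fun j _ => ?_).trans (by simp)
        rw [Fintype.card_coe]
        exact (hm j j.2).2.2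
      rw [hcard]
      calc _ ≤ (120 * κ + 1 + 1) * (120 * L * κ) := by gcongr
        _ ≤ (120 * κ + 1) * ((120 * κ + 1) * L) := by nlinarith
        _ ≤ _ := by gcongr; omega)
  let g : Fin r → F[X] := fun i => ∑ l : Fin (w * L), C (b (i, l)) * X ^ (l : ℕ)
  have hco : ∀ i (l : Fin (w * L)), (g i).coeff l = b (i, l) := fun i l => by
    simp only [g, finsetSum_coeff, coeff_C_mul_X_pow]
    rw [sum_eq_single l (fun l' _ h => if_neg fun e => h (Fin.ext e.symm)) (by simp), if_pos rfl]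
  refine ⟨g, fun e => hb0 (funext fun u => ?_), fun o => ⟨fun i => ?_, degree_sum_fin_lt _⟩,
    fun j hj p hp => ?_⟩
  · rw [← hco u.1 u.2, e]; rfl
  · simp only [g, finsetSum_coeff, coeff_C_mul_X_pow]
    refine sum_mem fun l _ => ?_
    split_ifs
    · exact hb _
    · exact zero_mem _
  · refine Eq.trans ?_ (hs ⟨⟨j, hj⟩, ⟨p, hp⟩⟩)
    rw [Fintype.sum_prod_type, map_sum, Finset.sum_apply]
    refine sum_congr rfl fun i _ => ?_
    simp only [g]
    rw [sum_smul, map_sum, Finset.sum_apply]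
    refine sum_congr rfl fun l _ => ?_
    rw [C_mul', smul_assoc, map_smul, Pi.smul_apply, smul_eq_mul, mul_comm]

end Pool.Agent.CSU.Q2
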