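import Pool.Agent.Lib.MP_0370b2_nt.S2.St
import Pool.Agent.Lib.MP_bf776f_nt.SU.ZE0

/-! Two points of the Carlitz exponential: classification of the stable modules. -/

namespace Pool.Agent.CSU.Q2

open Polynomial Finset

namespace Cl

variable {k F : Type} [Field k] [Fintype k] [Field F] [Algebra k F] {σ : F →+* F} {θ : F}
  {x : Fin 2 → F}

/-- Clearing denominators, with any multiplier. -/
lemma clear2 (hσ : ∀ y, σ y = y ^ Fintype.card k) {a g y p : F[X]} (ha : a ≠ 0)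
    (h : a * g.map σ = p * (a.map σ * g) - a * a.map σ * y) :
    ∃ (b : k[X]) (g' : F[X]), b ≠ 0 ∧ g'.map σ = p * g' - b.map (algebraMap k F) * y := by
  classical
  obtain ⟨a', g', e1, e2, hu⟩ := extract_gcd a g
  have hd : gcd a g ≠ 0 := fun h0 => ha (by rw [e1, h0, zero_mul])
  generalize gcd a g = d at *
  have ha' : a' ≠ 0 := fun h0 => ha (by rw [e1, h0, mul_zero])
  have hc : IsCoprime a' g' := (gcd_isUnit_iff _ _).1 hu
  have h' : a' * g'.map σ = p * (a'.map σ * g') - a' * a'.map σ * y := by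
    refine mul_left_cancel₀ (mul_ne_zero hd (Polynomial.map_ne_zero (f := σ) hd)) ?_
    rw [e1, e2, Polynomial.map_mul, Polynomial.map_mul] at h
    linear_combination h
  have hdv : a'.map σ ∣ a' := by
    refine (hc.map (mapRingHom σ)).dvd_of_dvd_mul_right ?_
    exact ⟨p * g' - a' * y, by simp only [coe_mapRingHom]; linear_combination h'⟩
  have hl : a'.leadingCoeff ≠ 0 := leadingCoeff_ne_zero.2 ha'
  have hm : (a' * C a'.leadingCoeff⁻¹).Monic := monic_mul_leadingCoeff_inv ha'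
  have hf : (a' * C a'.leadingCoeff⁻¹).map σ = a' * C a'.leadingCoeff⁻¹ := by
    refine (eq_of_monic_of_dvd_of_natDegree_le (hm.map σ) hm ?_ (natDegree_map σ).ge).symm
    rw [Polynomial.map_mul, map_C]
    exact (isUnit_C.2 (Ne.isUnit (by simpa using ha'))).mul_right_dvd.2 (hdv.mul_right _)
  obtain ⟨b, hb⟩ := fix_poly hσ hf
  refine ⟨b, g' * C a'.leadingCoeff⁻¹, fun h0 => hm.ne_zero (by rw [← hb, h0, Polynomial.map_zero]),
    mul_left_cancel₀ hm.ne_zero ?_⟩
  rw [hb]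
  rw [Polynomial.map_mul] at hf ⊢
  linear_combination (C a'.leadingCoeff⁻¹ * (C a'.leadingCoeff⁻¹).map σ) * h' +
    (p * g' * C a'.leadingCoeff⁻¹ - a' * C a'.leadingCoeff⁻¹ * y) * hf

/-- The linear twist equation with a denominator. -/
lemma nt1 (hσ : ∀ y, σ y = y ^ Fintype.card k) (hN : NT k (Fintype.card k) θ σ x) (T : ℕ)
    {a g : F[X]} (ha : a ≠ 0) (β0 β1 : k[X])
    (h : a * g.map σ = (X - C (θ ^ Fintype.card k ^ T)) * (a.map σ * g) - a * a.map σ *
      (C (x 0 ^ Fintype.card k ^ T) * β0.map (algebraMap k F) +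
        C (x 1 ^ Fintype.card k ^ T) * β1.map (algebraMap k F))) :
    β0 = 0 ∧ β1 = 0 ∧ g = 0 := by
  obtain ⟨b, g', hb, h'⟩ := clear2 hσ ha h
  have h1 := hN T ![b * β0, b * β1] g' (by
    rw [Fin.sum_univ_two]
    simp only [Matrix.cons_val_zero, Matrix.cons_val_one, Polynomial.map_mul]
    linear_combination h')
  have e0 : β0 = 0 := (mul_eq_zero.1 (congrFun h1 0)).resolve_left hb
  have e1 : β1 = 0 := (mul_eq_zero.1 (congrFun h1 1)).resolve_left hb
  refine ⟨e0, e1, by_contra fun hg => ?_⟩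
  rw [e0, e1, Polynomial.map_zero, mul_zero, mul_zero, add_zero, mul_zero, sub_zero] at h
  have h2 := congrArg natDegree h
  have ha' : a.map σ ≠ 0 := Polynomial.map_ne_zero ha
  have hg' : g.map σ ≠ 0 := Polynomial.map_ne_zero hg
  rw [natDegree_mul ha hg', natDegree_mul (X_sub_C_ne_zero _) (mul_ne_zero ha' hg),
    natDegree_mul ha' hg, natDegree_map, natDegree_map, natDegree_X_sub_C] at h2
  omega

/-- The quadratic twist equation in characteristic two: even coefficients. -/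
lemma sq_even (hσ : ∀ y, σ y = y ^ Fintype.card k) (hN : NT k (Fintype.card k) θ σ x)
    (h2 : (2 : F) = 0) (T : ℕ) (g : F[X]) (β0 β1 : k[X])
    (h : g.map σ = (X - C (θ ^ Fintype.card k ^ T)) ^ 2 * g -
      (C ((x 0 ^ Fintype.card k ^ T) ^ 2) * β0.map (algebraMap k F) +
        C ((x 1 ^ Fintype.card k ^ T) ^ 2) * β1.map (algebraMap k F))) (n : ℕ) :
    β0.coeff (n * 2) = 0 ∧ β1.coeff (n * 2) = 0 := by
  have : CharP F 2 := CharTwo.of_one_ne_zero_of_two_eq_zero one_ne_zero h2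
  have : CharP k 2 := (algebraMap k F).charP (algebraMap k F).injective 2
  obtain ⟨N, -, hq⟩ := FiniteField.card k 2
  obtain ⟨m, hm⟩ : ∃ m, (N : ℕ) = m + 1 := Nat.exists_eq_succ_of_ne_zero N.ne_zero
  have h2' : (2 : F[X]) = 0 := by rw [← map_ofNat C 2, h2, C_0]
  have hsq : ∀ c : F, (X - C c) ^ 2 = expand F 2 (X - C (c ^ 2)) := fun c => by
    rw [map_sub, expand_X, expand_C, C_pow]
    linear_combination (C c ^ 2 - X * C c) * h2'
  have hl : ∀ (A B D : F[X]) (u v : F), contract 2 (A - (C u * B + C v * D)) =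
      contract 2 A - (C u * contract 2 B + C v * contract 2 D) := fun A B D u v => by
    ext n
    simp [coeff_contract two_ne_zero]
  have h1 := congrArg (fun p => (contract 2 p).map (iterateFrobenius F 2 m)) h
  have hp : ∀ y : F, iterateFrobenius F 2 m ((y ^ Fintype.card k ^ T) ^ 2) =
      y ^ Fintype.card k ^ (T + 1) := fun y => by
    rw [iterateFrobenius_def, ← pow_mul, ← pow_mul, pow_succ (Fintype.card k)]
    congr 2
    rw [hq, hm, pow_succ']
  have hc : ∀ p : F[X], (p.map σ).map (iterateFrobenius F 2 m) =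
      (p.map (iterateFrobenius F 2 m)).map σ := fun p => by
    ext n
    simp only [coeff_map, hσ, map_pow]
  have hk : ∀ p : k[X], (p.map (algebraMap k F)).map (iterateFrobenius F 2 m) =
      (p.map (iterateFrobenius k 2 m)).map (algebraMap k F) := fun p => by
    ext n
    simp only [coeff_map, RingHom.map_iterateFrobenius]
  simp only [hsq, hl] at h1
  rw [mul_comm _ g, contract_mul_expand two_ne_zero, ← map_contract two_ne_zero,
    ← map_contract two_ne_zero, ← map_contract two_ne_zero] at h1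
  simp only [Polynomial.map_sub, Polynomial.map_add, Polynomial.map_mul, map_C, map_X, hp, hc,
    hk] at h1
  have h3 := hN (T + 1) ![(contract 2 β0).map (iterateFrobenius k 2 m),
    (contract 2 β1).map (iterateFrobenius k 2 m)] ((contract 2 g).map (iterateFrobenius F 2 m)) (by
    rw [Fin.sum_univ_two]
    simp only [Matrix.cons_val_zero, Matrix.cons_val_one]
    linear_combination h1)
  have e0 : contract 2 β0 = 0 := (Polynomial.map_eq_zero _).1 (congrFun h3 0)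
  have e1 : contract 2 β1 = 0 := (Polynomial.map_eq_zero _).1 (congrFun h3 1)
  rw [← coeff_contract two_ne_zero, ← coeff_contract two_ne_zero, e0, e1]
  exact ⟨coeff_zero _, coeff_zero _⟩

/-- The quadratic twist equation in characteristic two. -/
lemma nt2 (hσ : ∀ y, σ y = y ^ Fintype.card k) (hN : NT k (Fintype.card k) θ σ x)
    (h2 : (2 : F) = 0) (T : ℕ) {a g : F[X]} (ha : a ≠ 0) (β0 β1 : k[X])
    (h : a * g.map σ = (X - C (θ ^ Fintype.card k ^ T)) ^ 2 * (a.map σ * g) - a * a.map σ *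
      (C ((x 0 ^ Fintype.card k ^ T) ^ 2) * β0.map (algebraMap k F) +
        C ((x 1 ^ Fintype.card k ^ T) ^ 2) * β1.map (algebraMap k F))) :
    β0 = 0 ∧ β1 = 0 := by
  obtain ⟨b, g', hb, h'⟩ := clear2 hσ ha h
  have h3 := sq_even hσ hN h2 T g' (b * β0) (b * β1) (by
    simp only [Polynomial.map_mul]
    linear_combination h')
  have h4 := sq_even hσ hN h2 T (X * g') (X * (b * β0)) (X * (b * β1)) (by
    simp only [Polynomial.map_mul, map_X]
    linear_combination X * h')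
  have key : ∀ p : k[X], (∀ n, p.coeff (n * 2) = 0) → (∀ n, (X * p).coeff (n * 2) = 0) → p = 0 :=
    fun p u v => by
    ext n
    rcases Nat.even_or_odd' n with ⟨m, rfl | rfl⟩
    · rw [mul_comm, u, coeff_zero]
    · have := v (m + 1)
      rw [show (m + 1) * 2 = 2 * m + 1 + 1 by ring, coeff_X_mul] at this
      rw [this, coeff_zero]
  exact ⟨(mul_eq_zero.1 (key _ (fun n => (h3 n).1) fun n => (h4 n).1)).resolve_left hb,
    (mul_eq_zero.1 (key _ (fun n => (h3 n).2) fun n => (h4 n).2)).resolve_left hb⟩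

/-- The quadratic parts. -/
def G2 (N : Submodule F[X] (Fin 6 → F[X])) : Submodule F[X] (Fin 3 → F[X]) where
  carrier := {Q | ∃ a : F[X], a ≠ 0 ∧ ∃ v ∈ N, v 3 = a * Q 0 ∧ v 4 = a * Q 1 ∧ v 5 = a * Q 2}
  add_mem' := by
    rintro Q Q' ⟨a, ha, v, hv, h3, h4, h5⟩ ⟨a', ha', v', hv', h3', h4', h5'⟩
    refine ⟨a * a', mul_ne_zero ha ha', a' • v + a • v',
      N.add_mem (N.smul_mem _ hv) (N.smul_mem _ hv'), ?_, ?_, ?_⟩ <;>
    simp only [Pi.add_apply, Pi.smul_apply, smul_eq_mul, h3, h4, h5, h3', h4', h5'] <;> ring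
  zero_mem' := ⟨1, one_ne_zero, 0, N.zero_mem, by simp⟩
  smul_mem' := by
    rintro c Q ⟨a, ha, v, hv, h3, h4, h5⟩
    refine ⟨a, ha, c • v, N.smul_mem _ hv, ?_, ?_, ?_⟩ <;>
    simp only [Pi.smul_apply, smul_eq_mul, h3, h4, h5] <;> ring

/-- The linear parts of the rows without quadratic part. -/
def G1 (N : Submodule F[X] (Fin 6 → F[X])) : Submodule F[X] (Fin 2 → F[X]) where
  carrier := {b | ∃ a : F[X], a ≠ 0 ∧ ∃ v ∈ N, v 1 = a * b 0 ∧ v 2 = a * b 1 ∧
    v 3 = 0 ∧ v 4 = 0 ∧ v 5 = 0}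
  add_mem' := by
    rintro Q Q' ⟨a, ha, v, hv, h1, h2, h3, h4, h5⟩ ⟨a', ha', v', hv', h1', h2', h3', h4', h5'⟩
    refine ⟨a * a', mul_ne_zero ha ha', a' • v + a • v',
      N.add_mem (N.smul_mem _ hv) (N.smul_mem _ hv'), ?_, ?_, ?_, ?_, ?_⟩ <;>
    simp only [Pi.add_apply, Pi.smul_apply, smul_eq_mul, h1, h2, h3, h4, h5, h1', h2', h3', h4',
      h5'] <;> ring
  zero_mem' := ⟨1, one_ne_zero, 0, N.zero_mem, by simp⟩
  smul_mem' := by
    rintro c Q ⟨a, ha, v, hv, h1, h2, h3, h4, h5⟩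
    refine ⟨a, ha, c • v, N.smul_mem _ hv, ?_, ?_, ?_, ?_, ?_⟩ <;>
    simp only [Pi.smul_apply, smul_eq_mul, h1, h2, h3, h4, h5] <;> ring

omit [Fintype k] in
lemma G1_sat {N : Submodule F[X] (Fin 6 → F[X])} {a : F[X]} {b : Fin 2 → F[X]} (ha : a ≠ 0)
    (h : a • b ∈ G1 N) : b ∈ G1 N := by
  obtain ⟨a', ha', v, hv, h1, h2, h⟩ := h
  exact ⟨a' * a, mul_ne_zero ha' ha, v, hv, by rw [h1, mul_assoc]; rfl,
    by rw [h2, mul_assoc]; rfl, h⟩

/-- The hypotheses, in coordinates. -/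
structure Hyp (σ : F →+* F) (t y z : F[X]) (y2 z2 : F[X]) (N : Submodule F[X] (Fin 6 → F[X])) :
    Prop where
  sat : ∀ (a : F[X]) v, a ≠ 0 → a • v ∈ N → v ∈ N
  step : ∀ v ∈ N, ∃ a : F[X], a ≠ 0 ∧ ∃ w ∈ N,
    a * (v 0).map σ = t ^ 2 * w 0 - t * (y * w 1 + z * w 2) + (y2 * w 3 + y * z * w 4 + z2 * w 5) ∧
    a * (v 1).map σ = t * w 1 - (2 * y * w 3 + z * w 4) ∧
    a * (v 2).map σ = t * w 2 - (y * w 4 + 2 * z * w 5) ∧
    a * (v 3).map σ = w 3 ∧ a * (v 4).map σ = w 4 ∧ a * (v 5).map σ = w 5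

variable {t y z y2 z2 : F[X]} {N : Submodule F[X] (Fin 6 → F[X])}

lemma Hyp.tw2 (H : Hyp σ t y z y2 z2 N) {Q : Fin 3 → F[X]} (hQ : Q ∈ G2 N) :
    (fun o => (Q o).map σ) ∈ G2 N := by
  obtain ⟨a, ha, v, hv, h3, h4, h5⟩ := hQ
  obtain ⟨a', ha', w, hw, -, -, -, e3, e4, e5⟩ := H.step v hv
  refine ⟨a' * a.map σ, mul_ne_zero ha' (Polynomial.map_ne_zero ha), w, hw, ?_, ?_, ?_⟩
  · rw [← e3, h3, Polynomial.map_mul, mul_assoc]
  · rw [← e4, h4, Polynomial.map_mul, mul_assoc]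
  · rw [← e5, h5, Polynomial.map_mul, mul_assoc]

lemma Hyp.tw1 (H : Hyp σ t y z y2 z2 N) {b : Fin 2 → F[X]} (hb : b ∈ G1 N) :
    (fun o => (b o).map σ) ∈ G1 N := by
  obtain ⟨a, ha, v, hv, h1, h2, h3, h4, h5⟩ := hb
  obtain ⟨a', ha', w, hw, -, e1, e2, e3, e4, e5⟩ := H.step v hv
  rw [h3, Polynomial.map_zero, mul_zero] at e3
  rw [h4, Polynomial.map_zero, mul_zero] at e4
  rw [h5, Polynomial.map_zero, mul_zero] at e5
  rw [h1, Polynomial.map_mul, ← e3, ← e4] at e1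
  rw [h2, Polynomial.map_mul, ← e4, ← e5] at e2
  refine ⟨a' * a.map σ, mul_ne_zero ha' (Polynomial.map_ne_zero ha), t • w, N.smul_mem _ hw,
    ?_, ?_, ?_, ?_, ?_⟩ <;> simp only [Pi.smul_apply, smul_eq_mul]
  · linear_combination -e1
  · linear_combination -e2
  · rw [← e3, mul_zero]
  · rw [← e4, mul_zero]
  · rw [← e5, mul_zero]

lemma Hyp.zero (H : Hyp σ t y z y2 z2 N) (h0 : Pi.single 0 1 ∉ N) {v : Fin 6 → F[X]} (hv : v ∈ N)
    (h1 : v 1 = 0) (h2 : v 2 = 0) (h3 : v 3 = 0) (h4 : v 4 = 0) (h5 : v 5 = 0) : v 0 = 0 := by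
  by_contra hne
  refine h0 (H.sat (v 0) _ hne ?_)
  convert hv using 1
  funext o
  fin_cases o <;> simp [h1, h2, h3, h4, h5]

/-- A non-zero stable module has a non-zero fixed vector. -/
lemma fixed_ne {ι : Type} [Fintype ι] (hσ : ∀ y, σ y = y ^ Fintype.card k)
    (G : Submodule F[X] (ι → F[X])) (hs : ∀ v ∈ G, (fun o => (v o).map σ) ∈ G) (hG : G ≠ ⊥) :
    ∃ β : ι → k[X], β ≠ 0 ∧ (fun i => (β i).map (algebraMap k F)) ∈ G := by
  obtain ⟨v, hv, hv0⟩ := (Submodule.ne_bot_iff G).1 hG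
  exact artin hσ (fun v => v ∈ G) (fun c v h => (G.restrictScalars F).smul_mem c h)
    (fun v w h h' => G.sub_mem h h') hs ⟨v, hv, hv0⟩

/-- A vector killed by all fixed functionals that kill a saturated stable module lies in it. -/
lemma mem_of_kill (hσ : ∀ y, σ y = y ^ Fintype.card k) (G : Submodule F[X] (Fin 2 → F[X]))
    (hs : ∀ v ∈ G, (fun o => (v o).map σ) ∈ G)
    (hsat : ∀ (a : F[X]) v, a ≠ 0 → a • v ∈ G → v ∈ G) (b : Fin 2 → F[X])
    (h : ∀ l0 l1 : k[X], (∀ v ∈ G, l0.map (algebraMap k F) * v 0 + l1.map (algebraMap k F) * v 1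
      = 0) → l0.map (algebraMap k F) * b 0 + l1.map (algebraMap k F) * b 1 = 0) : b ∈ G := by
  by_cases hG : G = ⊥
  · have e0 := h 1 0 fun v hv => by rw [hG, Submodule.mem_bot] at hv; simp [hv]
    have e1 := h 0 1 fun v hv => by rw [hG, Submodule.mem_bot] at hv; simp [hv]
    have : b = 0 := by
      funext o
      fin_cases o
      · simpa using e0
      · simpa using e1
    rw [this]
    exact G.zero_mem
  obtain ⟨β, hβ, hm⟩ := fixed_ne hσ G hs hG
  by_cases hk : ∀ v ∈ G, (β 1).map (algebraMap k F) * v 0 + (-β 0).map (algebraMap k F) * v 1 = 0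
  · have e := h _ _ hk
    rw [Polynomial.map_neg] at e
    obtain ⟨i, hi⟩ := Function.ne_iff.1 hβ
    refine hsat ((β i).map (algebraMap k F)) b (Polynomial.map_ne_zero hi) ?_
    convert G.smul_mem (b i) hm using 1
    funext o
    simp only [Pi.smul_apply, smul_eq_mul]
    fin_cases i <;> fin_cases o <;> simp only [Fin.zero_eta, Fin.mk_one, Fin.isValue]
    · ring
    · linear_combination -e
    · linear_combination e
    · ring
  · push Not at hk
    obtain ⟨v, hv, hD⟩ := hk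
    refine hsat _ b hD ?_
    convert G.add_mem (G.smul_mem ((β 1).map (algebraMap k F) * b 0 -
      (β 0).map (algebraMap k F) * b 1) hv) (G.smul_mem (v 0 * b 1 - b 0 * v 1) hm) using 1
    funext o
    simp only [Pi.smul_apply, Pi.add_apply, smul_eq_mul, Polynomial.map_neg]
    fin_cases o <;> simp only [Fin.zero_eta, Fin.mk_one, Fin.isValue] <;> ring

section Main

variable {T : ℕ} (hσ : ∀ y, σ y = y ^ Fintype.card k) (hN : NT k (Fintype.card k) θ σ x)
  (H : Hyp σ (X - C (θ ^ Fintype.card k ^ T)) (C (x 0 ^ Fintype.card k ^ T))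
    (C (x 1 ^ Fintype.card k ^ T)) (C ((x 0 ^ Fintype.card k ^ T) ^ 2))
    (C ((x 1 ^ Fintype.card k ^ T) ^ 2)) N)

include hσ hN H

/-- Step (i). -/
lemma G1_bot (h0 : Pi.single 0 1 ∉ N) : G1 N = ⊥ := by
  by_contra hG
  obtain ⟨β, hβ, a, ha, v, hv, h1, h2, h3, h4, h5⟩ := fixed_ne hσ _ (fun _ => H.tw1) hG
  obtain ⟨a', ha', w, hw, e0, e1, e2, e3, e4, e5⟩ := H.step v hv
  rw [h3, Polynomial.map_zero, mul_zero] at e3
  rw [h4, Polynomial.map_zero, mul_zero] at e4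
  rw [h5, Polynomial.map_zero, mul_zero] at e5
  rw [h1, Polynomial.map_mul, map_fix hσ, ← e3, ← e4] at e1
  rw [h2, Polynomial.map_mul, map_fix hσ, ← e4, ← e5] at e2
  rw [← e3, ← e4, ← e5] at e0
  have hu := H.zero h0 (N.sub_mem (N.smul_mem (a' * a.map σ) hv)
    (N.smul_mem (a * (X - C (θ ^ Fintype.card k ^ T))) hw))
    (by simp only [Pi.sub_apply, Pi.smul_apply, smul_eq_mul, h1]; linear_combination a * e1)
    (by simp only [Pi.sub_apply, Pi.smul_apply, smul_eq_mul, h2]; linear_combination a * e2)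
    (by simp only [Pi.sub_apply, Pi.smul_apply, smul_eq_mul, h3, ← e3]; ring)
    (by simp only [Pi.sub_apply, Pi.smul_apply, smul_eq_mul, h4, ← e4]; ring)
    (by simp only [Pi.sub_apply, Pi.smul_apply, smul_eq_mul, h5, ← e5]; ring)
  simp only [Pi.sub_apply, Pi.smul_apply, smul_eq_mul] at hu
  obtain ⟨b0, b1, -⟩ := nt1 hσ hN T (g := v 0) ha (β 0) (β 1) (mul_left_cancel₀ ha' (by
    linear_combination a * e0 - (X - C (θ ^ Fintype.card k ^ T)) * hu +
      a * C (x 0 ^ Fintype.card k ^ T) * e1 + a * C (x 1 ^ Fintype.card k ^ T) * e2))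
  refine hβ (funext fun o => ?_)
  fin_cases o
  · exact b0
  · exact b1

/-- Step (ii). -/
lemma lift_mem {f : Fin 3 → k[X]} {a : F[X]} (ha : a ≠ 0) {v : Fin 6 → F[X]} (hv : v ∈ N)
    (h3 : v 3 = a * (f 0).map (algebraMap k F)) (h4 : v 4 = a * (f 1).map (algebraMap k F))
    (h5 : v 5 = a * (f 2).map (algebraMap k F)) :
    ![v 1, v 2] ∈ G1 N ∧ ![2 * (f 0).map (algebraMap k F), (f 1).map (algebraMap k F)] ∈ G1 N ∧
      ![(f 1).map (algebraMap k F), 2 * (f 2).map (algebraMap k F)] ∈ G1 N := by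
  obtain ⟨a', ha', w, hw, -, e1, e2, e3, e4, e5⟩ := H.step v hv
  rw [h3, Polynomial.map_mul, map_fix hσ] at e3
  rw [h4, Polynomial.map_mul, map_fix hσ] at e4
  rw [h5, Polynomial.map_mul, map_fix hσ] at e5
  rw [← e3, ← e4] at e1
  rw [← e4, ← e5] at e2
  have hu : ![a' * a.map σ * v 1 - a * w 1, a' * a.map σ * v 2 - a * w 2] ∈ G1 N := by
    refine ⟨1, one_ne_zero, _, N.sub_mem (N.smul_mem (a' * a.map σ) hv) (N.smul_mem a hw),
      ?_, ?_, ?_, ?_, ?_⟩ <;>
    simp only [Pi.sub_apply, Pi.smul_apply, smul_eq_mul, h3, h4, h5, ← e3, ← e4, ← e5,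
      Matrix.cons_val_zero, Matrix.cons_val_one] <;> ring
  have key : ∀ l0 l1 : k[X], (∀ u ∈ G1 N, l0.map (algebraMap k F) * u 0 +
      l1.map (algebraMap k F) * u 1 = 0) → l0 * (2 * f 0) + l1 * f 1 = 0 ∧
      l0 * f 1 + l1 * (2 * f 2) = 0 ∧
      l0.map (algebraMap k F) * v 1 + l1.map (algebraMap k F) * v 2 = 0 := fun l0 l1 hl => by
    have e := hl _ hu
    simp only [Matrix.cons_val_zero, Matrix.cons_val_one] at e
    refine nt1 hσ hN T ha _ _ (mul_left_cancel₀ ha' ?_)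
    simp only [Polynomial.map_add, Polynomial.map_mul, map_fix hσ, Polynomial.map_ofNat]
    linear_combination a * l0.map (algebraMap k F) * e1 + a * l1.map (algebraMap k F) * e2 -
      (X - C (θ ^ Fintype.card k ^ T)) * e
  refine ⟨mem_of_kill hσ _ (fun _ => H.tw1) (fun _ _ => G1_sat) _ fun l0 l1 hl => ?_,
    mem_of_kill hσ _ (fun _ => H.tw1) (fun _ _ => G1_sat) _ fun l0 l1 hl => ?_,
    mem_of_kill hσ _ (fun _ => H.tw1) (fun _ _ => G1_sat) _ fun l0 l1 hl => ?_⟩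
  · exact (key l0 l1 hl).2.2
  · simpa using congrArg (Polynomial.map (algebraMap k F)) (key l0 l1 hl).1
  · simpa using congrArg (Polynomial.map (algebraMap k F)) (key l0 l1 hl).2.1

/-- Step (iii). -/
lemma one_mem (hN0 : N ≠ ⊥) : Pi.single 0 1 ∈ N := by
  by_contra h0
  have hG := G1_bot hσ hN H h0
  have hb : ∀ p r : F[X], ![p, r] ∈ G1 N → p = 0 ∧ r = 0 := fun p r h => by
    rw [hG, Submodule.mem_bot] at h
    exact ⟨congrFun h 0, congrFun h 1⟩
  have hG2 : G2 N ≠ ⊥ := fun h2 => by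
    obtain ⟨v, hv, hv0⟩ := (Submodule.ne_bot_iff N).1 hN0
    have hm : ![v 3, v 4, v 5] ∈ G2 N := ⟨1, one_ne_zero, v, hv, by simp⟩
    rw [h2, Submodule.mem_bot] at hm
    have h3 : v 3 = 0 := congrFun hm 0
    have h4 : v 4 = 0 := congrFun hm 1
    have h5 : v 5 = 0 := congrFun hm 2
    obtain ⟨h1, h2⟩ := hb (v 1) (v 2) ⟨1, one_ne_zero, v, hv, by simp, by simp, h3, h4, h5⟩
    have := H.zero h0 hv h1 h2 h3 h4 h5
    refine hv0 (funext fun o => ?_)
    fin_cases o <;> assumption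
  obtain ⟨f, hf, a, ha, v, hv, h3, h4, h5⟩ := fixed_ne hσ _ (fun _ => H.tw2) hG2
  beta_reduce at h3 h4 h5
  obtain ⟨m0, m1, m2⟩ := lift_mem hσ hN H ha hv h3 h4 h5
  obtain ⟨h1, h2⟩ := hb _ _ m0
  obtain ⟨d0, d1⟩ := hb _ _ m1
  obtain ⟨-, d2⟩ := hb _ _ m2
  have f1 : f 1 = 0 := (Polynomial.map_eq_zero _).1 d1
  have fin : f 0 = 0 → f 2 = 0 → False := fun u0 u2 => hf (funext fun o => by
    fin_cases o <;> assumption)
  by_cases hc : (2 : F) = 0
  · obtain ⟨a', ha', w, hw, e0, e1, e2, e3, e4, e5⟩ := H.step v hv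
    have h2' : (2 : F[X]) = 0 := by rw [← map_ofNat C 2, hc, C_0]
    rw [h3, Polynomial.map_mul, map_fix hσ] at e3
    rw [h4, d1, mul_zero, Polynomial.map_zero, mul_zero] at e4
    rw [h5, Polynomial.map_mul, map_fix hσ] at e5
    rw [h1, Polynomial.map_zero, h2', ← e4] at e1
    rw [h2, Polynomial.map_zero, h2', ← e4] at e2
    have w1 : w 1 = 0 := (mul_eq_zero.1 (by linear_combination -e1)).resolve_left
      (X_sub_C_ne_zero (θ ^ Fintype.card k ^ T))
    have w2 : w 2 = 0 := (mul_eq_zero.1 (by linear_combination -e2)).resolve_left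
      (X_sub_C_ne_zero (θ ^ Fintype.card k ^ T))
    have hu := H.zero h0 (N.sub_mem (N.smul_mem (a' * a.map σ) hv) (N.smul_mem a hw))
      (by simp only [Pi.sub_apply, Pi.smul_apply, smul_eq_mul, h1, w1]; ring)
      (by simp only [Pi.sub_apply, Pi.smul_apply, smul_eq_mul, h2, w2]; ring)
      (by simp only [Pi.sub_apply, Pi.smul_apply, smul_eq_mul, h3, ← e3]; ring)
      (by simp only [Pi.sub_apply, Pi.smul_apply, smul_eq_mul, h4, d1, ← e4]; ring)
      (by simp only [Pi.sub_apply, Pi.smul_apply, smul_eq_mul, h5, ← e5]; ring)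
    simp only [Pi.sub_apply, Pi.smul_apply, smul_eq_mul] at hu
    rw [w1, w2, ← e3, ← e4, ← e5] at e0
    obtain ⟨u0, u2⟩ := nt2 hσ hN hc T (g := v 0) ha (-f 0) (-f 2) (mul_left_cancel₀ ha' (by
      simp only [Polynomial.map_neg]
      linear_combination a * e0 - (X - C (θ ^ Fintype.card k ^ T)) ^ 2 * hu))
    exact fin (neg_eq_zero.1 u0) (neg_eq_zero.1 u2)
  · have h2' : (2 : F[X]) ≠ 0 := by rw [← map_ofNat C 2]; exact C_ne_zero.2 hc
    exact fin ((Polynomial.map_eq_zero _).1 ((mul_eq_zero.1 d0).resolve_left h2'))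
      ((Polynomial.map_eq_zero _).1 ((mul_eq_zero.1 d2).resolve_left h2'))

omit hσ hN [Field k] [Algebra k F] in
lemma mid_mem (h0 : Pi.single 0 1 ∈ N) {p r : F[X]} (h : ![p, r] ∈ G1 N) :
    ![0, p, r, 0, 0, 0] ∈ N := by
  obtain ⟨a, ha, v, hv, h1, h2, h3, h4, h5⟩ := h
  refine H.sat a _ ha ?_
  convert N.sub_mem hv (N.smul_mem (v 0) h0) using 1
  funext o
  fin_cases o <;> simp [h1, h2, h3, h4, h5]

lemma top_mem (hF : FixS) (h0 : Pi.single 0 1 ∈ N) {Q : Fin 3 → F[X]} (h : Q ∈ G2 N) :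
    ![0, 0, 0, Q 0, Q 1, Q 2] ∈ N ∧ ![2 * Q 0, Q 1] ∈ G1 N ∧ ![Q 1, 2 * Q 2] ∈ G1 N := by
  have hs := hF k F (Fin 3) σ ((G2 N).restrictScalars F) hσ (fun _ => H.tw2) Q h
  clear h
  induction hs using Submodule.span_induction with
  | mem w hw =>
    obtain ⟨⟨a, ha, v, hv, h3, h4, h5⟩, f, rfl⟩ := hw
    obtain ⟨m0, m1, m2⟩ := lift_mem hσ hN H ha hv h3 h4 h5
    refine ⟨H.sat a _ ha ?_, m1, m2⟩
    convert N.sub_mem (N.sub_mem hv (N.smul_mem (v 0) h0)) (mid_mem H h0 m0) using 1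
    funext o
    fin_cases o <;> simp [h3, h4, h5]
  | zero =>
    refine ⟨?_, ?_, ?_⟩
    · convert N.zero_mem using 1
      funext o
      fin_cases o <;> simp
    · convert (G1 N).zero_mem using 1
      funext o
      fin_cases o <;> simp
    · convert (G1 N).zero_mem using 1
      funext o
      fin_cases o <;> simp
  | add u w _ _ hu hw =>
    refine ⟨?_, ?_, ?_⟩
    · convert N.add_mem hu.1 hw.1 using 1
      funext o
      fin_cases o <;> simp
    · convert (G1 N).add_mem hu.2.1 hw.2.1 using 1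
      funext o
      fin_cases o <;> simp [mul_add]
    · convert (G1 N).add_mem hu.2.2 hw.2.2 using 1
      funext o
      fin_cases o <;> simp [mul_add]
  | smul c u _ hu =>
    refine ⟨?_, ?_, ?_⟩
    · convert N.smul_mem (C c) hu.1 using 1
      funext o
      fin_cases o <;> simp [smul_eq_C_mul]
    · convert (G1 N).smul_mem (C c) hu.2.1 using 1
      funext o
      fin_cases o <;> simp [smul_eq_C_mul, mul_left_comm]
    · convert (G1 N).smul_mem (C c) hu.2.2 using 1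
      funext o
      fin_cases o <;> simp [smul_eq_C_mul, mul_left_comm]

lemma mem_iff (hF : FixS) (h0 : Pi.single 0 1 ∈ N) (v : Fin 6 → F[X]) :
    v ∈ N ↔ ![v 1, v 2] ∈ G1 N ∧ ![v 3, v 4, v 5] ∈ G2 N := by
  constructor
  · intro hv
    have h2 : ![v 3, v 4, v 5] ∈ G2 N := ⟨1, one_ne_zero, v, hv, by simp⟩
    exact ⟨⟨1, one_ne_zero, _, N.sub_mem hv (top_mem hσ hN H hF h0 h2).1, by simp⟩, h2⟩
  · rintro ⟨h1, h2⟩
    convert N.add_mem (N.add_mem (N.smul_mem (v 0) h0) (mid_mem H h0 h1))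
      (top_mem hσ hN H hF h0 h2).1 using 1
    funext o
    fin_cases o <;> simp [Matrix.vecHead, Matrix.vecTail]

lemma adm (hF : FixS) (hN0 : N ≠ ⊥) : Adm σ N := by
  have h0 := one_mem hσ hN H hN0
  refine ⟨h0, fun v hv => ?_, fun lam a v hv => ?_⟩
  · obtain ⟨h1, h2⟩ := (mem_iff hσ hN H hF h0 v).1 hv
    refine (mem_iff hσ hN H hF h0 _).2 ⟨?_, ?_⟩
    · convert H.tw1 h1 using 1
      funext o
      fin_cases o <;> rfl
    · convert H.tw2 h2 using 1
      funext o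
      fin_cases o <;> rfl
  · obtain ⟨h1, h2⟩ := (mem_iff hσ hN H hF h0 v).1 hv
    obtain ⟨-, d0, d1⟩ := top_mem hσ hN H hF h0 h2
    refine (mem_iff hσ hN H hF h0 _).2 ⟨?_, ?_⟩
    · convert (G1 N).smul_mem lam ((G1 N).add_mem ((G1 N).add_mem h1
        ((G1 N).smul_mem (a 0) d0)) ((G1 N).smul_mem (a 1) d1)) using 1
      funext o
      fin_cases o <;> simp [sb] <;> exact Or.inl (by ring)
    · convert (G2 N).smul_mem (lam ^ 2) h2 using 1
      funext o
      fin_cases o <;> simp [sb]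

end Main

end Cl

theorem cls (hF : FixS) : ClsS := by
  intro k F _ _ _ _ θ σ x T N hσ hN hN0 hs hst
  refine Cl.adm (T := T) hσ hN ⟨hs, fun v hv => ?_⟩ hF hN0
  obtain ⟨a, ha, w, hw, h⟩ := hst v hv
  have e := fun o => congrFun h o
  simp only [Pi.smul_apply, smul_eq_mul, twQ] at e
  exact ⟨a, ha, w, hw, (e 0).trans (by simp only [trQ, Matrix.cons_val_zero, C_pow]), (e 1).trans rfl,
    (e 2).trans rfl, (e 3).trans rfl, (e 4).trans rfl, (e 5).trans rfl⟩

end Pool.Agent.CSU.Q2
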