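import Pool.Agent.Lib.MP_0370b2_nt.S2.St
import Pool.Agent.Lib.MP_bf776f_nt.SU.ZE0

/-! Counting conditions on a module of rows. -/

namespace Pool.Agent.CSU.Q2

open Polynomial Finset

theorem cnt : CntS := by
  intro F ι Z _ _ _ _ _ N r d ρ Ψ hρ hN hs hd hΨ
  classical
  obtain ⟨f, hf⟩ := minor ρ hρ
  have piv : ∀ w ∈ N, (∀ b, w (f b) = 0) → w = 0 := fun w hw h0 => by
    obtain ⟨a, ha, h⟩ := hs w hw
    obtain ⟨s, h⟩ := (Submodule.mem_span_range_iff_exists_fun _).1 h
    have s0 : s = 0 := by_contra fun h1 => hf (Matrix.exists_vecMul_eq_zero_iff.1 ⟨s, h1,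
      funext fun b => by simpa [Matrix.vecMul, dotProduct, h0] using congrFun h (f b)⟩)
    subst s0
    exact (smul_eq_zero.1 (by simpa using h.symm)).resolve_left ha
  set V := (N.restrictScalars F).map Ψ
  let B := Module.finBasis F V
  choose v hv hB using fun i => Submodule.mem_map.1 (B i).2
  obtain ⟨D, hD⟩ : ∃ D : ℕ, ∀ i o, (v i o).degree < D := by
    refine ⟨(univ.sup fun p : _ × ι => (v p.1 p.2).natDegree) + 1, fun i o =>
      degree_le_natDegree.trans_lt ?_⟩
    exact_mod_cast Nat.lt_succ_of_le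
      (le_sup (f := fun p : _ × ι => (v p.1 p.2).natDegree) (mem_univ (i, o)))
  let W : ((Fin (Module.finrank F V) → F) × (Fin r → degreeLT F D)) →ₗ[F] (ι → F[X]) :=
    (Fintype.linearCombination F v).coprod (∑ j, (LinearMap.toSpanSingleton F[X] _
      (ρ j)).restrictScalars F ∘ₗ (degreeLT F D).subtype ∘ₗ LinearMap.proj j)
  have hW : ∀ z, W z = ∑ i, z.1 i • v i + ∑ j, (z.2 j : F[X]) • ρ j := fun z => by
    simp [W, Fintype.linearCombination_apply, LinearMap.sum_apply]
  have hm : ∀ o z, (LinearMap.proj o ∘ₗ W) z ∈ degreeLT F (D + d) := fun o z => by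
    rw [LinearMap.comp_apply, LinearMap.proj_apply, hW, Pi.add_apply, Finset.sum_apply,
      Finset.sum_apply]
    refine add_mem (sum_mem fun i _ => Submodule.smul_mem _ _ (degreeLT_mono (Nat.le_add_right _ _)
      (mem_degreeLT.2 (hD i o)))) (sum_mem fun j _ => mem_degreeLT.2 ?_)
    rw [Pi.smul_apply, smul_eq_mul, degree_mul, Nat.cast_add]
    exact (add_le_add_right (hd j o).le _).trans_lt
      (WithBot.add_lt_add_right (WithBot.natCast_ne_bot _) (mem_degreeLT.1 (z.2 j).2))
  have hi : Function.Injective (LinearMap.pi fun b =>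
      (LinearMap.proj (f b) ∘ₗ W).codRestrict _ (hm (f b))) := by
    refine (injective_iff_map_eq_zero _).2 fun z hz => ?_
    have h0 := piv (W z) (hW z ▸ add_mem (sum_mem fun i _ => N.smul_of_tower_mem _ (hv i))
      (sum_mem fun j _ => N.smul_mem _ (hN j))) fun b => congrArg Subtype.val (congrFun hz b)
    rw [hW] at h0
    have h1 : z.1 = 0 := funext (Fintype.linearIndependent_iff.1 B.linearIndependent z.1
      (Subtype.ext (by simpa [hΨ, hB] using congrArg Ψ h0)))
    have h2 := Fintype.linearIndependent_iff.1 hρ _ (by simpa [h1] using h0)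
    exact Prod.ext h1 (funext fun j => Subtype.ext (h2 j))
  have h := LinearMap.finrank_le_finrank_of_injective hi
  have e : ∀ n, Module.finrank F (Fin r → degreeLT F n) = r * n := fun n => by
    simp [Module.finrank_pi_fintype, (degreeLTEquiv F n).finrank_eq]
  rw [Module.finrank_prod, e, e, Module.finrank_fin_fun] at h
  nlinarith

theorem crt : CrtS := by
  intro F ι κ Z _ _ _ _ _ N c ψ hc h4
  classical
  have he : ∀ j, ∃ e : F[X], (X - C (c j)) ^ 4 ∣ e - 1 ∧ ∀ i ≠ j, (X - C (c i)) ^ 4 ∣ e := fun j => by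
    obtain ⟨a, b, h⟩ : IsCoprime ((X - C (c j)) ^ 4) (∏ i ∈ univ.erase j, (X - C (c i)) ^ 4) :=
      IsCoprime.prod_right fun i hi => (isCoprime_X_sub_C_of_isUnit_sub
        (sub_ne_zero.2 (hc.ne (ne_of_mem_erase hi).symm)).isUnit).pow
    exact ⟨b * _, ⟨-a, by linear_combination h⟩, fun i hi =>
      (dvd_prod_of_mem _ (mem_erase.2 ⟨hi, mem_univ i⟩)).mul_left _⟩
  choose e h1 h0 using he
  have hz : ∀ j (g : F[X]) v, (X - C (c j)) ^ 4 ∣ g → ψ j (g • v) = 0 := by
    rintro j _ v ⟨g, rfl⟩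
    rw [mul_smul, h4]
  have hm : ∀ z : ∀ j, (N.restrictScalars F).map (ψ j), (LinearMap.pi fun j =>
      ((N.restrictScalars F).map (ψ j)).subtype ∘ₗ LinearMap.proj j) z ∈
      (N.restrictScalars F).map (LinearMap.pi ψ) := fun z => by
    choose v hv hz' using fun j => Submodule.mem_map.1 (z j).2
    refine ⟨∑ j, e j • v j, sum_mem fun j _ => N.smul_mem _ (hv j), funext fun i => ?_⟩
    have := hz i _ (v i) (h1 i)
    rw [sub_smul, one_smul, map_sub, sub_eq_zero, hz'] at this
    rw [LinearMap.pi_apply, map_sum, sum_eq_single i (fun j _ hj => hz i _ _ (h0 j i hj.symm))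
      (fun h => absurd (mem_univ i) h), this]
    rfl
  rw [← Module.finrank_pi_fintype]
  refine LinearMap.finrank_le_finrank_of_injective (f := LinearMap.codRestrict _ _ hm)
    fun z w h => funext fun j => Subtype.ext (congrFun (congrArg Subtype.val h) j)

end Pool.Agent.CSU.Q2
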