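import Pool.Agent.Lib.MP_0370b2_nt.S2.Bas
import Pool.Agent.Lib.MP_bf776f_nt.SU.Core

/-! The core of the argument for quadratic rows. -/

namespace Pool.Agent.CSU.Q2

open Polynomial Finset

lemma ar1 {r κ : ℕ} (h1 : 1 ≤ r) (h6 : r ≤ 6) (h : 6 * κ ≤ 10 * r) :
    ∃ w, r * w = 120 * κ + r ∧ w ≤ 201 := by
  refine ⟨120 / r * κ + 1, ?_⟩
  interval_cases r <;> omega

lemma ar2 {r r' κ w L δ μ : ℕ} (h1 : 1 ≤ r) (h6 : r' ≤ 6) (h : 6 * κ ≤ 10 * r)
    (hw : r * w = 120 * κ + r) (hL : 6 * δ + 145 ≤ L)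
    (hz : r * μ + κ * r' * (120 * L - 6) ≤ r * r' * (w * L + δ + 1 + 12) + 6 * r) :
    μ + 1 ≤ 7 * L := by
  obtain ⟨n, hn⟩ : ∃ n, 120 * L = n + 6 := ⟨120 * L - 6, by omega⟩
  have e1 : r * r' * (w * L + δ + 1 + 12) = κ * r' * n + r' * (6 * κ) + r * (r' * (L + δ + 13)) := by
    calc _ = r' * L * (r * w) + r * r' * (δ + 13) := by ring
      _ = κ * r' * (120 * L) + r * (r' * (L + δ + 13)) := by rw [hw]; ring
      _ = _ := by rw [hn]; ring
  rw [hn, Nat.add_sub_cancel, e1] at hz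
  have e2 : r' * (6 * κ) ≤ 6 * (10 * r) := Nat.mul_le_mul h6 h
  have e3 : r * (r' * (L + δ + 13)) ≤ r * (6 * (L + δ + 13)) := by gcongr
  have e4 : r * μ ≤ r * (6 * (L + δ + 13) + 66) := by rw [mul_add]; omega
  have := Nat.le_of_mul_le_mul_left e4 h1
  omega

lemma ar3 {c q e δ w L Q K : ℕ} (hw : w ≤ 201)
    (hK : c * (204 + δ + q * e + 120 * q) * (203 + δ) * q ^ e + 202 + δ + 2 * q ^ e + 480 ≤ K) :
    c * (w * L + δ + 2 + q * (e + 120 * L) + 1) * (w * L + δ + 2) * (q ^ e * Q) +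
      Q * (w * L + δ + 1) + 2 * (q ^ e * Q) + Q * (4 * (120 * L)) ≤ K * (L + 1) ^ 2 * Q := by
  have b0 : w * L ≤ 201 * L := Nat.mul_le_mul_right _ hw
  have b1 : w * L + δ + 2 + q * (e + 120 * L) + 1 ≤ (204 + δ + q * e + 120 * q) * (L + 1) := by
    nlinarith [Nat.zero_le (q * e * L), Nat.zero_le (δ * L), Nat.zero_le q]
  have b2 : w * L + δ + 2 ≤ (203 + δ) * (L + 1) := by nlinarith [Nat.zero_le (δ * L)]
  have b4 : L + 1 ≤ (L + 1) ^ 2 := by nlinarith
  have b3 : w * L + δ + 1 ≤ (202 + δ) * (L + 1) ^ 2 :=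
    le_trans (by nlinarith [Nat.zero_le (δ * L)]) (Nat.mul_le_mul_left (202 + δ) b4)
  have b5 : 1 ≤ (L + 1) ^ 2 := by omega
  calc _ ≤ c * ((204 + δ + q * e + 120 * q) * (L + 1)) * ((203 + δ) * (L + 1)) * (q ^ e * Q) +
        Q * ((202 + δ) * (L + 1) ^ 2) + 2 * (q ^ e * Q) * (L + 1) ^ 2 +
        Q * (480 * (L + 1) ^ 2) := by
        refine add_le_add (add_le_add ?_ (Nat.le_mul_of_pos_right _ b5))
          (Nat.mul_le_mul_left _ (by omega))
        gcongr
    _ = (c * (204 + δ + q * e + 120 * q) * (203 + δ) * q ^ e + 202 + δ + 2 * q ^ e + 480) *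
        (L + 1) ^ 2 * Q := by ring
    _ ≤ _ := by gcongr

variable {k F : Type} [Field k] [NormedField F] [Algebra k F] {θ : F} {U : Submodule k F}

lemma co_mul {a b : ℕ} {p p' : F[X]} (h : ∀ i, p.coeff i ∈ U ^ a) (h' : ∀ i, p'.coeff i ∈ U ^ b)
    (i : ℕ) : (p * p').coeff i ∈ U ^ (a + b) := by
  rw [coeff_mul]
  exact sum_mem fun _ _ => Ht.mul (h _) (h' _)

lemma pu_hasse {h D : ℕ} {p : F[X]} (hp : PU U h D p) (l : ℕ) : PU U h D (hasseDeriv l p) := by
  refine ⟨fun i => ?_, (degree_lt_iff_coeff_zero _ _).2 fun m hm => ?_⟩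
  · rw [hasseDeriv_coeff, ← nsmul_eq_mul]
    exact nsmul_mem (hp.1 _) _
  · rw [hasseDeriv_coeff, (degree_lt_iff_coeff_zero _ _).1 hp.2 _ (by omega), mul_zero]

lemma J2.ht {q e : ℕ} {σ : F →+* F} {x : Fin 2 → F} {Y : ℕ → ℕ → Fin 2 → F[X][X]}
    (h : J2 q θ σ x e Y) (hσ : ∀ y, σ y = y ^ q) (hq : 2 ≤ q) (hU : Ht θ U) (hθ : θ ∈ U)
    (hx : ∀ i, x i ∈ U) (h0 : ∀ i a b, ((Y e 0 i).coeff b).coeff a ∈ U) :
    ∀ j m, j + e ≤ m → ∀ i a b, ((Y m j i).coeff b).coeff a ∈ U ^ q ^ m := by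
  refine jet_ind _ (fun i a b => ?_) (fun m hm ih i a b => ?_) fun m j hj ih i a b => ?_
  · exact hU.le (a := 1) (by simpa using h0 i a b) (Nat.one_le_pow e q (by omega))
  · have h2 : q ^ m + q ^ m ≤ q ^ (m + 1) := by rw [pow_succ]; nlinarith [Nat.zero_le (q ^ m)]
    have hC : ∀ {y : F} {n : ℕ}, y ∈ U ^ n → ∀ i, (C y).coeff i ∈ U ^ n := fun hy i => by
      rw [coeff_C]
      split_ifs
      · exact hy
      · exact zero_mem _
    rw [h.Yrec m 0 i (by omega), coeff_add, coeff_C_mul, coeff_add]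
    refine add_mem (hU.le (co_mul (fun l => ?_) (fun l => ih i l b) a) h2) ?_
    · rw [coeff_sub, coeff_add, coeff_X]
      refine sub_mem (add_mem ?_ (hC (hU.le (c_mem hθ _)
        (Nat.pow_le_pow_right (by omega) (by omega))) _)) (hC (c_mem hθ _) _)
      split_ifs
      · exact hU.one_mem _
      · exact zero_mem _
    · rw [coeff_C]
      split_ifs
      · exact hC (hU.le (c_mem (hx i) _) (by omega)) _
      · exact zero_mem _
  · rw [h.Ytw m j i hj, coeff_map, coe_mapRingHom, coeff_map, hσ, pow_succ q]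
    exact Ht.pow (ih i a b) q

theorem coreQ : Aux2S → SmallS → CoreQS := by
  intro hX hS k F _ _ _ _ _ θ σ x e Y ξ U r κ f hθ hσ hJ hU hθU hx h0 hx1 hξ hn hf hr1 hr6 hκ hs hZ
  have hq : 2 ≤ Fintype.card k := Fintype.one_lt_card
  generalize Fintype.card k = q at *
  obtain ⟨w, hw, hw'⟩ := ar1 hr1 hr6 hκ
  obtain ⟨δ, hδ⟩ := (Set.finite_range fun p : Fin r × Fin 6 => (f p.1 p.2).natDegree).bddAbove
  have hδ : ∀ i o, (f i o).natDegree ≤ δ := fun i o => hδ ⟨(i, o), rfl⟩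
  obtain ⟨c, hc⟩ := hX k F θ U r κ w δ f hU (by omega) hδ
  obtain ⟨g, hg⟩ := hU.nrm
  obtain ⟨A, hA⟩ := hU.gel (q ^ 128) (hq.trans (Nat.le_self_pow (by omega) q))
  obtain ⟨L2, hL2⟩ := ex_L0 (c * (204 + δ + q * e + 120 * q) * (203 + δ) * q ^ e + 202 + δ +
    2 * q ^ e + 480 + (A + g + 2))
  refine hA (L2 + (6 * δ + 145)) fun L hL => ?_
  have hht := hJ.ht hσ hq hU hθU hx h0
  classical
  choose! s hs1 hs2 using hs (e + 120 * L)
  obtain ⟨G, hG0, hG, hGc⟩ := hc L (q ^ (e + 120 * L)) (w * L + δ + 2 + q * (e + 120 * L))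
    (fun j => θ ^ q ^ j) (Y (e + 120 * L)) s (by omega)
    (fun j hj => ⟨hU.le (c_mem hθU _) (Nat.pow_le_pow_right (by omega) (by omega)),
      hht j _ (by omega), hs1 j (by omega)⟩)
    (by
      rw [pow_add 2 _ (q * _), pow_mul 2 q]
      exact Nat.mul_le_mul Nat.lt_two_pow_self.le (Nat.pow_le_pow_left Nat.lt_two_pow_self.le _))
  set h := c * (w * L + δ + 2 + q * (e + 120 * L) + 1) * ((w * L + δ + 2) * q ^ (e + 120 * L))
    with hh
  have hBc := fun j (hj : j < 120 * L) => hs2 j (by omega) G (hGc j hj)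
  have hB0 : ∑ i, G i • up F (f i) ≠ 0 := fun h =>
    hG0 (funext (Fintype.linearIndependent_iff.1 hf G h))
  have hB : ∀ o, PU U h (w * L + δ + 1) ((∑ i, G i • up F (f i)) o) := fun o => by
    rw [Finset.sum_apply]
    refine ⟨fun n => ?_, mem_degreeLT.1 (sum_mem fun i _ => mem_degreeLT.2
      (degree_le_natDegree.trans_lt ?_))⟩
    · rw [finsetSum_coeff]
      exact sum_mem fun i _ => co_mul (b := 0) (hG i).1 (fun l => by
        rw [up, coeff_map, pow_zero]; exact Submodule.algebraMap_mem _) n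
    · have a1 := natDegree_le_of_degree_le (hG i).2.le
      have a2 : (up F (f i) o).natDegree ≤ δ := natDegree_map_le.trans (hδ i o)
      have a3 := natDegree_mul_le (p := G i) (q := up F (f i) o)
      exact_mod_cast (by omega : (G i * up F (f i) o).natDegree < w * L + δ + 1)
  generalize ∑ i, G i • up F (f i) = B at hBc hB0 hB
  have hZ : ∀ μ, (∀ n, 1 ≤ n → n ≤ μ →
      ev ((twQ σ)^[n] B) θ (vl (Y (e + 120 * L + n) 0)) = 0) → μ + 1 ≤ 7 * L := fun μ hμ => by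
    obtain ⟨r', h1, h2⟩ := hZ (120 * L) _ μ B (by omega) hB0 (fun o => (hB o).2) hBc hμ
    exact ar2 hr1 h1 hκ hw (by omega) h2
  have hex : ∃ a, ev ((twQ σ)^[a + 1] B) θ (vl (Y (e + 120 * L + (a + 1)) 0)) ≠ 0 := by
    by_contra hne
    push Not at hne
    have := hZ (7 * L) fun a h1 _ => by
      obtain ⟨a, rfl⟩ : ∃ a', a = a' + 1 := ⟨a - 1, by omega⟩
      exact hne a
    omega
  have hne := Nat.find_spec hex
  have hμl := hZ (Nat.find hex) fun a h1 h2 => by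
    obtain ⟨a, rfl⟩ : ∃ a', a = a' + 1 := ⟨a - 1, by omega⟩
    exact not_not.1 (Nat.find_min hex (by omega))
  generalize Nat.find hex = μ at hne hμl
  obtain ⟨a, ha⟩ : ∃ a, a = μ + 1 := ⟨_, rfl⟩
  rw [← ha] at hne hμl
  have hR : ∀ a o, PU U (h * q ^ a) (w * L + δ + 1) ((twQ σ)^[a] B o) := fun a o => by
    refine ⟨?_, by rw [twQN_deg]; exact (hB o).2⟩
    induction a with
    | zero => simpa using (hB o).1
    | succ a ih =>
      intro i
      rw [Function.iterate_succ_apply', twQ, coeff_map, hσ, pow_succ q, ← mul_assoc]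
      exact Ht.pow (ih i) q
  have b0 : w * L ≤ 201 * L := Nat.mul_le_mul_right _ hw'
  have key := hS F q θ σ x e Y ξ ((twQ σ)^[a] B) (e + 120 * L + a) a (120 * L) (w * L + δ + 1)
    (139 * L) (‖θ‖ ^ (g * (h * q ^ a + q ^ (a + 120 * L) * (w * L + δ + 1)))) hq hθ hJ hx1 hξ hn
    (fun o => (hR a o).2) (by omega) (by omega) (by omega) (by positivity)
    (fun j h1 h2 => by
      have := hJ.ps_twN hσ (m := e + 120 * L) (j := j - a) (by omega) (hBc _ (by omega)) a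
      rwa [Nat.sub_add_cancel h1] at this)
    (fun j hj o l => by
      rw [taylor_coeff]
      refine hg _ _ (hU.le ((pu_hasse (hR a o) l).eval hU (c_mem hθU _)) ?_)
      gcongr
      omega)
  set Q := q ^ (a + 120 * L) with hQ
  have hν : q ^ (e + 120 * L + a) = q ^ e * Q := by rw [hQ, ← pow_add]; congr 1; omega
  have hQ1 : 1 ≤ Q := Nat.one_le_pow _ _ (by omega)
  have hL2' := (hL2 L (by omega)).trans (Nat.pow_le_pow_left hq L)
  have hW : h * q ^ a + Q * (w * L + δ + 1) + 2 * (q ^ e * Q) + Q * (4 * (120 * L)) ≤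
      (q ^ 128) ^ L := by
    have b1 : h * q ^ a = c * (w * L + δ + 2 + q * (e + 120 * L) + 1) * (w * L + δ + 2) *
        (q ^ e * Q) := by rw [← hν, hh, pow_add q _ a]; ring
    rw [b1, show (q ^ 128) ^ L = q ^ L * q ^ (127 * L) by
      rw [← pow_mul, ← pow_add]; congr 1; ring]
    exact (ar3 hw' (Nat.le_add_right _ _)).trans
      (Nat.mul_le_mul hL2' (Nat.pow_le_pow_right (by omega) (by omega)))
  refine ⟨_, ?_, hne, ?_⟩
  · have hD : 1 * (w * L + δ + 1) ≤ Q * (w * L + δ + 1) := by gcongr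
    have hv : ∀ i, vl (Y (e + 120 * L + a) 0) i ∈ U ^ (q ^ e * Q) := fun i =>
      hν ▸ hht 0 _ (by omega) i 0 0
    have hm : ∀ o, mon (vl (Y (e + 120 * L + a) 0)) o ∈ U ^ (2 * (q ^ e * Q)) := fun o => by
      fin_cases o
      exacts [hU.one_mem _, hU.le (hv 0) (by omega), hU.le (hv 1) (by omega),
        hU.le (Ht.pow (hv 0) 2) (by omega), hU.le (Ht.mul (hv 0) (hv 1)) (by omega),
        hU.le (Ht.pow (hv 1) 2) (by omega)]
    refine sum_mem fun o _ => hU.le (Ht.mul (a := h * q ^ a + 1 * (w * L + δ + 1)) ?_ (hm o))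
      (by omega)
    rw [coe_aeval_eq_eval]
    exact (hR a o).eval hU (by rwa [pow_one])
  · set b := (q ^ 128) ^ L with hb'
    have hb2 : (q ^ 128) ^ (2 * L) = b * b := by rw [hb', ← pow_add, two_mul]
    have hb1 : 1 ≤ b := Nat.one_le_pow _ _ (by positivity)
    have c1 : A + g + 2 ≤ q ^ L :=
      ((Nat.le_add_left _ _).trans (Nat.le_mul_of_pos_right _ (by positivity))).trans hL2'
    have hbb : b ≤ b * b := Nat.le_mul_of_pos_right _ hb1
    have c2 : q ^ L * (b * b) ≤ q ^ (e + 120 * L + a + 139 * L) := by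
      rw [← hb2, ← pow_mul, ← pow_add]
      exact Nat.pow_le_pow_right (by omega) (by omega)
    have c3 : A * (b * b) + (g * (h * q ^ a + Q * (w * L + δ + 1)) + Q * (4 * (120 * L))) <
        q ^ (e + 120 * L + a + 139 * L) := by
      have d1 : g * (h * q ^ a + Q * (w * L + δ + 1)) ≤ g * (b * b) :=
        Nat.mul_le_mul_left _ (by omega)
      have d3 := Nat.mul_le_mul_right (b * b) c1
      rw [add_mul, add_mul] at d3
      omega
    rw [hb2]
    refine lt_of_mul_lt_mul_right ?_ (pow_nonneg (norm_nonneg θ)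
      (q ^ (e + 120 * L + a + 139 * L)))
    rw [mul_assoc, one_mul]
    refine (mul_le_mul_of_nonneg_left key (by positivity)).trans_lt ?_
    rw [← pow_add ‖θ‖, ← pow_add ‖θ‖]
    exact pow_lt_pow_right₀ hθ c3

end Pool.Agent.CSU.Q2
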