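import Pool.Agent.Lib.MP_0370b2_nt.S2.St
import Pool.Agent.Lib.MP_bf776f_nt.SU.ZE0

/-! A stable subspace is spanned by its fixed vectors. -/

namespace Pool.Agent.CSU.Q2

open Polynomial Finset

theorem fix : FixS := by
  intro k F ι _ _ _ _ _ σ N hσ hN v hv
  classical
  induction hm : ∑ i, (v i).support.card using Nat.strong_induction_on generalizing v with
  | _ m ih =>
  by_cases h0 : v = 0
  · rw [h0]; exact zero_mem _
  have hs : ∀ (c : F) (w : ι → F[X]), (∀ i, (w i).support ⊆ (v i).support) →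
      ∀ i, ((c • w) i).support ⊆ (v i).support := fun c w hw i =>
    (support_smul c (w i)).trans (hw i)
  have hd : ∀ w w' : ι → F[X], (∀ i, (w i).support ⊆ (v i).support) →
      (∀ i, (w' i).support ⊆ (v i).support) → ∀ i, ((w - w') i).support ⊆ (v i).support :=
    fun w w' hw hw' i n hn => by
      by_contra hc
      refine mem_support_iff.1 hn ?_
      rw [Pi.sub_apply, coeff_sub, notMem_support_iff.1 fun h => hc (hw i h),
        notMem_support_iff.1 fun h => hc (hw' i h), sub_zero]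
  obtain ⟨β, hβ, hb, hsub⟩ := artin (k := k) hσ
    (fun w => w ∈ N ∧ ∀ i, (w i).support ⊆ (v i).support)
    (fun c w hw => ⟨N.smul_mem c hw.1, hs c w hw.2⟩)
    (fun w w' hw hw' => ⟨N.sub_mem hw.1 hw'.1, hd w w' hw.2 hw'.2⟩)
    (fun w hw => ⟨hN w hw.1, fun i => (support_map_subset σ (w i)).trans (hw.2 i)⟩)
    ⟨v, ⟨hv, fun i => subset_rfl⟩, h0⟩
  obtain ⟨o, ho⟩ := Function.ne_iff.1 hβ
  have hn : (up F β o).coeff (β o).natDegree ≠ 0 := by
    rw [up, coeff_map]
    exact (_root_.map_ne_zero _).2 (leadingCoeff_ne_zero.2 ho)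
  set c := (v o).coeff (β o).natDegree / (up F β o).coeff (β o).natDegree with hc
  have h1 := hd v (c • up F β) (fun i => subset_rfl) (hs c _ hsub)
  have h2 := ih _ (hm ▸ sum_lt_sum (fun i _ => card_le_card (h1 i)) ⟨o, mem_univ _,
    card_lt_card ⟨h1 o, fun h => mem_support_iff.1 (h (hsub o (mem_support_iff.2 hn))) (by
      rw [Pi.sub_apply, coeff_sub, Pi.smul_apply, coeff_smul, smul_eq_mul, hc,
        div_mul_cancel₀ _ hn, sub_self])⟩⟩) (v - c • up F β)
    (N.sub_mem hv (N.smul_mem c hb)) rfl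
  rw [← sub_add_cancel v (c • up F β)]
  exact add_mem h2 (Submodule.smul_mem _ c (Submodule.subset_span ⟨hb, β, rfl⟩))

end Pool.Agent.CSU.Q2
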