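import Pool.Agent.Lib.MP_0370b2_nt.S2.St
import Pool.Agent.Lib.MP_bf776f_nt.SU.Der

/-! Two points of the Carlitz exponential: Newton's method on the surface. -/

namespace Pool.Agent.CSU.Q2

open Polynomial Finset

namespace Hen

variable {k : Type} [Field k]

lemma aeval_mem {A ι : Type} [CommRing A] [Algebra k A] (T : Subring A)
    (hT : ∀ c, algebraMap k A c ∈ T) (x : ι → A) (hx : ∀ i, x i ∈ T) (P : MvPolynomial ι k) :
    MvPolynomial.aeval x P ∈ T := by
  induction P using MvPolynomial.induction_on with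
  | C c => simpa using hT c
  | add P Q hP hQ => rw [map_add]; exact add_mem hP hQ
  | mul_X P j hP => rw [map_mul, MvPolynomial.aeval_X]; exact mul_mem hP (hx j)

/-- The Taylor formula of first order. -/
lemma tay {A : Type} [CommRing A] [Algebra k A] (x w : Fin 3 → A) (z : A)
    (P : MvPolynomial (Fin 3) k) :
    ∃ r, MvPolynomial.aeval (fun i => x i + z * w i) P = MvPolynomial.aeval x P +
      z * ∑ i, MvPolynomial.aeval x (MvPolynomial.pderiv i P) * w i + z ^ 2 * r := by
  induction P using MvPolynomial.induction_on with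
  | C c => exact ⟨0, by simp⟩
  | add P Q hP hQ =>
    obtain ⟨r, hr⟩ := hP
    obtain ⟨s, hs⟩ := hQ
    refine ⟨r + s, ?_⟩
    simp only [map_add, hr, hs, add_mul, sum_add_distrib]
    ring
  | mul_X P j hP =>
    obtain ⟨r, hr⟩ := hP
    refine ⟨r * (x j + z * w j) +
      (∑ i, MvPolynomial.aeval x (MvPolynomial.pderiv i P) * w i) * w j, ?_⟩
    have h1 : ∑ i, MvPolynomial.aeval x (MvPolynomial.pderiv i (P * MvPolynomial.X j)) * w i =
        (∑ i, MvPolynomial.aeval x (MvPolynomial.pderiv i P) * w i) * x j +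
          MvPolynomial.aeval x P * w j := by
      fin_cases j <;>
        simp [MvPolynomial.pderiv_X, Fin.sum_univ_three, Pi.single_apply] <;> ring
    rw [h1, map_mul, map_mul, MvPolynomial.aeval_X, MvPolynomial.aeval_X, hr]
    ring

variable {F : Type} [Field F] [Algebra k F]

lemma aeval_C (v : Fin 3 → F) (P : MvPolynomial (Fin 3) k) :
    MvPolynomial.aeval (fun i => (C (v i) : F[X])) P = C (MvPolynomial.aeval v P) := by
  induction P using MvPolynomial.induction_on with
  | C c => simp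
  | add P Q hP hQ => simp [hP, hQ]
  | mul_X P j hP => simp [hP]

/-- The expansion at the origin. -/
lemma tay0 (Z : Fin 3 → F[X]) (P : MvPolynomial (Fin 3) k) :
    ∃ r, MvPolynomial.aeval Z P = C (MvPolynomial.aeval (fun i => (Z i).coeff 0) P) +
      X * ∑ i, C (MvPolynomial.aeval (fun i => (Z i).coeff 0) (MvPolynomial.pderiv i P)) *
        divX (Z i) + X ^ 2 * r := by
  obtain ⟨r, hr⟩ := tay (fun i => (C ((Z i).coeff 0) : F[X])) (fun i => divX (Z i)) X P
  have h1 : (fun i => (C ((Z i).coeff 0) : F[X]) + X * divX (Z i)) = Z := funext fun i => by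
    rw [add_comm]; exact X_mul_divX_add (Z i)
  rw [h1] at hr
  simp only [aeval_C] at hr
  exact ⟨r, hr⟩

/-- Newton's method. -/
lemma newton (B : Subring F[X]) (hB : ∀ c, algebraMap k F[X] c ∈ B) (Z : Fin 3 → F[X]) (i : Fin 3)
    (P : MvPolynomial (Fin 3) k) (hZ : ∀ j, j ≠ i → Z j ∈ B) (h0 : C ((Z i).coeff 0) ∈ B)
    (hP : X ^ 4 ∣ MvPolynomial.aeval Z P)
    (hp : MvPolynomial.aeval (fun j => (Z j).coeff 0) (MvPolynomial.pderiv i P) ≠ 0)
    (hp' : C (MvPolynomial.aeval (fun j => (Z j).coeff 0) (MvPolynomial.pderiv i P))⁻¹ ∈ B)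
    (n : ℕ) (hn : n ≤ 3) : ∃ b ∈ B, X ^ (n + 1) ∣ Z i - b := by
  induction n with
  | zero => exact ⟨_, h0, by simp [X_dvd_iff]⟩
  | succ n ih =>
    obtain ⟨b, hb, w, hw⟩ := ih (by omega)
    obtain ⟨g, hg⟩ := (pow_dvd_pow X (by omega : n + 1 + 1 ≤ 4)).trans hP
    have hx : ∀ j, Function.update Z i b j ∈ B := fun j => by
      by_cases h : j = i
      · subst h; simpa using hb
      · simpa [h] using hZ j h
    obtain ⟨r, hr⟩ := tay (Function.update Z i b) (Pi.single i w) (X ^ (n + 1)) P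
    have h1 : (fun j => Function.update Z i b j + X ^ (n + 1) * (Pi.single i w : Fin 3 → F[X]) j)
        = Z := funext fun j => by
      by_cases h : j = i
      · subst h; simp [← hw]
      · simp [h]
    have h2 : ∑ j, MvPolynomial.aeval (Function.update Z i b) (MvPolynomial.pderiv j P) *
        (Pi.single i w : Fin 3 → F[X]) j =
        MvPolynomial.aeval (Function.update Z i b) (MvPolynomial.pderiv i P) * w := by
      rw [sum_eq_single i (fun j _ h => by simp [h]) (by simp)]
      simp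
    have h3 : (fun j => (Function.update Z i b j).coeff 0) = fun j => (Z j).coeff 0 :=
      funext fun j => by
        by_cases h : j = i
        · subst h
          have := congrArg (fun f : F[X] => f.coeff 0) hw
          simp only [coeff_sub, pow_succ', mul_assoc, mul_coeff_zero, coeff_X_zero, zero_mul] at this
          simp [(sub_eq_zero.1 this).symm]
        · simp [h]
    obtain ⟨s, hs⟩ := tay0 (Function.update Z i b) (MvPolynomial.pderiv i P)
    rw [h3] at hs
    rw [h1, h2, hg, hs] at hr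
    set p := MvPolynomial.aeval (fun j => (Z j).coeff 0) (MvPolynomial.pderiv i P)
    set f := MvPolynomial.aeval (Function.update Z i b) P with hf
    set u := ∑ j, C (MvPolynomial.aeval (fun j => (Z j).coeff 0)
      (MvPolynomial.pderiv j (MvPolynomial.pderiv i P))) * divX (Function.update Z i b j)
    have h4 : (C p⁻¹ : F[X]) * C p = 1 := by rw [← C_mul, inv_mul_cancel₀ hp, C_1]
    refine ⟨b - C p⁻¹ * f, sub_mem hb (mul_mem hp' (aeval_mem B hB _ hx P)),
      C p⁻¹ * (g - (u + X * s) * w - X ^ n * r), ?_⟩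
    linear_combination hw - C p⁻¹ * hr - X ^ (n + 1) * w * h4

/-- The polynomials in `τ` and `ξ` over `S`. -/
noncomputable def Ph (S : Subring F) (ξ : F[X]) : S[X][X] →+* F[X] :=
  (evalRingHom ξ).comp (mapRingHom (mapRingHom S.subtype))

/-- Their values. -/
noncomputable def Bs (S : Subring F) (ξ : F[X]) : Subring F[X] :=
  RingHom.range (R := S[X][X]) (Ph S ξ)

lemma C_mem (S : Subring F) (ξ : F[X]) (a : F) (ha : a ∈ S) : C a ∈ Bs S ξ :=
  ⟨C (C ⟨a, ha⟩), by simp [Ph]⟩

lemma core (S : Subring F) (hk : ∀ c, algebraMap k F c ∈ S) (hi : ∀ a ∈ S, a⁻¹ ∈ S) (θ : F)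
    (Z : Fin 3 → F[X]) (hZ : Z 0 = X + C θ) (hS : ∀ l, (Z l).coeff 0 ∈ S) (i j : Fin 3)
    (hij : ∀ l, l ≠ i → l = 0 ∨ l = j) (P : MvPolynomial (Fin 3) k)
    (hP : X ^ 4 ∣ MvPolynomial.aeval Z P)
    (hp : MvPolynomial.aeval (fun j => (Z j).coeff 0) (MvPolynomial.pderiv i P) ≠ 0) :
    ∃ ξ : F[X], X ∣ ξ ∧ ∀ l, ∃ b ∈ Bs S ξ, X ^ 4 ∣ Z l - b := by
  refine ⟨Z j - C ((Z j).coeff 0), by simp [X_dvd_iff], fun l => ?_⟩
  set ξ := Z j - C ((Z j).coeff 0) with hξ
  have h1 : ∀ l, l ≠ i → Z l ∈ Bs S ξ := by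
    intro l hl
    rcases hij l hl with rfl | rfl
    · have h2 : θ ∈ S := by simpa [hZ] using hS 0
      rw [hZ]
      exact add_mem ⟨C X, by simp [Ph]⟩ (C_mem S ξ θ h2)
    · have h2 : Z l = ξ + C ((Z l).coeff 0) := by rw [hξ]; ring
      rw [h2]
      exact add_mem ⟨X, by simp [Ph]⟩ (C_mem S ξ _ (hS l))
  by_cases hl : l = i
  · subst hl
    exact newton (k := k) _ (fun c => C_mem S ξ _ (hk c)) Z l P h1 (C_mem S ξ _ (hS l)) hP hp
      (C_mem S ξ _ (hi _ (aeval_mem S hk _ hS _))) 3 le_rfl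
  · exact ⟨Z l, h1 l hl, by simp⟩

end Hen

open Hen in
theorem hen : HenS := by
  intro k F _ _ _ _ θ y J hJ hP
  set Z : Fin 3 → F[X] := ![X + C θ, J 0, J 1] with hZ
  have hv : (fun l => (Z l).coeff 0) = ![θ, (J 0).coeff 0, (J 1).coeff 0] := by
    funext l
    fin_cases l <;> simp [hZ]
  set S := (Subalgebra.algebraicClosure (Algebra.adjoin k (Set.range ![θ, y])) F).toSubring
  have hS : ∀ l, IsAlgebraic (Algebra.adjoin k (Set.range ![θ, y])) ((Z l).coeff 0) := by
    intro l
    rw [congrFun hv l]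
    fin_cases l
    · exact isAlgebraic_algebraMap
        (⟨θ, Algebra.subset_adjoin ⟨0, rfl⟩⟩ : Algebra.adjoin k (Set.range ![θ, y]))
    · exact hJ 0
    · exact hJ 1
  have hk : ∀ c, algebraMap k F c ∈ S := fun c =>
    isAlgebraic_algebraMap (algebraMap k (Algebra.adjoin k (Set.range ![θ, y])) c)
  have hi : ∀ a ∈ S, a⁻¹ ∈ S := fun a ha => IsAlgebraic.inv ha
  obtain ⟨P, h0, i, h1⟩ := Dr.minrel (k := k) (fun l => (Z l).coeff 0)
    (Dr.dep3 (Set.range ![θ, y]) (by
      rw [Matrix.range_cons, Matrix.range_cons, Matrix.range_empty, Set.union_empty,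
        Set.singleton_union]
      exact (Set.encard_insert_le _ _).trans (by rw [Set.encard_singleton]; norm_num)) _ hS)
  have h2 : X ^ 4 ∣ MvPolynomial.aeval Z P := hP P (hv ▸ h0)
  have h3 : ∃ ξ : F[X], X ∣ ξ ∧ ∀ l, ∃ b ∈ Bs S ξ, X ^ 4 ∣ Z l - b := by
    by_cases h4 : MvPolynomial.aeval (fun l => (Z l).coeff 0) (MvPolynomial.pderiv 2 P) = 0
    · by_cases h5 : MvPolynomial.aeval (fun l => (Z l).coeff 0) (MvPolynomial.pderiv 1 P) = 0
      · exfalso
        obtain ⟨r, hr⟩ := tay0 Z P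
        rw [Fin.sum_univ_three, h0, h4, h5] at hr
        have h6 := X_pow_dvd_iff.1 h2 1 (by norm_num)
        have h7 : divX (Z 0) = 1 := by
          have := divX_X_pow (R := F) (n := 1)
          simpa [hZ, divX_add] using this
        rw [hr, h7] at h6
        have h8 : MvPolynomial.aeval (fun l => (Z l).coeff 0) (MvPolynomial.pderiv 0 P) = 0 := by
          generalize MvPolynomial.aeval (fun l => (Z l).coeff 0) (MvPolynomial.pderiv 0 P) = a at h6
          simpa [coeff_X_pow_mul'] using h6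
        apply h1
        fin_cases i
        exacts [h8, h5, h4]
      · exact core S hk hi θ Z rfl hS 1 2 (by decide) P h2 h5
    · exact core S hk hi θ Z rfl hS 2 1 (by decide) P h2 h4
  obtain ⟨ξ, h4, h5⟩ := h3
  choose b hb h5 using h5
  choose g hg using hb
  refine ⟨fun i => (g i.succ).map (mapRingHom S.subtype), ξ, h4, fun i a b => ?_, fun i => ?_⟩
  · simp only [coeff_map, coe_mapRingHom]
    exact (((g i.succ).coeff b).coeff a).2
  · have h6 : ((g i.succ).map (mapRingHom S.subtype)).eval ξ = b i.succ := hg i.succ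
    have h7 : Z i.succ = J i := by fin_cases i <;> rfl
    rw [h6, ← h7]
    exact dvd_sub_comm.1 (h5 i.succ)

end Pool.Agent.CSU.Q2
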