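import Pool.Agent.Lib.MP_0370b2_nt.S2.St
import Pool.Agent.Lib.MP_bf776f_nt.SU.Int

/-! Ultrametric Hermite interpolation with multiplicities. -/

namespace Pool.Agent.CSU.Q2

open Polynomial Finset

variable {F : Type} [NormedField F] [IsUltrametricDist F]

/-- A polynomial of degree less than the total multiplicity of the nodes whose Taylor
coefficients at the nodes are small is small at `y`. -/
theorem hermM (c : ℕ → F) (s : Finset ℕ) (y : F) {ε r : ℝ} (hε : 0 ≤ ε) (hr : 1 ≤ r)
    (hc : ∀ i ∈ s, ∀ j ∈ s, i ≠ j → 1 ≤ ‖c i - c j‖) (hy : ∀ i ∈ s, ‖y - c i‖ ≤ r) (n : ℕ) :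
    ∀ (m : ℕ → ℕ) (G : F[X]), ∑ i ∈ s, m i = n → G.degree < n →
      (∀ i ∈ s, ∀ l < m i, ‖(taylor (c i) G).coeff l‖ ≤ ε) → ‖G.eval y‖ ≤ ε * r ^ n := by
  induction n with
  | zero =>
    intro m G _ hG _
    have : G = 0 := by simpa using hG
    simpa [this]
  | succ n ih =>
    intro m G hn hG h0
    obtain ⟨i, hi, hmi⟩ : ∃ i ∈ s, m i ≠ 0 :=
      exists_ne_zero_of_sum_ne_zero (by rw [hn]; exact n.succ_ne_zero)
    obtain ⟨H, hH⟩ : X - C (c i) ∣ G - C (G.eval (c i)) := X_sub_C_dvd_sub_C_eval
    have hG' : G = C (G.eval (c i)) + (X - C (c i)) * H := by linear_combination hH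
    have gi : ‖G.eval (c i)‖ ≤ ε := by
      simpa using h0 i hi 0 (Nat.pos_of_ne_zero hmi)
    have t0 : ∀ j, (taylor (c j) G).coeff 0 =
        G.eval (c i) + (c j - c i) * (taylor (c j) H).coeff 0 := fun j => by
      conv_lhs => rw [hG']
      simp
    have t1 : ∀ j l, (taylor (c j) G).coeff (l + 1) = (taylor (c j) H).coeff l +
        (c j - c i) * (taylor (c j) H).coeff (l + 1) := fun j l => by
      conv_lhs => rw [hG']
      rw [map_add, taylor_mul, taylor_C, map_sub, taylor_X, taylor_C, add_sub_assoc, ← C_sub,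
        add_mul, coeff_add, coeff_add, coeff_C_succ, coeff_X_mul, coeff_C_mul, zero_add]
    have dv : ∀ j ∈ s, j ≠ i → ∀ a : F, ‖(c j - c i) * a‖ ≤ ε → ‖a‖ ≤ ε := fun j hj hne a h =>
      le_trans (by rw [norm_mul]; exact le_mul_of_one_le_left (norm_nonneg _) (hc j hj i hi hne))
        h
    have hdeg : H.degree < n := by
      by_cases hH0 : H = 0
      · simp [hH0]
      have h2 : (G - C (G.eval (c i))).degree < (n + 1 : ℕ) :=
        (degree_sub_le _ _).trans_lt (max_lt hG (degree_C_le.trans_lt (by norm_cast; omega)))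
      rw [hH, degree_mul, degree_X_sub_C, degree_eq_natDegree hH0] at h2
      rw [degree_eq_natDegree hH0]
      norm_cast at h2 ⊢
      omega
    have hs : ∑ j ∈ s, Function.update m i (m i - 1) j = n := by
      rw [sum_update_of_mem hi]
      rw [← add_sum_erase s m hi, erase_eq] at hn
      omega
    have key := ih (Function.update m i (m i - 1)) H hs hdeg fun j hj l hl => by
      by_cases e : j = i
      · subst e
        rw [Function.update_self] at hl
        simpa [t1] using h0 j hj (l + 1) (by omega)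
      rw [Function.update_of_ne e] at hl
      induction l with
      | zero =>
        refine dv j hj e _ ?_
        rw [show (c j - c i) * (taylor (c j) H).coeff 0 =
          (taylor (c j) G).coeff 0 - G.eval (c i) by rw [t0]; ring]
        exact nsub_le (h0 j hj 0 hl) gi
      | succ l ihl =>
        refine dv j hj e _ ?_
        rw [show (c j - c i) * (taylor (c j) H).coeff (l + 1) =
          (taylor (c j) G).coeff (l + 1) - (taylor (c j) H).coeff l by rw [t1]; ring]
        exact nsub_le (h0 j hj _ hl) (ihl (by omega))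
    rw [hG', eval_add, eval_C, eval_mul, eval_sub, eval_X, eval_C]
    refine nadd_le (gi.trans (le_mul_of_one_le_right hε (one_le_pow₀ hr))) ?_
    rw [norm_mul, mul_comm, pow_succ, ← mul_assoc]
    exact mul_le_mul key (hy i hi) (norm_nonneg _) (by positivity)

theorem int4 : Int4S := fun _ _ _ c s G y _ _ hε hr hc hG h0 hy =>
  hermM c s y hε hr hc hy _ (fun _ => 4) G (by simp [mul_comm]) hG h0

end Pool.Agent.CSU.Q2
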