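import Pool.Agent.Lib.MP_0370b2_nt.S2.Bas

/-! The module of minimal slope. -/

namespace Pool.Agent.CSU.Q2

open Polynomial Finset Module

/-- Few coordinates detect the vanishing on a subspace. -/
lemma min_coords {F ι : Type} [Field F] [Fintype ι] (n : ℕ) :
    ∀ V : Submodule F (ι → F), finrank F V ≤ n →
      ∃ s : Finset ι, s.card ≤ n ∧ ∀ v ∈ V, (∀ p ∈ s, v p = 0) → v = 0 := by
  classical
  induction n with
  | zero =>
    intro V hV
    have e : V = ⊥ := Submodule.finrank_eq_zero.1 (Nat.le_zero.1 hV)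
    exact ⟨∅, le_rfl, fun v hv _ => by rwa [e, Submodule.mem_bot] at hv⟩
  | succ n ih =>
    intro V hV
    by_cases h : ∀ v ∈ V, v = 0
    · exact ⟨∅, Nat.zero_le _, fun v hv _ => h v hv⟩
    · push Not at h
      obtain ⟨w, hw, h0⟩ := h
      obtain ⟨p, hp⟩ := Function.ne_iff.1 h0
      have lt : V ⊓ LinearMap.ker (LinearMap.proj p : (ι → F) →ₗ[F] F) < V :=
        lt_of_le_of_ne inf_le_left fun e => hp (by
          rw [← e] at hw
          exact hw.2)
      obtain ⟨s, h1, h2⟩ := ih _ (Nat.lt_succ_iff.1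
        ((Submodule.finrank_lt_finrank_of_lt lt).trans_le hV))
      exact ⟨insert p s, (card_insert_le ..).trans (Nat.succ_le_succ h1), fun v hv k =>
        h2 v ⟨hv, k p (mem_insert_self ..)⟩ fun p' hp' => k p' (mem_insert_of_mem hp')⟩

/-- A spanning set contains a free family of maximal size. -/
lemma min_free {R M : Type} [CommRing R] [IsDomain R] [AddCommGroup M] [Module R M]
    (W : Set M) (hW : Submodule.span R W = ⊤) (n : ℕ) (hn : n ≤ finrank R M) :
    ∃ f : Fin n → M, (∀ i, f i ∈ W) ∧ LinearIndependent R f := by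
  induction n with
  | zero => exact ⟨Fin.elim0, fun i => i.elim0, linearIndependent_empty_type⟩
  | succ n ih =>
    obtain ⟨f, h1, h2⟩ := ih (by omega)
    obtain ⟨x, hx⟩ := exists_linearIndependent_cons_of_lt_finrank h2 hn
    by_contra hc
    have k : ∀ w ∈ Submodule.span R W, ∃ c : R, c ≠ 0 ∧ c • w ∈ Submodule.span R (Set.range f) := by
      intro w hw
      induction hw using Submodule.span_induction with
      | mem w hw =>
        by_contra h
        refine hc ⟨Fin.cons w f, Fin.cases hw h1, h2.finCons' w f fun c y hy e => ?_⟩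
        by_contra c0
        exact h ⟨c, c0, by rw [eq_neg_of_add_eq_zero_left e]; exact neg_mem hy⟩
      | zero => exact ⟨1, one_ne_zero, by simp⟩
      | add u v _ _ hu hv =>
        obtain ⟨a, a0, ha⟩ := hu
        obtain ⟨b, b0, hb⟩ := hv
        refine ⟨a * b, mul_ne_zero a0 b0, ?_⟩
        rw [smul_add]
        refine add_mem ?_ (by rw [mul_smul]; exact Submodule.smul_mem _ _ hb)
        rw [mul_comm, mul_smul]
        exact Submodule.smul_mem _ _ ha
      | smul a u _ hu =>
        obtain ⟨b, b0, hb⟩ := hu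
        exact ⟨b, b0, by rw [smul_comm]; exact Submodule.smul_mem _ _ hb⟩
    obtain ⟨c, c0, hc⟩ := k x (hW ▸ Submodule.mem_top)
    refine c0 (hx.eq_zero_of_smul_mem_span 0 c (Submodule.span_mono ?_ hc))
    rintro _ ⟨i, rfl⟩
    exact ⟨i.succ, ⟨trivial, Fin.succ_ne_zero i⟩, rfl⟩

theorem min (h1 : FixS) (h2 : SloS) : MinS := by
  intro k F _ _ _ _ _ θ σ x e Y hθ hσ hJ
  have top : Adm σ (⊤ : Submodule F[X] (Fin 6 → F[X])) :=
    ⟨trivial, fun _ _ => trivial, fun _ _ _ _ => trivial⟩
  have rk : ∀ N : Submodule F[X] (Fin 6 → F[X]), Adm σ N →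
      1 ≤ finrank F[X] N ∧ finrank F[X] N ≤ 6 := fun N hN =>
    ⟨Submodule.one_le_finrank_iff.2 fun e => by
      have := hN.one
      rw [e, Submodule.mem_bot] at this
      simpa using congrFun this 0, (Submodule.finrank_le N).trans (finrank_fin_fun _).le⟩
  obtain ⟨N, hN, hm⟩ := (InvImage.wf (fun N : Submodule F[X] (Fin 6 → F[X]) =>
    kap N θ (Y e 0) * (60 / finrank F[X] N)) wellFounded_lt).has_min {N | Adm σ N} ⟨⊤, top⟩
  have key : ∀ N', Adm σ N' →
      kap N θ (Y e 0) * finrank F[X] N' ≤ finrank F[X] N * kap N' θ (Y e 0) := fun N' hN' => by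
    have a : kap N θ (Y e 0) * (60 / finrank F[X] N) ≤ kap N' θ (Y e 0) * (60 / finrank F[X] N') :=
      not_lt.1 (hm N' hN')
    obtain ⟨a1, a2⟩ := rk N hN
    obtain ⟨b1, b2⟩ := rk N' hN'
    generalize finrank F[X] N = r at *
    generalize finrank F[X] N' = r' at *
    interval_cases r <;> interval_cases r' <;> omega
  obtain ⟨g, g1, g2⟩ := min_free (R := F[X]) {w : N | ∃ f : Fin 6 → k[X], (w : Fin 6 → F[X]) = up F f}
    (by
      refine top_unique fun v _ => ?_
      rw [← SetLike.mem_coe, ← (Submodule.injective_subtype N).mem_set_image, ← Submodule.map_coe,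
        Submodule.map_span]
      refine Submodule.span_le_restrictScalars F F[X] _ (Submodule.span_mono ?_
        (h1 k F (Fin 6) σ (N.restrictScalars F) hσ hN.tw v v.2))
      rintro w ⟨w1, w2⟩
      exact ⟨⟨w, w1⟩, w2, rfl⟩) _ le_rfl
  choose f hf using g1
  have fN : ∀ i, up F (f i) ∈ N := fun i => hf i ▸ (g i).2
  refine ⟨finrank F[X] N, kap N θ (Y e 0), f, ?_, (rk N hN).1, (rk N hN).2, ?_,
    fun m j hj => ?_, key⟩
  · rw [← funext hf]
    exact g2.map' N.subtype N.ker_subtype
  · have a := key ⊤ top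
    have b : kap (⊤ : Submodule F[X] (Fin 6 → F[X])) θ (Y e 0) ≤ 10 :=
      (Submodule.finrank_le _).trans (by rw [finrank_fintype_fun_eq_card, card_S4])
    rw [finrank_top, finrank_fin_fun] at a
    nlinarith
  · obtain ⟨s, s1, s2⟩ := min_coords _ _ (h2 k F θ σ x e Y N hθ hσ hJ hN m j hj).le
    exact ⟨s, s1, fun c hc => s2 _ (Submodule.mem_map_of_mem
      (N.sum_mem fun i _ => N.smul_mem _ (fN i))) hc⟩

end Pool.Agent.CSU.Q2
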