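import Pool.Agent.Lib.MP_0370b2_nt.S2.Bas

/-! The number of conditions depends neither on the level nor on the point. -/

namespace Pool.Agent.CSU.Q2

open Polynomial Finset Submodule

section Rank

variable {F O : Type} [Field F] [Fintype O]

lemma indep_sig (σ : F →+* F) {κ : Type} {v : κ → O → F} (hv : LinearIndependent F v) :
    LinearIndependent F fun i => σ ∘ v i :=
  (@linearIndependent_algebraMap_comp_iff κ O _ F F _ _ σ.toAlgebra
    ((@faithfulSMul_iff_algebraMap_injective F F _ _ σ.toAlgebra).2 σ.injective) _ v).2 hv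

lemma span_sig (σ : F →+* F) {S : Set (O → F)} {v : O → F} (hv : v ∈ span F S) :
    σ ∘ v ∈ span F ((fun w => σ ∘ w) '' S) := by
  induction hv using span_induction with
  | mem w hw => exact subset_span ⟨w, hw, rfl⟩
  | zero => rw [show σ ∘ (0 : O → F) = 0 from funext fun _ => map_zero σ]; exact zero_mem _
  | add a b _ _ ha hb =>
    exact (funext fun o => map_add σ _ _ : σ ∘ (a + b) = σ ∘ a + σ ∘ b) ▸ add_mem ha hb
  | smul c a _ ha =>
    exact (funext fun o => map_mul σ _ _ : σ ∘ (c • a) = σ c • σ ∘ a) ▸ smul_mem _ _ ha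

/-- A field endomorphism keeps the rank of a set of vectors. -/
lemma rank_sig (σ : F →+* F) (S : Set (O → F)) :
    Module.finrank F (span F ((fun w => σ ∘ w) '' S)) = Module.finrank F (span F S) := by
  obtain ⟨b, hb, hs, hi⟩ := exists_linearIndependent F S
  haveI : Fintype b := hi.setFinite.fintype
  have h1 := finrank_span_eq_card hi
  have h2 := finrank_span_eq_card (indep_sig σ hi)
  rw [Subtype.range_coe, hs] at h1
  rw [← Set.image_eq_range (fun w : O → F => σ ∘ w) b] at h2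
  rw [h1, ← h2, le_antisymm (span_le.2 ?_) (span_mono (Set.image_mono hb))]
  rintro _ ⟨w, hw, rfl⟩
  exact span_sig σ (hs ▸ subset_span hw)

end Rank

variable {F : Type} [Field F] {q : ℕ} {θ : F} {σ : F →+* F} {x : Fin 2 → F} {e : ℕ}
  {Y : ℕ → ℕ → Fin 2 → F[X][X]} {N : Submodule F[X] (Fin 6 → F[X])}

lemma kap_level (h : J2 q θ σ x e Y) (hN : Adm σ N) {m j : ℕ} (hj : j + e ≤ m)
    (hc : θ ^ q ^ j ≠ θ ^ q ^ m) :
    kap N (θ ^ q ^ j) (Y (m + 1) j) = kap N (θ ^ q ^ j) (Y m j) := by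
  have ht : aeval (C (X + C (θ ^ q ^ j)) : F[X][X]) (X - C (θ ^ q ^ m) : F[X]) =
      C (X + C (θ ^ q ^ j) - C (θ ^ q ^ m)) := by
    rw [aeval_tau, map_sub, taylor_X, taylor_C]
  have hx : ∀ a : F, aeval (C (X + C (θ ^ q ^ j)) : F[X][X]) (C a : F[X]) = C (C a) := fun a => by
    rw [aeval_tau, taylor_C]
  unfold kap
  rw [le_antisymm (a := (N.restrictScalars F).map (ps (θ ^ q ^ j) (Y (m + 1) j)))
    (b := (N.restrictScalars F).map (ps (θ ^ q ^ j) (Y m j))) ?_ ?_]
  · rintro _ ⟨R, hR, rfl⟩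
    refine ⟨_, hN.sb (X - C (θ ^ q ^ m)) (fun i => C (x i ^ q ^ m)) R hR, ps_eq_iff.2 ?_⟩
    rw [ev_sb, funext fun i => h.Yrec m j i hj]
    simp only [ht, hx, sub_self, zero_mem]
  · rintro _ ⟨R, hR, rfl⟩
    obtain ⟨l, g, hg⟩ := (isCoprime_X_sub_C_of_isUnit_sub
      (sub_ne_zero.2 hc.symm).isUnit).pow_right (n := 4)
    refine ⟨_, hN.sb l (fun i => -(l * C (x i ^ q ^ m))) R hR, ps_eq_iff.2 ?_⟩
    rw [ev_sb]
    refine ev_congr _ _ _ fun i => ?_
    have h1 := congrArg (aeval (C (X + C (θ ^ q ^ j)) : F[X][X])) hg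
    have h2 : aeval (C (X + C (θ ^ q ^ j)) : F[X][X]) ((X - C (θ ^ q ^ j)) ^ 4 : F[X]) ∈ I4 F := by
      rw [aeval_tau]
      exact C_mem_I4 (by simp)
    rw [map_add, map_mul, map_mul, map_one, ht] at h1
    rw [h.Yrec m j i hj, map_neg, map_mul, hx]
    convert Ideal.mul_mem_left _ (-(aeval (C (X + C (θ ^ q ^ j)) : F[X][X]) g * Y m j i)) h2 using 1
    linear_combination Y m j i * h1

lemma kap_span {k : Type} [Field k] [Fintype k] [Algebra k F] (hf : FixS)
    (hσ : ∀ y, σ y = y ^ Fintype.card k) (hN : Adm σ N) (c : F) (Z : Fin 2 → F[X][X]) :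
    (N.restrictScalars F).map (ps c Z) =
      span F (ps c Z '' {w | w ∈ N ∧ ∃ f : Fin 6 → k[X], w = up F f}) := by
  rw [← map_span]
  congr 1
  exact le_antisymm (hf k F (Fin 6) σ (N.restrictScalars F) hσ hN.tw) (span_le.2 fun w hw => hw.1)

lemma kap_point {k : Type} [Field k] [Fintype k] [Algebra k F] (hf : FixS)
    (hσ : ∀ y, σ y = y ^ Fintype.card k) (h : J2 (Fintype.card k) θ σ x e Y) (hN : Adm σ N)
    {m j : ℕ} (hj : j + e ≤ m) :
    kap N (θ ^ Fintype.card k ^ (j + 1)) (Y (m + 1) (j + 1)) =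
      kap N (θ ^ Fintype.card k ^ j) (Y m j) := by
  unfold kap
  rw [kap_span hf hσ hN, kap_span hf hσ hN, ← rank_sig σ (ps _ (Y m j) '' _), Set.image_image,
    Set.image_congr (g := fun w => σ ∘ ps (θ ^ Fintype.card k ^ j) (Y m j) w)]
  rintro _ ⟨_, f, rfl⟩
  funext p
  have h1 : twQ σ (up F f) = up F f := funext fun o => by
    ext n
    simp only [twQ, up, coeff_map, hσ, ← map_pow, FiniteField.pow_card]
  rw [Function.comp_apply, ← h.ps_tw hσ hj, h1]

theorem slo (hf : FixS) : SloS := by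
  intro k F _ _ _ _ _ θ σ x e Y N hθ hσ h hN
  have hc : ∀ j m, j < m → θ ^ Fintype.card k ^ j ≠ θ ^ Fintype.card k ^ m := fun j m hjm h0 => by
    have h1 := congrArg norm h0
    rw [norm_pow, norm_pow] at h1
    exact (pow_lt_pow_right₀ hθ (Nat.pow_lt_pow_right Fintype.one_lt_card hjm)).ne h1
  have h1 : ∀ j n, kap N (θ ^ Fintype.card k ^ j) (Y (j + e + n) j) =
      kap N (θ ^ Fintype.card k ^ j) (Y (j + e) j) := fun j n => by
    induction n with
    | zero => rfl
    | succ n ih =>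
      rw [← add_assoc, kap_level h hN (by omega) (hc _ _ (by have := h.e1; omega)), ih]
  have h2 : ∀ j, kap N (θ ^ Fintype.card k ^ j) (Y (j + e) j) = kap N θ (Y e 0) := fun j => by
    induction j with
    | zero => rw [pow_zero, pow_one, zero_add]
    | succ j ih => rw [add_right_comm, kap_point hf hσ h hN le_rfl, ih]
  intro m j hj
  obtain ⟨n, rfl⟩ := Nat.exists_eq_add_of_le hj
  rw [h1, h2]

end Pool.Agent.CSU.Q2
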