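import Pool.Agent.Lib.MP_0370b2_nt.S2.Bas
import Pool.Agent.Lib.MP_bf776f_nt.SU.Int

/-! The value is small. -/

namespace Pool.Agent.CSU.Q2

open Polynomial Finset

variable {F : Type} [NormedField F] [IsUltrametricDist F]

/-- The coefficients of order less than four are bounded by `r`. -/
def PB (r : ℝ) (f : F[X]) : Prop := ∀ l < 4, ‖f.coeff l‖ ≤ r

namespace PB

variable {r r' : ℝ} {f g : F[X]}

omit [IsUltrametricDist F] in
lemma mono (h : PB r f) (h' : r ≤ r') : PB r' f := fun l hl => (h l hl).trans h'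

omit [IsUltrametricDist F] in
lemma nn (h : PB r f) : 0 ≤ r := (norm_nonneg _).trans (h 0 (by omega))

lemma add (h : PB r f) (h' : PB r g) : PB r (f + g) := fun l hl => by
  rw [coeff_add]; exact nadd_le (h l hl) (h' l hl)

lemma sub (h : PB r f) (h' : PB r g) : PB r (f - g) := fun l hl => by
  rw [coeff_sub]; exact nsub_le (h l hl) (h' l hl)

lemma mul (h : PB r f) (h' : PB r' g) : PB (r * r') (f * g) := fun l hl => by
  rw [coeff_mul]
  refine IsUltrametricDist.norm_sum_le_of_forall_le_of_nonneg (mul_nonneg h.nn h'.nn) fun p hp => ?_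
  rw [HasAntidiagonal.mem_antidiagonal] at hp
  rw [norm_mul]
  exact mul_le_mul (h _ (by omega)) (h' _ (by omega)) (norm_nonneg _) h.nn

omit [IsUltrametricDist F] in
lemma const {a : F} (h : ‖a‖ ≤ r) : PB r (C a) := fun l _ => by
  rw [coeff_C]
  split_ifs
  exacts [h, by rw [norm_zero]; exact (norm_nonneg a).trans h]

omit [IsUltrametricDist F] in
lemma cmul {a : F} (ha : ‖a‖ ≤ 1) (h : PB r f) : PB r (C a * f) := fun l hl => by
  rw [coeff_C_mul, norm_mul]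
  exact (mul_le_of_le_one_left (norm_nonneg _) ha).trans (h l hl)

omit [IsUltrametricDist F] in
lemma var : PB 1 (X : F[X]) := fun l _ => by
  rw [coeff_X]
  split_ifs <;> simp

end PB

lemma trM_pb {q : ℕ} {θ : F} {x : Fin 2 → F} (hq : 2 ≤ q) (hθ : 1 < ‖θ‖) (hx : ∀ i, ‖x i‖ ≤ 1)
    {R : Fin 6 → F[X]} {ν j : ℕ} (hj : j < ν) {H : ℝ}
    (hH : ∀ o, PB H (taylor (θ ^ q ^ j) (R o))) (s : ℕ) :
    (PB ((∏ l ∈ range s, ‖θ‖ ^ q ^ (ν + l)) * H) (taylor (θ ^ q ^ j) (trM q θ x ν R s 1)) ∧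
      PB ((∏ l ∈ range s, ‖θ‖ ^ q ^ (ν + l)) * H) (taylor (θ ^ q ^ j) (trM q θ x ν R s 2))) ∧
      trM q θ x ν R s 3 = R 3 ∧ trM q θ x ν R s 4 = R 4 ∧ trM q θ x ν R s 5 = R 5 := by
  induction s with
  | zero => simpa [trM] using ⟨hH 1, hH 2⟩
  | succ s ih =>
    obtain ⟨⟨h1, h2⟩, h3, h4, h5⟩ := ih
    refine ⟨?_, h3, h4, h5⟩
    have a : 1 ≤ ‖θ‖ ^ q ^ (ν + s) := one_le_pow₀ hθ.le
    have b : PB (‖θ‖ ^ q ^ (ν + s)) (X + C (θ ^ q ^ j) - C (θ ^ q ^ (ν + s))) := by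
      rw [add_sub_assoc, ← C_sub]
      exact (PB.var.mono a).add (PB.const (by rw [norm_sub_rev, norm_c_sub hθ hq (by omega)]))
    have c : ∀ i o, PB (‖θ‖ ^ q ^ (ν + s) * ((∏ l ∈ range s, ‖θ‖ ^ q ^ (ν + l)) * H))
        (C (x i ^ q ^ (ν + s)) * taylor (θ ^ q ^ j) (R o)) := fun i o => by
      refine (PB.cmul (by rw [norm_pow]; exact pow_le_one₀ (norm_nonneg _) (hx i)) (hH o)).mono ?_
      rw [← mul_assoc]
      exact le_mul_of_one_le_left (hH 0).nn (one_le_mul_of_one_le_of_one_le a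
        (one_le_prod fun l _ => one_le_pow₀ hθ.le))
    rw [prod_range_succ, mul_comm (∏ _ ∈ _, _), mul_assoc]
    constructor
    · convert (b.mul h1).sub (((c 0 3).add (c 0 3)).add (c 1 4)) using 1
      simp [trM, trQ, h3, h4, -map_pow, two_mul, add_mul]
    · convert (b.mul h2).sub ((c 0 4).add ((c 1 5).add (c 1 5))) using 1
      simp [trM, trQ, h4, h5, -map_pow, two_mul, add_mul]

theorem small2 : Int4S → SmallS := by
  intro hI F _ _ q θ σ x e Y ξ R ν a P D s H hq hθ hJ hx hξ hn hD hs ha hν hH0 hz hH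
  have he := hJ.e1
  set B := ∏ l ∈ range s, ‖θ‖ ^ q ^ (ν + l) with hB
  have hB1 : 1 ≤ B := one_le_prod fun l _ => one_le_pow₀ hθ.le
  have hT : 1 ≤ ‖θ‖ ^ q ^ (ν + s) := one_le_pow₀ hθ.le
  set ε := B * H * (‖θ‖ ^ q ^ (ν + s))⁻¹ with hε
  have hε0 : 0 ≤ ε := by positivity
  set G := trM q θ x ν R s with hG
  have key : ∀ j ≤ a + P, PB ε (ev G (X + C (θ ^ q ^ j)) (fun i => (Y (ν + s) j i).eval (ξ j)) -
      taylor (θ ^ q ^ j) (G 0)) := by
    intro j hj
    obtain ⟨⟨h1, h2⟩, h3, h4, h5⟩ :=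
      trM_pb hq hθ hx (j := j) (ν := ν) (by omega) (fun o l _ => hH j hj o l) s
    have y1 : ∀ i, PB (‖θ‖ ^ q ^ (ν + s))⁻¹ ((Y (ν + s) j i).eval (ξ j)) := fun i l hl => by
      rw [← one_mul (_⁻¹), ← div_eq_mul_inv, le_div_iff₀ (by positivity)]
      exact hn _ j i l (by omega) hl
    have y2 : ∀ i i', PB (‖θ‖ ^ q ^ (ν + s))⁻¹
        ((Y (ν + s) j i).eval (ξ j) * (Y (ν + s) j i').eval (ξ j)) := fun i i' =>
      ((y1 i).mul (y1 i')).mono (mul_le_of_le_one_left (by positivity) (inv_le_one_of_one_le₀ hT))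
    have r : ∀ o, PB (B * H) (taylor (θ ^ q ^ j) (R o)) := fun o l _ =>
      (hH j hj o l).trans (le_mul_of_one_le_left hH0 hB1)
    convert ((((h1.mul (y1 0)).add (h2.mul (y1 1))).add ((r 3).mul (y2 0 0))).add
      ((r 4).mul (y2 0 1))).add ((r 5).mul (y2 1 1)) using 1
    rw [ev_eq, hG, h3, h4, h5]
    simp only [aeval_tau']
    ring
  have hr : 1 ≤ ‖θ‖ ^ q ^ (a + P) := one_le_pow₀ hθ.le
  have h0 := hI F (fun j => θ ^ q ^ j) (Ico a (a + P)) (G 0) θ ε _ hε0 hr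
    (fun i _ j _ hij => one_le_c_sub hθ hq hij)
    (by
      rw [Nat.card_Ico, Nat.add_sub_cancel_left]
      exact (trM_deg ν hD s 0).trans_le (by exact_mod_cast hs))
    (fun j hj l hl => by
      rw [mem_Ico] at hj
      have := key j hj.2.le l hl
      rwa [coeff_sub, X_pow_dvd_iff.1 (ps_dvd (hJ.ps_trM (by omega) (hz j hj.1 hj.2) s) (hξ j)) l hl,
        zero_sub, norm_neg] at this)
    (fun j hj => by
      rw [mem_Ico] at hj
      have := norm_c_sub hθ hq (show 0 < j by omega)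
      rw [pow_zero, pow_one] at this
      rw [norm_sub_rev, this]
      exact pow_le_pow_right₀ hθ.le (Nat.pow_le_pow_right (by omega) hj.2.le))
  rw [Nat.card_Ico, Nat.add_sub_cancel_left, ← pow_mul] at h0
  have h1 := key 0 (by omega) 0 (by omega)
  have h2 := ev_algHom (aeval (0 : F)) G (X + C (θ ^ q ^ 0)) fun i => (Y (ν + s) 0 i).eval (ξ 0)
  simp only [coe_aeval_eq_eval, ← coeff_zero_eq_eval_zero, vl_eval _ (hξ 0), coeff_add,
    coeff_X_zero, coeff_C_zero, zero_add] at h2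
  rw [coeff_sub, taylor_coeff_zero, h2, hG, hJ.val_trM (by omega), ← hG, pow_zero, pow_one] at h1
  have h3 : ‖∏ l ∈ range s, (θ - θ ^ q ^ (ν + l))‖ = B := by
    rw [norm_prod]
    refine prod_congr rfl fun l _ => ?_
    have := norm_c_sub hθ hq (show 0 < ν + l by omega)
    rwa [pow_zero, pow_one, norm_sub_rev] at this
  have h4 : 1 ≤ ‖θ‖ ^ (q ^ (a + P) * (4 * P)) := one_le_pow₀ hθ.le
  have h5 := nadd_le (h1.trans (le_mul_of_one_le_right hε0 h4)) h0
  rw [sub_add_cancel, norm_mul, norm_pow, h3, hε] at h5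
  rw [← le_div_iff₀ (by positivity)]
  refine le_of_mul_le_mul_left (((mul_le_mul_of_nonneg_right (le_self_pow₀ hB1 two_ne_zero)
    (norm_nonneg _)).trans h5).trans_eq ?_) (by positivity : 0 < B)
  ring

end Pool.Agent.CSU.Q2
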