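import Pool.Agent.Lib.MP_0370b2_nt.S2.An4
import Pool.Agent.Lib.MP_bf776f_nt.SU.B0
import Pool.Agent.Lib.MP_bf776f_nt.SU.An2

/-! The Taylor map of order four. -/

namespace Pool.Agent.CSU.Q2

open Polynomial Finset Filter Topology

lemma geo4 {F : Type} [Field F] {δ : F} (hδ : δ ≠ 0) {f : F[X]} (h : X ^ 4 ∣ f * (C δ - X) - 1)
    {l : ℕ} (hl : l < 4) : f.coeff l = (δ ^ (l + 1))⁻¹ := by
  rw [X_pow_dvd_iff] at h
  induction l with
  | zero =>
    have := h 0 hl
    simp only [mul_sub, coeff_sub, mul_coeff_zero, coeff_X_zero, coeff_one_zero,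
      coeff_C_zero] at this
    field_simp
    linear_combination this
  | succ l ih =>
    have := h _ hl
    simp only [mul_sub, coeff_sub, coeff_mul_C, coeff_mul_X, coeff_one, ih (by omega)] at this
    rw [if_neg l.succ_ne_zero, sub_zero, sub_eq_zero] at this
    rw [pow_succ, mul_inv, ← this, mul_inv_cancel_right₀ hδ]

theorem tay : TayS := by
  intro k F _ _ _ _ _ _ θ u hθ hal
  classical
  obtain ⟨p, hpk, f, hp, hq⟩ := FiniteField.card' k
  have := Fact.mk hp
  have : CharP F p := charP_of_injective_algebraMap (algebraMap k F).injective p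
  obtain ⟨e, E0, W0, D, hD, hE0⟩ := der (k := k) hθ (univ.image u) (by
    intro s hs
    obtain ⟨i, -, rfl⟩ := mem_image.1 hs
    exact hal i)
  set E := (W0.map (frobenius F p)).map (frobenius F p) with hE
  have hEc : IsClosed (E : Set F) := frob_closed p _ (frob_closed p _ hD.cl)
  have hEp : ∀ a ∈ W0, a ^ p ^ 2 ∈ E := fun a ha =>
    ⟨_, ⟨a, ha, rfl⟩, by simp only [frobenius_def, ← pow_mul, pow_two]⟩
  have hEq : ∀ a ∈ W0, ∀ n, a ^ Fintype.card k ^ (n + 2) ∈ E := fun a ha n => by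
    have h2 : 2 ≤ f * (n + 2) := le_trans (by omega) (Nat.le_mul_of_pos_left _ f.2)
    rw [hq, ← pow_mul, ← Nat.sub_add_cancel h2, pow_add, pow_mul]
    exact hEp _ (pow_mem ha _)
  have hθE : θ ^ p ∉ E := by
    rintro ⟨_, ⟨w, hw, rfl⟩, h⟩
    have h1 : θ = w ^ p := (frobenius_inj F p h).symm
    obtain ⟨n, hn⟩ := Nat.exists_eq_add_one_of_ne_zero hp.ne_zero
    have h2 := hD.dpow hw n
    rw [← hn, ← h1, hD.d1, CharP.cast_eq_zero F p, zero_mul, zero_mul] at h2
    exact one_ne_zero h2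
  obtain ⟨n, y, hμ⟩ := (minpoly.natSepDegree_eq_one_iff_eq_X_pow_sub_C (F := E) (x := θ) p).1
    ((minpoly.natSepDegree_eq_one_iff_pow_mem p).2 ⟨2, ⟨_, hEp θ hD.th⟩, rfl⟩)
  have hy : (y : F) = θ ^ p ^ n := by
    have := minpoly.aeval E θ
    rw [hμ, map_sub, aeval_X_pow, aeval_C, sub_eq_zero] at this
    exact this.symm
  have hn : 4 ≤ p ^ n := by
    rcases n with _ | _ | n
    · exact absurd (pow_mem (by simpa [hy] using y.2) p) hθE
    · exact absurd (by simpa [hy] using y.2) hθE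
    · exact (Nat.pow_le_pow_left hp.two_le 2).trans (Nat.pow_le_pow_right hp.pos (by omega))
  have hint : IsIntegral E θ :=
    ⟨_, monic_X_pow_sub_C y (by omega : p ^ n ≠ 0), hμ ▸ minpoly.aeval E θ⟩
  let W := IntermediateField.adjoin E {θ}
  let pb := IntermediateField.adjoin.powerBasis hint
  have : FiniteDimensional E W := IntermediateField.adjoin.finiteDimensional hint
  obtain ⟨T, hT⟩ := LinearMap.exists_extend (p := Subalgebra.toSubmodule W.toSubalgebra)
    (pb.basis.constr E fun i => (X + C θ : F[X]) ^ (i : ℕ))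
  have hpow : ∀ m < (minpoly E θ).natDegree, T (θ ^ m) = (X + C θ) ^ m := fun m h => by
    have := congrArg (· (pb.basis ⟨m, h⟩)) hT
    simp only [LinearMap.comp_apply] at this
    erw [Module.Basis.constr_basis] at this
    rw [← this, pb.basis_eq_pow]
    rfl
  have haev : ∀ g : E[X], X ^ 4 ∣ T (aeval θ g) - aeval (X + C θ : F[X]) g := fun g => by
    have hm := minpoly.monic hint
    have h1 := natDegree_modByMonic_lt g hm (minpoly.ne_one E θ)
    have h2 : aeval (X + C θ : F[X]) (minpoly E θ) = X ^ p ^ n := by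
      rw [hμ, map_sub, aeval_X_pow, aeval_C, add_pow_char_pow, ← C_pow, ← hy]
      exact add_sub_cancel_right _ _
    have h3 : T (aeval θ (g %ₘ minpoly E θ)) = aeval (X + C θ : F[X]) (g %ₘ minpoly E θ) := by
      rw [aeval_eq_sum_range' h1, aeval_eq_sum_range' h1, map_sum]
      exact sum_congr rfl fun i hi => by rw [map_smul, hpow i (mem_range.1 hi)]
    rw [← modByMonic_add_div g (minpoly E θ), map_add, map_add (aeval (X + C θ : F[X])), map_mul,
      map_mul, minpoly.aeval, zero_mul, add_zero, h3, h2, sub_add_cancel_left, dvd_neg]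
    exact (pow_dvd_pow _ hn).mul_right _
  have hWa : ∀ a ∈ W, ∃ g : E[X], a = aeval θ g := fun a ha => by
    obtain ⟨g, hg⟩ := pb.exists_eq_aeval' ⟨a, ha⟩
    exact ⟨g, (congrArg Subtype.val hg).trans (aeval_algHom_apply W.val pb.gen g).symm⟩
  have hθW : θ ∈ W := IntermediateField.mem_adjoin_simple_self E θ
  have hEW : ∀ a ∈ E, a ∈ W := fun a ha => W.algebraMap_mem ⟨a, ha⟩
  have hcl := fd_closed E hEc (hEp θ hD.th) (by
    rw [norm_pow]; exact one_lt_pow₀ hθ (pow_ne_zero _ hp.ne_zero))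
    (Subalgebra.toSubmodule W.toSubalgebra)
  have hinv : ∀ c ∈ E, c - θ ≠ 0 → ∀ l < 4, (T (c - θ)⁻¹).coeff l = ((c - θ) ^ (l + 1))⁻¹ := by
    intro c hc h0 l hl
    obtain ⟨g, hg⟩ := hWa _ (inv_mem (sub_mem (hEW c hc) hθW))
    refine geo4 h0 ?_ hl
    have h1 := haev (g * (C ⟨c, hc⟩ - X) - 1)
    simp only [map_sub, map_mul, aeval_C, aeval_X, map_one, ← hg] at h1
    rw [show (algebraMap E F ⟨c, hc⟩) = c from rfl, inv_mul_cancel₀ h0, sub_self, zero_sub, dvd_neg,
      show (algebraMap E F[X] ⟨c, hc⟩) = C c from rfl] at h1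
    convert ((haev g).mul_right (C (c - θ) - X)).add h1 using 1
    rw [← hg, C_sub]
    ring
  have hph : ∀ i, ∃ g : E[X], phi (Fintype.card k) θ (u i) (e + 2) 0 = aeval θ g ∧
      X ^ 4 ∣ Jt (Fintype.card k) θ (u i) (e + 2) 0 - aeval (X + C θ : F[X]) g := fun i => by
    have a1 : ∀ j, u i ^ Fintype.card k ^ (j + (e + 2)) /
        cD (Fintype.card k) θ j ^ Fintype.card k ^ (e + 2) ∈ E := fun j => by
      refine div_mem ?_ (hEq _ (Fr.cD_mem hD.th j) e)
      rw [show j + (e + 2) = e + (j + 2) by ring, pow_add, pow_mul]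
      exact hEq _ (hD.le (hE0 _ (mem_image_of_mem _ (mem_univ i)))) j
    have a2 := fun j => hEq θ hD.th (j + e)
    have h1 := ((fr k F).hasSum_phi hθ (u i) (e + 1).succ_pos).tendsto_sum_nat
    simp only [pow_zero, pow_one, ← div_div] at h1
    have hW := fun n => sum_mem (S := W) (t := range n) fun j _ =>
      div_mem (hEW _ (a1 j)) (sub_mem (hEW _ (a2 j)) hθW)
    have hm : phi (Fintype.card k) θ (u i) (e + 2) 0 ∈ W :=
      hcl.1.mem_of_tendsto h1 (Eventually.of_forall hW)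
    obtain ⟨g, hg⟩ := hWa _ hm
    refine ⟨g, hg, ?_⟩
    rw [← sub_add_sub_cancel _ (T (aeval θ g))]
    refine dvd_add (X_pow_dvd_iff.2 fun l hl => ?_) (haev g)
    rw [coeff_sub, sub_eq_zero, Jt_coeff_lt _ _ _ _ hl, ← hg]
    refine tendsto_nhds_unique ((hasSum_psi (fr k F) hθ (u i) l (e + 1).succ_pos).tendsto_sum_nat)
      (((hcl.2 ((lcoeff F l).restrictScalars E ∘ₗ T) _ hm).tendsto.comp
        (tendsto_nhdsWithin_iff.2 ⟨h1, Eventually.of_forall hW⟩)).congr fun n => ?_)
    simp only [Function.comp, map_sum, pow_zero, pow_one, ← div_div]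
    refine sum_congr rfl fun j _ => ?_
    have h0 := (fr k F).sub_ne hθ (show 0 < j + e + 2 by omega)
    rw [pow_zero, pow_one] at h0
    rw [div_eq_mul_inv _ (_ - θ), div_eq_mul_inv _ ((_ - θ) ^ _)]
    refine (map_smul _ (⟨_, a1 j⟩ : E) _).trans ?_
    exact congrArg (_ * ·) (hinv _ (a2 j) h0 l hl)
  refine ⟨e + 2, by omega, fun P hP => ?_⟩
  have key : ∃ g : E[X], MvPolynomial.aeval ![θ, phi (Fintype.card k) θ (u 0) (e + 2) 0,
      phi (Fintype.card k) θ (u 1) (e + 2) 0] P = aeval θ g ∧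
      X ^ 4 ∣ MvPolynomial.aeval ![X + C θ, Jt (Fintype.card k) θ (u 0) (e + 2) 0,
        Jt (Fintype.card k) θ (u 1) (e + 2) 0] P - aeval (X + C θ : F[X]) g := by
    clear hP
    induction P using MvPolynomial.induction_on with
    | C c =>
      have hc : algebraMap k F c ∈ E := by
        have := hEq _ (hD.le (hD.hk c)) 0
        rwa [Fr.fix_pow (fix_k c)] at this
      refine ⟨C ⟨_, hc⟩, by rw [MvPolynomial.aeval_C, aeval_C]; rfl, ?_⟩
      rw [MvPolynomial.aeval_C, aeval_C]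
      exact ⟨0, by rw [mul_zero]; exact sub_self _⟩
    | add P Q hP hQ =>
      obtain ⟨g, g1, g2⟩ := hP
      obtain ⟨h, h1, h2⟩ := hQ
      refine ⟨g + h, by rw [map_add, map_add, g1, h1], ?_⟩
      convert g2.add h2 using 1
      rw [map_add, map_add]; ring
    | mul_X P j hP =>
      obtain ⟨g, g1, g2⟩ := hP
      obtain ⟨h, h1, h2⟩ : ∃ h : E[X], ![θ, phi (Fintype.card k) θ (u 0) (e + 2) 0,
          phi (Fintype.card k) θ (u 1) (e + 2) 0] j = aeval θ h ∧
          X ^ 4 ∣ ![X + C θ, Jt (Fintype.card k) θ (u 0) (e + 2) 0,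
            Jt (Fintype.card k) θ (u 1) (e + 2) 0] j - aeval (X + C θ : F[X]) h := by
        fin_cases j
        exacts [⟨X, by simp, by simp⟩, hph 0, hph 1]
      refine ⟨g * h, by rw [map_mul, map_mul, MvPolynomial.aeval_X, g1, h1], ?_⟩
      rw [map_mul, map_mul, MvPolynomial.aeval_X]
      rw [← sub_add_sub_cancel _ (aeval (X + C θ : F[X]) g * _), ← sub_mul, ← mul_sub]
      exact (g2.mul_right _).add (h2.mul_left _)
  obtain ⟨g, g1, g2⟩ := key
  have := haev g
  rw [← g1, hP, map_zero] at this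
  simpa using g2.sub this

end Pool.Agent.CSU.Q2
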