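import Pool.Agent.Lib.MP_0370b2_nt.S2.ThmD

/-! Zeros of `G(z, e(z))` are algebraic over the completion of `k(θ)`. -/

namespace Pool.Agent.CSU.Q2

open Polynomial Finset Filter Topology IsUltrametricDist

section Dom

variable {K : Type} [NormedField K] [IsUltrametricDist K] {c A B : ℝ} {N M : ℕ} {p q : K[X]}

/-- All coefficients are bounded. -/
def Bd (A : ℝ) (p : K[X]) : Prop := ∀ n, ‖p.coeff n‖ ≤ A

/-- The coefficient of index `N` is the last dominant one. -/
structure Dom (c : ℝ) (N : ℕ) (A : ℝ) (p : K[X]) : Prop where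
  pos : 0 < A
  eq : ‖p.coeff N‖ = A
  le : Bd A p
  lt : ∀ n, N < n → ‖p.coeff n‖ ≤ c * A

lemma Bd.mul (hp : Bd A p) (hq : Bd B q) : Bd (A * B) (p * q) := fun n => by
  have hA := (norm_nonneg _).trans (hp 0)
  have hB := (norm_nonneg _).trans (hq 0)
  rw [coeff_mul]
  refine norm_sum_le_of_forall_le_of_nonneg (by positivity) fun x _ => ?_
  rw [norm_mul]
  exact mul_le_mul (hp _) (hq _) (norm_nonneg _) hA

lemma Bd.pow (hp : Bd A p) (j : ℕ) : Bd (A ^ j) (p ^ j) := by
  induction j with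
  | zero => intro n; rw [pow_zero, pow_zero, coeff_one]; split_ifs <;> simp
  | succ j ih => rw [pow_succ, pow_succ]; exact ih.mul hp

lemma nrm_eq {x y : K} (h : ‖x‖ < ‖y‖) : ‖y + x‖ = ‖y‖ := by
  rw [norm_add_eq_max_of_norm_ne_norm h.ne', max_eq_left h.le]

lemma Dom.add (hc : c < 1) (hp : Dom c N A p) (hq : Bd (c * A) q) : Dom c N A (p + q) := by
  have h1 : c * A < A := mul_lt_of_lt_one_left hp.pos hc
  refine ⟨hp.pos, ?_, fun n => ?_, fun n hn => ?_⟩ <;> rw [coeff_add]
  · rw [nrm_eq (by rw [hp.eq]; exact (hq _).trans_lt h1), hp.eq]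
  · exact (norm_add_le_max _ _).trans (max_le (hp.le n) ((hq n).trans h1.le))
  · exact (norm_add_le_max _ _).trans (max_le (hp.lt n hn) (hq n))

lemma Dom.mul (h0 : 0 ≤ c) (hc : c < 1) (hp : Dom c N A p) (hq : Dom c M B q) :
    Dom c (N + M) (A * B) (p * q) := by
  have hA := hp.pos
  have hB := hq.pos
  have key : ∀ i j, N < i ∨ M < j → ‖p.coeff i * q.coeff j‖ ≤ c * (A * B) := by
    rintro i j (h | h) <;> rw [norm_mul]
    · rw [← mul_assoc]
      exact mul_le_mul (hp.lt i h) (hq.le j) (norm_nonneg _) (by positivity)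
    · rw [mul_left_comm]
      exact mul_le_mul (hp.le i) (hq.lt j h) (norm_nonneg _) hA.le
  refine ⟨by positivity, ?_, hp.le.mul hq.le, fun n hn => ?_⟩ <;> rw [coeff_mul]
  · have e : ‖p.coeff N * q.coeff M‖ = A * B := by rw [norm_mul, hp.eq, hq.eq]
    rw [← add_sum_erase _ _ (a := (N, M)) (HasAntidiagonal.mem_antidiagonal.2 rfl), nrm_eq, e]
    rw [e]
    refine lt_of_le_of_lt (norm_sum_le_of_forall_le_of_nonneg (by positivity) fun x hx => ?_)
      (mul_lt_of_lt_one_left (by positivity) hc)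
    obtain ⟨h1, h2⟩ := mem_erase.1 hx
    rw [HasAntidiagonal.mem_antidiagonal] at h2
    refine key _ _ ?_
    by_contra h
    exact h1 (Prod.ext (by simp only; omega) (by simp only; omega))
  · refine norm_sum_le_of_forall_le_of_nonneg (by positivity) fun x hx => key _ _ ?_
    rw [HasAntidiagonal.mem_antidiagonal] at hx
    omega

lemma Dom.pow (h0 : 0 ≤ c) (hc : c < 1) (hp : Dom c N A p) (j : ℕ) :
    Dom c (j * N) (A ^ j) (p ^ j) := by
  induction j with
  | zero =>
    refine ⟨by simp, by simp, hp.le.pow 0, fun n hn => ?_⟩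
    rw [pow_zero, coeff_one, if_neg (by omega), norm_zero]
    positivity
  | succ j ih => rw [pow_succ, pow_succ, add_mul, one_mul]; exact ih.mul h0 hc hp

end Dom

variable {F : Type} [NormedField F] [IsUltrametricDist F]

/-- A common approximate zero of dominant polynomials is algebraic. -/
lemma wei0 [CompleteSpace F] (W : Subfield F) (hW : IsClosed (W : Set F)) {t : F} (ht : t ∈ W)
    (h1 : 1 < ‖t‖) {v : F} (hv : ‖v‖ ≤ 1) {c A : ℝ} {N : ℕ} (h0 : 0 < c) (hc : c < 1)
    (h : ∀ ε > 0, ∃ f : W[X], Dom c N A f ∧ ‖aeval v f‖ ≤ ε) : IsAlgebraic W v := by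
  classical
  let M : Submodule W F := Submodule.span W (Set.range fun i : Fin N => v ^ (i : ℕ))
  have : FiniteDimensional W M := FiniteDimensional.span_of_finite _ (Set.finite_range _)
  have hvj : ∀ j, ‖v ^ j‖ ≤ 1 := fun j => by rw [norm_pow]; exact pow_le_one₀ (norm_nonneg _) hv
  have key : ∀ n j : ℕ, ∃ m ∈ M, ‖v ^ j - m‖ ≤ c ^ n := by
    intro n
    induction n with
    | zero => exact fun j => ⟨0, zero_mem _, by simpa using hvj j⟩
    | succ n ih =>
      obtain ⟨f1, hf1, -⟩ := h 1 one_pos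
      have hA := hf1.pos
      obtain ⟨f, hf, hfv⟩ := h (c ^ (n + 1) * A) (by positivity)
      intro j
      induction j using Nat.strong_induction_on with
      | _ j ih2 =>
      by_cases hj : j < N
      · exact ⟨_, Submodule.subset_span ⟨⟨j, hj⟩, rfl⟩, by simp; positivity⟩
      obtain ⟨i, rfl⟩ := Nat.exists_eq_add_of_le (not_lt.1 hj)
      have h2 : ∀ l : ℕ, ∃ m ∈ M, l ≠ N → ‖f.coeff l‖ * ‖v ^ (l + i) - m‖ ≤ c ^ (n + 1) * A := by
        intro l
        rcases lt_trichotomy l N with hl | hl | hl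
        · obtain ⟨m, hm, e⟩ := ih2 (l + i) (by omega)
          exact ⟨m, hm, fun _ => by
            rw [mul_comm]; exact mul_le_mul e (hf.le l) (norm_nonneg _) (by positivity)⟩
        · exact ⟨0, zero_mem _, fun e => absurd hl e⟩
        · obtain ⟨m, hm, e⟩ := ih (l + i)
          exact ⟨m, hm, fun _ => (mul_le_mul (hf.lt l hl) e (norm_nonneg _)
            (by positivity)).trans_eq (by ring)⟩
      choose m hm hm2 using h2
      have hN : f.coeff N ≠ 0 := fun e => by
        have := hf.eq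
        rw [e, norm_zero] at this
        exact hA.ne this
      have hN' : (f.coeff N : F) ≠ 0 := fun e => hN (Subtype.ext e)
      refine ⟨-((f.coeff N)⁻¹ • ∑ l ∈ f.support.erase N, f.coeff l • m l),
        neg_mem (M.smul_mem _ (sum_mem fun l _ => M.smul_mem _ (hm l))), ?_⟩
      have e : (f.coeff N : F) * (v ^ (N + i) -
          -((f.coeff N)⁻¹ • ∑ l ∈ f.support.erase N, f.coeff l • m l)) = aeval v f * v ^ i -
          ∑ l ∈ f.support.erase N, (f.coeff l : F) * (v ^ (l + i) - m l) := by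
        rw [aeval_def, eval₂_eq_sum, Polynomial.sum, ← add_sum_erase _ _ (mem_support_iff.2 hN)]
        simp only [mul_sub, sum_sub_distrib, add_mul, sum_mul, pow_add, mul_assoc]
        simp only [Subfield.smul_def, smul_eq_mul, Subfield.coe_inv, mul_neg,
          mul_inv_cancel_left₀ hN']
        have : ∀ a : W, algebraMap W F a = a := fun _ => rfl
        simp only [this]
        ring
      refine le_of_mul_le_mul_left ?_ hA
      have e2 : ‖(f.coeff N : F)‖ = A := hf.eq
      rw [← e2, ← norm_mul, e, e2, mul_comm A, sub_eq_add_neg]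
      refine (norm_add_le_max _ _).trans (max_le ?_ ?_)
      · rw [norm_mul]
        exact (mul_le_of_le_one_right (norm_nonneg _) (hvj i)).trans hfv
      · rw [norm_neg]
        refine norm_sum_le_of_forall_le_of_nonneg (by positivity) fun l hl => ?_
        rw [norm_mul]
        exact hm2 l (mem_erase.1 hl).1
  have hm : v ^ N ∈ M := by
    refine (fd_closed W hW ht h1 M).1.closure_subset (Metric.mem_closure_iff.2 fun ε hε => ?_)
    obtain ⟨n, hn⟩ := exists_pow_lt_of_lt_one hε hc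
    obtain ⟨m, hm, e⟩ := key n N
    exact ⟨m, hm, by rw [dist_eq_norm]; exact e.trans_lt hn⟩
  obtain ⟨a, ha⟩ := (Submodule.mem_span_range_iff_exists_fun _).1 hm
  refine ⟨X ^ N - ∑ i : Fin N, C (a i) * X ^ (i : ℕ),
    (monic_X_pow_sub (degree_sum_fin_lt a)).ne_zero, ?_⟩
  simp only [map_sub, map_sum, map_mul, aeval_C, aeval_X_pow, ← ha, Algebra.smul_def, sub_self]

variable {k : Type} [Field k] [Fintype k] [Algebra k F] [CompleteSpace F]

/-- A zero of `G(z, e(z))` is algebraic. -/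
lemma wei1 {θ u : F} (hθ : 1 < ‖θ‖) (W : Subfield F) (hW : IsClosed (W : Set F)) (ht : θ ∈ W)
    (d : ℕ) (g : ℕ → W[X]) (hg : g d ≠ 0)
    (h : ∑ j ∈ range (d + 1), aeval u (g j) * cE (Fintype.card k) θ u ^ j = 0) :
    IsAlgebraic W u := by
  classical
  set q := Fintype.card k with hq
  have hq2 : 2 ≤ q := Fintype.one_lt_card
  have hθ0 : 0 < ‖θ‖ := by linarith
  have h0 : θ ≠ 0 := norm_pos_iff.1 hθ0
  set τ : W := ⟨θ, ht⟩ with hτ
  have nτ : ‖τ‖ = ‖θ‖ := rfl
  set a := ‖(g d).leadingCoeff‖ with ha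
  have a0 : 0 < a := norm_pos_iff.2 (leadingCoeff_ne_zero.2 hg)
  obtain ⟨C0, hC⟩ : ∃ C0 : ℝ, ∀ j ∈ range (d + 1), Bd C0 (g j) :=
    ⟨∑ j ∈ range (d + 1), ∑ n ∈ (g j).support, ‖(g j).coeff n‖, fun j hj n => by
      refine le_trans ?_ (single_le_sum (f := fun j => ∑ n ∈ (g j).support, ‖(g j).coeff n‖)
        (fun _ _ => by positivity) hj)
      by_cases hn : n ∈ (g j).support
      · exact single_le_sum (f := fun n => ‖(g j).coeff n‖) (fun _ _ => norm_nonneg _) hn
      · rw [notMem_support_iff.1 hn, norm_zero]; positivity⟩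
  obtain ⟨δ, hδ⟩ : ∃ δ : ℕ, ∀ j ∈ range (d + 1), (g j).natDegree ≤ δ :=
    ⟨_, fun j hj => le_sup (f := fun j => (g j).natDegree) hj⟩
  obtain ⟨n0, hn0⟩ := pow_unbounded_of_one_lt (max ‖u‖ (C0 / a)) hθ
  obtain ⟨T, hT1, hT2⟩ : ∃ T : ℕ, n0 ≤ T + 1 ∧ (T + 1) * (δ + 1) + 1 ≤ q ^ T := by
    refine ⟨2 * (δ + n0 + 1), by omega, le_trans ?_ (Nat.pow_le_pow_left hq2 _)⟩
    have := Nat.lt_two_pow_self (n := δ + n0)
    rw [mul_comm 2, pow_mul, pow_succ 2 (δ + n0)]
    nlinarith
  have hR := hn0.le.trans (pow_le_pow_right₀ hθ.le hT1)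
  have hu : ‖u‖ ≤ ‖θ‖ ^ (T + 1) := (le_max_left _ _).trans hR
  have hCa : C0 ≤ ‖θ‖ ^ (T + 1) * a := (div_le_iff₀ a0).1 ((le_max_right _ _).trans hR)
  set v := u / θ ^ (T + 1) with hv
  have huv : θ ^ (T + 1) * v = u := mul_div_cancel₀ _ (pow_ne_zero _ h0)
  have hv1 : ‖v‖ ≤ 1 := by rw [hv, norm_div, norm_pow, div_le_one (by positivity)]; exact hu
  have c0 : 0 < ‖θ‖⁻¹ := by positivity
  have c1 : ‖θ‖⁻¹ < 1 := inv_lt_one_of_one_lt₀ hθ
  let G : ℕ → W[X] := fun j => (g j).comp (C (τ ^ (T + 1)) * X)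
  have hG : ∀ j n, ‖(G j).coeff n‖ = ‖(g j).coeff n‖ * ‖θ‖ ^ ((T + 1) * n) := fun j n => by
    rw [comp_C_mul_X_coeff, norm_mul, norm_pow, norm_pow, nτ, ← pow_mul]
  have dG : Dom ‖θ‖⁻¹ (g d).natDegree (a * ‖θ‖ ^ ((T + 1) * (g d).natDegree)) (G d) := by
    have lt : ∀ n, (g d).natDegree < n → ‖(G d).coeff n‖ = 0 := fun n hn => by
      rw [hG, coeff_eq_zero_of_natDegree_lt hn, norm_zero, zero_mul]
    refine ⟨by positivity, hG _ _, fun n => ?_, fun n hn => by rw [lt n hn]; positivity⟩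
    rcases lt_trichotomy n (g d).natDegree with hn | rfl | hn
    · rw [hG]
      refine (mul_le_mul_of_nonneg_right ((hC d (by simp) n).trans hCa) (by positivity)).trans ?_
      rw [mul_comm _ a, mul_assoc, ← pow_add]
      exact mul_le_mul_of_nonneg_left (pow_le_pow_right₀ hθ.le (by nlinarith)) a0.le
    · exact (hG _ _).le
    · rw [lt n hn]; positivity
  have bG : ∀ j ∈ range (d + 1), Bd (a * ‖θ‖ ^ ((T + 1) * (δ + 1))) (G j) := fun j hj n => by
    rw [hG]
    by_cases hn : (g j).natDegree < n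
    · rw [coeff_eq_zero_of_natDegree_lt hn, norm_zero, zero_mul]; positivity
    refine (mul_le_mul_of_nonneg_right ((hC j hj n).trans hCa) (by positivity)).trans ?_
    have := hδ j hj
    rw [mul_comm _ a, mul_assoc, ← pow_add]
    exact mul_le_mul_of_nonneg_left (pow_le_pow_right₀ hθ.le (by nlinarith)) a0.le
  let s : ℕ → W := fun i => τ ^ ((T + 1) * q ^ i) / ⟨cD q θ i, Fr.cD_mem ht i⟩
  have hs : ∀ i, ‖s i‖ * ‖θ‖ ^ (i * q ^ i) = ‖θ‖ ^ ((T + 1) * q ^ i) := fun i => by
    rw [norm_div, norm_pow, nτ, show ‖(⟨cD q θ i, Fr.cD_mem ht i⟩ : W)‖ = _ from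
      (fr k F).norm_cD hθ i, div_mul_cancel₀ _ (by positivity)]
  have hs1 : ∀ i, T < i → ‖s i‖ ≤ ‖θ‖⁻¹ * ‖θ‖ ^ q ^ T := fun i hi => by
    have e : ‖s i‖ ≤ 1 := le_of_mul_le_mul_right (by
      rw [hs, one_mul]
      exact pow_le_pow_right₀ hθ.le (Nat.mul_le_mul_right _ hi)) (pow_pos hθ0 (i * q ^ i))
    refine e.trans ?_
    rw [← div_eq_inv_mul, le_div_iff₀ hθ0, one_mul]
    exact le_self_pow₀ hθ.le (by positivity)
  have hs2 : ∀ i, ‖s i‖ ≤ ‖θ‖ ^ q ^ T := fun i => by
    rcases lt_or_ge T i with hi | hi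
    · exact (hs1 i hi).trans (mul_le_of_le_one_left (by positivity) c1.le)
    refine le_of_mul_le_mul_right ?_ (pow_pos hθ0 (i * q ^ i))
    rw [hs, ← pow_add]
    refine pow_le_pow_right₀ hθ.le ?_
    obtain ⟨l, rfl⟩ := Nat.exists_eq_add_of_le hi
    have : l < q ^ l := Nat.lt_pow_self hq2
    rw [pow_add]
    nlinarith [Nat.zero_le (q ^ i)]
  have hs3 : ‖s T‖ = ‖θ‖ ^ q ^ T := mul_right_cancel₀ (pow_pos hθ0 (T * q ^ T)).ne' (by
    rw [hs, ← pow_add]; congr 1; ring)
  let S : ℕ → W[X] := fun m => ∑ i ∈ range m, monomial (q ^ i) (s i)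
  have dS : ∀ m, T < m → Dom ‖θ‖⁻¹ (q ^ T) (‖θ‖ ^ q ^ T) (S m) := fun m hm => by
    refine ⟨by positivity, ?_, fun n => ?_, fun n hn => ?_⟩ <;>
      simp only [S, finsetSum_coeff, coeff_monomial]
    · rw [sum_eq_single T (fun i _ hi => if_neg fun e => hi (Nat.pow_right_injective hq2 e))
        (fun e => absurd (mem_range.2 hm) e), if_pos rfl, hs3]
    · refine norm_sum_le_of_forall_le_of_nonneg (by positivity) fun i _ => ?_
      split_ifs
      exacts [hs2 i, by rw [norm_zero]; positivity]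
    · refine norm_sum_le_of_forall_le_of_nonneg (by positivity) fun i _ => ?_
      split_ifs with e
      exacts [hs1 i ((Nat.pow_lt_pow_iff_right hq2).1 (e ▸ hn)), by rw [norm_zero]; positivity]
  have df : ∀ m, T < m → Dom ‖θ‖⁻¹ _ _ (∑ j ∈ range (d + 1), G j * S m ^ j) := fun m hm => by
    rw [sum_range_succ, add_comm]
    refine (dG.mul c0.le c1 ((dS m hm).pow c0.le c1 d)).add c1 fun n => ?_
    rw [finsetSum_coeff]
    refine norm_sum_le_of_forall_le_of_nonneg (by positivity) fun j hj => ?_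
    have hj := mem_range.1 hj
    refine ((bG j (mem_range.2 (by omega))).mul ((dS m hm).le.pow j) n).trans ?_
    rw [← div_eq_inv_mul, le_div_iff₀ hθ0, mul_assoc, mul_assoc, mul_assoc, ← pow_mul, ← pow_mul,
      ← pow_succ, ← pow_add, ← pow_add]
    exact mul_le_mul_of_nonneg_left (pow_le_pow_right₀ hθ.le (by
      nlinarith [Nat.mul_le_mul_left (q ^ T) hj, Nat.zero_le ((T + 1) * (g d).natDegree)])) a0.le
  have lim : Tendsto (fun m => ‖aeval v (∑ j ∈ range (d + 1), G j * S m ^ j)‖) atTop (𝓝 0) := by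
    have e : ∀ m, aeval v (∑ j ∈ range (d + 1), G j * S m ^ j) = ∑ j ∈ range (d + 1),
        aeval u (g j) * (∑ i ∈ range m, u ^ q ^ i / cD q θ i) ^ j := fun m => by
      simp only [G, S, s, map_sum, map_mul, map_pow, aeval_comp, aeval_C, aeval_X, aeval_monomial,
        map_div₀]
      have e1 : algebraMap W F τ = θ := rfl
      rw [e1, huv]
      refine sum_congr rfl fun j _ => ?_
      congr 2
      refine sum_congr rfl fun i _ => ?_
      rw [← huv, mul_pow, ← pow_mul, div_mul_eq_mul_div]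
      rfl
    simp only [e]
    rw [← norm_zero (E := F), ← h]
    exact (tendsto_finsetSum _ fun j _ =>
      (((fr k F).hasSum_cE hθ u).tendsto_sum_nat.pow j).const_mul _).norm
  have hv := wei0 W hW ht hθ hv1 c0 c1 fun ε hε => by
    obtain ⟨m, h1, h2⟩ := ((eventually_gt_atTop T).and (lim.eventually_le_const hε)).exists
    exact ⟨_, df m h1, h2⟩
  rw [← huv]
  exact ((isAlgebraic_algebraMap τ).pow _).mul hv

/-- If `u` and `e(u)` lie in transcendence degree one over `k(θ)`, then `u` is algebraic over the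
completion of `k(θ)`. -/
theorem wei : WeiS := by
  intro k F _ _ _ _ _ _ θ y u hθ h1 h2
  classical
  have hm : ∀ z ∈ Set.range (algebraMap k F) ∪ {θ}, z ∈ Kinf k θ := fun z hz =>
    Subfield.le_topologicalClosure _ (Subfield.subset_closure hz)
  have ht := hm θ (Or.inr rfl)
  have hr : Set.range ![θ, y] = insert y {θ} := by
    rw [Matrix.range_cons, Matrix.range_cons_empty, Set.union_comm]; rfl
  by_cases hu : IsAlgebraic (Algebra.adjoin k {θ}) u
  · have h3 : (Algebra.adjoin k {θ}).toSubring ≤ (Kinf k θ).toSubring := by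
      rw [Algebra.adjoin_eq_ring_closure, Subring.closure_le]
      exact hm
    exact hu.ringHom_of_comp_eq (Subring.inclusion h3) (RingHom.id F)
      (Subring.inclusion_injective h3) rfl
  have cl : ∀ (s : Set F) z, z ∈ (AlgebraicIndependent.matroid k F).closure s ↔
      IsAlgebraic (Algebra.adjoin k s) z := fun s z => by
    rw [AlgebraicIndependent.matroid_closure_eq]; rfl
  rw [Al, hr, ← cl] at h1 h2
  have h3 := Matroid.mem_closure_insert (mt (cl _ _).1 hu) h1
  have h4 := Matroid.closure_subset_closure_of_subset_closure (X := insert y {θ})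
    (Set.insert_subset h3 ((Set.subset_insert u _).trans (Matroid.subset_closure _ _))) h2
  obtain ⟨p, hp, hpe⟩ := (cl _ _).1 h4
  have h5 : ∀ z ∈ Algebra.adjoin k (insert u {θ}), ∃ g : (Kinf k θ)[X], aeval u g = z := by
    intro z hz
    induction hz using Algebra.adjoin_induction with
    | mem x hx =>
      rcases hx with rfl | rfl
      exacts [⟨X, aeval_X _⟩, ⟨C ⟨_, ht⟩, aeval_C _ _⟩]
    | algebraMap c => exact ⟨C ⟨_, hm _ (Or.inl ⟨c, rfl⟩)⟩, aeval_C _ _⟩
    | add _ _ _ _ a b =>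
      obtain ⟨a, rfl⟩ := a
      obtain ⟨b, rfl⟩ := b
      exact ⟨a + b, map_add _ _ _⟩
    | mul _ _ _ _ a b =>
      obtain ⟨a, rfl⟩ := a
      obtain ⟨b, rfl⟩ := b
      exact ⟨a * b, map_mul _ _ _⟩
  choose g hg using fun j => h5 _ (p.coeff j).2
  refine wei1 (k := k) hθ _ (Subfield.isClosed_topologicalClosure _) ht p.natDegree g
    (fun e => leadingCoeff_ne_zero.2 hp (Subtype.ext ?_)) ?_
  · rw [leadingCoeff, ← hg, e, map_zero]; rfl
  · rw [aeval_eq_sum_range] at hpe
    simp only [hg]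
    exact hpe

end Pool.Agent.CSU.Q2
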