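import Pool.Agent.Lib.MP_0370b2_nt.S2.Bas
import Pool.Agent.Lib.MP_bf776f_nt.SU.ZE0

/-! The zero estimate for quadratic rows. -/

namespace Pool.Agent.CSU.Q2

open Polynomial Finset

/-- The value of a row as a linear form. -/
noncomputable def evL {F : Type} [Field F] (c : F) (y : Fin 2 → F) : (Fin 6 → F[X]) →ₗ[F] F where
  toFun R := ev R c y
  map_add' R R' := ev_add R R' c y
  map_smul' a R := by simp [ev, mul_sum, mul_assoc]

theorem ze2 : SloS → ClsS → CntS → CrtS → ZE2S := by
  intro hS hC hN hR k F _ _ _ _ _ θ σ x e Y a b hθ hσ hJ hNT hmin P d μ R hP hR0 hd hc hz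
  classical
  have hq : 2 ≤ Fintype.card k := Fintype.one_lt_card
  obtain ⟨ρ, hρd⟩ : ∃ ρ : ℕ → Fin 6 → F[X], ∀ i, ρ i = trM (Fintype.card k) θ x (e + P + (μ + i))
    ((twQ σ)^[μ + i] R) (6 - i) := ⟨_, fun _ => rfl⟩
  have hρ : ∀ i < 6, twQ σ (ρ i) = trL (θ ^ Fintype.card k ^ (e + P + μ + 6))
      (fun i => x i ^ Fintype.card k ^ (e + P + μ + 6)) (ρ (i + 1)) := fun i hi => by
    rw [hρd, hρd, twQ_trM hσ, show 6 - i = 6 - (i + 1) + 1 by omega, trM, ← add_assoc μ,
      Function.iterate_succ_apply', ← add_assoc _ (μ + i),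
      show e + P + (μ + i) + 1 + (6 - (i + 1)) = e + P + μ + 6 by omega]
    rfl
  have h0 : ρ 0 ≠ 0 := by rw [hρd]; exact trM_ne (twQN_ne hR0 _) _
  have h6 : ¬ LinearIndependent F[X] fun a : Fin (6 + 1) => ρ a := fun h => by
    simpa using h.fintype_card_le_finrank
  have hex : ∃ r, ¬ LinearIndependent F[X] fun a : Fin (r + 1) => ρ a := ⟨6, h6⟩
  have hrn : Nat.find hex ≤ 6 := Nat.find_min' hex h6
  have hdp := Nat.find_spec hex
  have hm := fun m => Nat.find_min hex (m := m)
  generalize Nat.find hex = r at hrn hdp hm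
  have hr : 0 < r := Nat.pos_of_ne_zero fun h => hdp (by
    subst h
    exact (linearIndependent_unique_iff (R := F[X]) (ι := Fin 1)).2 h0)
  have hi : LinearIndependent F[X] fun a : Fin r => ρ a := by
    obtain ⟨r, rfl⟩ : ∃ r', r = r' + 1 := ⟨r - 1, by omega⟩
    exact not_not.1 (hm r (by omega))
  obtain ⟨g, hg, s, hs⟩ := dep (fun a : Fin (r + 1) => ρ a) (Fin.last r) (by simpa using hi) hdp
  have hs : g • ρ r = ∑ i, s i • ρ i := by simpa using hs
  set S := Submodule.span F[X] (Set.range fun a : Fin r => ρ a) with hSd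
  have hmem : ∀ a < r, ρ a ∈ S := fun a ha => Submodule.subset_span ⟨⟨a, ha⟩, rfl⟩
  have key : ∀ y ∈ S, ∃ y' ∈ S, g • twQ σ y = trL (θ ^ Fintype.card k ^ (e + P + μ + 6))
      (fun i => x i ^ Fintype.card k ^ (e + P + μ + 6)) y' := by
    intro y hy
    induction hy using Submodule.span_induction with
    | mem y hy =>
      obtain ⟨a, rfl⟩ := hy
      refine ⟨g • ρ (a + 1), ?_, by rw [map_smul, hρ a (by omega)]⟩
      rcases (Nat.succ_le_of_lt a.2).lt_or_eq with h | h
      · exact S.smul_mem _ (hmem _ h)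
      · rw [show (a : ℕ) + 1 = r from h, hs]
        exact sum_mem fun i _ => S.smul_mem _ (hmem _ i.2)
    | zero =>
      refine ⟨0, zero_mem _, ?_⟩
      rw [map_zero]
      funext o; simp [twQ]
    | add y z _ _ h1 h2 =>
      obtain ⟨y', a1, a2⟩ := h1
      obtain ⟨z', b1, b2⟩ := h2
      refine ⟨y' + z', add_mem a1 b1, ?_⟩
      rw [map_add, ← a2, ← b2, ← smul_add]
      congr 1; funext o; simp [twQ]
    | smul c y _ h1 =>
      obtain ⟨y', a1, a2⟩ := h1
      exact ⟨c.map σ • y', S.smul_mem _ a1, by rw [map_smul, ← a2, smul_comm, twQ_smul]⟩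
  let N : Submodule F[X] (Fin 6 → F[X]) :=
    { carrier := {v | ∃ a : F[X], a ≠ 0 ∧ a • v ∈ S}
      add_mem' := fun ⟨a, ha, h⟩ ⟨a', ha', h'⟩ => ⟨a * a', mul_ne_zero ha ha', by
        rw [smul_add]
        refine add_mem ?_ ?_
        · rw [mul_comm, mul_smul]; exact S.smul_mem _ h
        · rw [mul_smul]; exact S.smul_mem _ h'⟩
      zero_mem' := ⟨1, one_ne_zero, by simp⟩
      smul_mem' := fun c _ ⟨a, ha, h⟩ => ⟨a, ha, by rw [smul_comm]; exact S.smul_mem _ h⟩ }
  have hSN : ∀ v ∈ S, v ∈ N := fun v hv => ⟨1, one_ne_zero, by rwa [one_smul]⟩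
  have hA : Adm σ N := hC k F θ σ x (e + P + μ + 6) N hσ hNT
    ((Submodule.ne_bot_iff _).2 ⟨_, hSN _ (hmem 0 hr), h0⟩)
    (by
      rintro a v ha ⟨a', ha', h⟩
      exact ⟨a' * a, mul_ne_zero ha' ha, by rwa [mul_smul]⟩)
    (by
      rintro v ⟨a, ha, h⟩
      obtain ⟨y, h1, h2⟩ := key _ h
      exact ⟨g * a.map σ, mul_ne_zero hg (Polynomial.map_ne_zero ha), y, hSN _ h1, by
        rw [mul_smul, ← twQ_smul]; exact h2⟩)
  have hrk : r ≤ Module.finrank F[X] N := by
    have : LinearIndependent F[X] fun a : Fin r => (⟨ρ a, hSN _ (hmem _ a.2)⟩ : N) :=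
      .of_comp N.subtype hi
    simpa using this.fintype_card_le_finrank
  let pt : Fin (μ - 6) ⊕ Fin (P - 6) → ℕ := Sum.elim (fun j => 6 + j) fun j => μ + 6 + j
  let ψ : Fin (μ - 6) ⊕ Fin (P - 6) → (Fin 6 → F[X]) →ₗ[F] (S4 → F) := Sum.elim
    (fun j => LinearMap.pi fun _ =>
      evL (θ ^ Fintype.card k ^ (6 + j : ℕ)) (vl (Y (e + P + μ + 6) (6 + j))))
    fun j => ps (θ ^ Fintype.card k ^ (μ + 6 + j : ℕ)) (Y (e + P + μ + 6) (μ + 6 + j))
  have c1 := hR F (Fin 6) _ (S4 → F) N (fun j => θ ^ Fintype.card k ^ pt j) ψ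
    (fun i j h => by
      by_contra hne
      have := one_le_c_sub hθ hq (a := pt i) (b := pt j) fun h' => hne (by
        rcases i with i | i <;> rcases j with j | j <;>
          simp only [pt, Sum.elim_inl, Sum.elim_inr] at h'
        · exact congrArg _ (Fin.ext (by omega))
        · omega
        · omega
        · exact congrArg _ (Fin.ext (by omega)))
      rw [show θ ^ _ ^ pt i = _ from h, sub_self, norm_zero] at this
      linarith)
    (by
      rintro (j | j) v
      · funext p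
        show ev _ _ _ = 0
        simp [ev_smul, pt]
      · exact ps_pow _ _ _)
  have c2 := hN F (Fin 6) _ N r (d + 12) (fun a => ρ a) (LinearMap.pi ψ) hi
    (fun i => hSN _ (hmem _ i.2)) (fun v hv => hv)
    (fun i o => by
      rw [hρd]
      refine (trM_deg _ (D := d) (fun o => by rw [twQN_deg]; exact hd o) _ o).trans_le ?_
      exact_mod_cast (by omega : d + 2 * (6 - i) ≤ d + 12))
    (fun g i => funext (by
      have hi := i.2
      rintro (j | j)
      · have hj := j.2
        funext p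
        show ev _ _ _ = 0
        have a1 := hJ.val_twN hσ (m := e + P + (μ + i - (6 + j))) (j := 0)
          (R := (twQ σ)^[μ + i - (6 + j)] R) (by omega)
          (by rw [pow_zero, pow_one]; exact hz _ (by omega) (by omega)) (6 + j)
        rw [← Function.iterate_add_apply, zero_add, show (6 + j + (μ + i - (6 + j)) : ℕ) = μ + i by omega,
          show e + P + (μ + i - (6 + j)) + (6 + j) = e + P + (μ + i) by omega] at a1
        have a2 := hJ.val_trM (m := e + P + (μ + i)) (j := 6 + j) (by omega)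
          ((twQ σ)^[μ + i] R) (6 - i)
        rw [a1, mul_zero, show e + P + (μ + i) + (6 - i) = e + P + μ + 6 by omega, ← hρd] at a2
        rw [ev_smul, a2, mul_zero]
      · have hj := j.2
        have a1 := hJ.ps_twN hσ (m := e + P) (j := 6 + j - i) (by omega) (hc _ (by omega)) (μ + i)
        rw [show (6 + j - i + (μ + i) : ℕ) = μ + 6 + j by omega] at a1
        have a2 := hJ.ps_trM (by omega) a1 (6 - i)
        rw [show e + P + (μ + i) + (6 - i) = e + P + μ + 6 by omega, ← hρd] at a2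
        exact ps_smul a2 g))
  have c3 := c1.trans c2
  rw [Fintype.sum_sum_type] at c3
  have c4 : μ - 6 ≤ ∑ j : Fin (μ - 6),
      Module.finrank F ((N.restrictScalars F).map (ψ (Sum.inl j))) := by
    refine le_trans (by simp) (sum_le_sum (f := fun _ => 1) fun j _ => ?_)
    refine Nat.pos_of_ne_zero fun h => ?_
    have := (Submodule.eq_bot_iff _).1 (Submodule.finrank_eq_zero.1 h) _
      (Submodule.mem_map_of_mem (show _ ∈ N.restrictScalars F from hA.one))
    exact one_ne_zero ((ev_one _ _).symm.trans (congrFun this ⟨(0, 0), by decide⟩))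
  have c5 : ∑ j : Fin (P - 6), Module.finrank F ((N.restrictScalars F).map (ψ (Sum.inr j))) =
      (P - 6) * kap N θ (Y e 0) := by
    refine (sum_congr rfl fun (j : Fin (P - 6)) _ => hS k F θ σ x e Y N hθ hσ hJ hA
      (e + P + μ + 6) (μ + 6 + j) (by have := j.2; omega)).trans (by simp)
  have c6 := Nat.mul_le_mul_right (P - 6) ((Nat.mul_le_mul_left a hrk).trans (hmin N hA))
  have c7 := Nat.mul_le_mul_left b (show μ + (P - 6) * kap N θ (Y e 0) ≤ r * (d + 12) + 6 by omega)
  refine ⟨r, hrn, ?_⟩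
  calc _ ≤ b * μ + b * kap N θ (Y e 0) * (P - 6) := by omega
    _ = b * (μ + (P - 6) * kap N θ (Y e 0)) := by ring
    _ ≤ _ := c7
    _ = _ := by ring

end Pool.Agent.CSU.Q2
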