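import Pool.Agent.Lib.MP_0370b2_nt.S2.St

/-! Quadratic rows: values, transport, twist, conditions. -/

namespace Pool.Agent.CSU.Q2

open Polynomial Finset

variable {F : Type} [Field F]

/-- The fourth power of the ideal `(τ, ξ)`. -/
def I4 (F : Type) [Field F] : Ideal F[X][X] where
  carrier := {f | ∀ a b, a + b < 4 → (f.coeff b).coeff a = 0}
  add_mem' hf hg a b h := by simp [hf a b h, hg a b h]
  zero_mem' a b _ := by simp
  smul_mem' g f hf a b h := by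
    rw [smul_eq_mul, coeff_mul, finsetSum_coeff]
    refine sum_eq_zero fun p hp => ?_
    rw [coeff_mul]
    refine sum_eq_zero fun r hr => ?_
    rw [HasAntidiagonal.mem_antidiagonal] at hp hr
    rw [hf r.2 p.2 (by omega), mul_zero]

lemma mem_I4 {f : F[X][X]} : f ∈ I4 F ↔ ∀ a b, a + b < 4 → (f.coeff b).coeff a = 0 := Iff.rfl

lemma C_mem_I4 {g : F[X]} (h : X ^ 4 ∣ g) : C g ∈ I4 F := fun a b hab => by
  rw [coeff_C]
  split_ifs
  · exact X_pow_dvd_iff.1 h a (by omega)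
  · rfl

lemma I4_eval {f : F[X][X]} (hf : f ∈ I4 F) {ξ : F[X]} (hξ : X ∣ ξ) : X ^ 4 ∣ f.eval ξ := by
  rw [eval_eq_sum_range]
  refine dvd_sum fun b _ => ?_
  have h1 : X ^ (4 - b) ∣ f.coeff b := X_pow_dvd_iff.2 fun a ha => hf a b (by omega)
  refine (pow_dvd_pow _ (show 4 ≤ 4 - b + b by omega)).trans ?_
  rw [pow_add]
  exact mul_dvd_mul h1 (pow_dvd_pow_of_dvd hξ b)

lemma I4_map (σ : F →+* F) {f : F[X][X]} (hf : f ∈ I4 F) : f.map (mapRingHom σ) ∈ I4 F :=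
  fun a b h => by rw [coeff_map, coe_mapRingHom, coeff_map, hf a b h, map_zero]

lemma ps_apply (c : F) (Y : Fin 2 → F[X][X]) (R : Fin 6 → F[X]) (p : S4) :
    ps c Y R p = ((ev R (C (X + C c)) Y).coeff p.1.2).coeff p.1.1 := rfl

lemma ps_zero_iff {c : F} {Y : Fin 2 → F[X][X]} {R : Fin 6 → F[X]} :
    ps c Y R = 0 ↔ ev R (C (X + C c)) Y ∈ I4 F :=
  ⟨fun h a b hab => congrFun h ⟨(⟨a, by omega⟩, ⟨b, by omega⟩), hab⟩,
    fun h => funext fun p => h _ _ p.2⟩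

lemma ps_eq_iff {c c' : F} {Y Y' : Fin 2 → F[X][X]} {R R' : Fin 6 → F[X]} :
    ps c Y R = ps c' Y' R' ↔ ev R (C (X + C c)) Y - ev R' (C (X + C c')) Y' ∈ I4 F :=
  ⟨fun h a b hab => by
    rw [coeff_sub, coeff_sub, sub_eq_zero]
    exact congrFun h ⟨(⟨a, by omega⟩, ⟨b, by omega⟩), hab⟩,
  fun h => funext fun p => by
    have := h _ _ p.2
    rwa [coeff_sub, coeff_sub, sub_eq_zero] at this⟩

lemma card_S4 : Fintype.card S4 = 10 := by decide

section Ev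

variable {A : Type} [CommRing A] [Algebra F A]

lemma ev_eq (R : Fin 6 → F[X]) (t : A) (y : Fin 2 → A) : ev R t y =
    aeval t (R 0) + aeval t (R 1) * y 0 + aeval t (R 2) * y 1 + aeval t (R 3) * y 0 ^ 2 +
      aeval t (R 4) * (y 0 * y 1) + aeval t (R 5) * y 1 ^ 2 := by
  simp [ev, mon, Fin.sum_univ_six]

lemma ev_add (R R' : Fin 6 → F[X]) (t : A) (y : Fin 2 → A) :
    ev (R + R') t y = ev R t y + ev R' t y := by
  simp [ev, add_mul, sum_add_distrib]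

lemma ev_smul (g : F[X]) (R : Fin 6 → F[X]) (t : A) (y : Fin 2 → A) :
    ev (g • R) t y = aeval t g * ev R t y := by
  simp [ev, mul_sum, mul_assoc]

lemma ev_one (t : A) (y : Fin 2 → A) : ev (Pi.single 0 1 : Fin 6 → F[X]) t y = 1 := by
  simp [ev_eq]

lemma ev_sb (lam : F[X]) (a : Fin 2 → F[X]) (R : Fin 6 → F[X]) (t : A) (y : Fin 2 → A) :
    ev (sb lam a R) t y = ev R t fun i => aeval t lam * y i + aeval t (a i) := by
  simp [ev_eq, sb, map_ofNat]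
  ring

lemma ev_trQ (c : F) (x : Fin 2 → F) (R : Fin 6 → F[X]) (t : A) (y : Fin 2 → A) :
    ev (trQ c x R) t (fun i => (t - algebraMap F A c) * y i + algebraMap F A (x i)) =
      (t - algebraMap F A c) ^ 2 * ev R t y := by
  simp [ev_eq, trQ, map_ofNat]
  ring

lemma ev_hom {A' : Type} [CommRing A'] [Algebra F A'] (σ : F →+* F) (φ : A →+* A')
    (h : ∀ c, φ (algebraMap F A c) = algebraMap F A' (σ c)) (R : Fin 6 → F[X]) (t : A)
    (y : Fin 2 → A) : φ (ev R t y) = ev (twQ σ R) (φ t) fun i => φ (y i) := by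
  have : ∀ g : F[X], φ (aeval t g) = aeval (φ t) (g.map σ) := fun g =>
    map_aeval_eq_aeval_map (RingHom.ext fun c => (h c).symm) g t
  simp [ev_eq, twQ, this]

lemma ev_algHom {A' : Type} [CommRing A'] [Algebra F A'] (φ : A →ₐ[F] A') (R : Fin 6 → F[X])
    (t : A) (y : Fin 2 → A) : φ (ev R t y) = ev R (φ t) fun i => φ (y i) := by
  simp [ev_eq, aeval_algHom_apply]

lemma ev_congr (I : Ideal A) (R : Fin 6 → F[X]) (t : A) {y y' : Fin 2 → A}
    (h : ∀ i, y i - y' i ∈ I) : ev R t y - ev R t y' ∈ I := by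
  rw [← Ideal.Quotient.eq]
  have := fun y => ev_algHom (Ideal.Quotient.mkₐ F I) R t y
  simp only [Ideal.Quotient.mkₐ_eq_mk] at this
  rw [this, this]
  congr 1
  exact funext fun i => Ideal.Quotient.eq.2 (h i)

end Ev

lemma aeval_tau (c : F) (g : F[X]) : aeval (C (X + C c) : F[X][X]) g = C (taylor c g) := by
  rw [taylor_apply, comp_eq_aeval]
  exact aeval_algHom_apply (CAlgHom : F[X] →ₐ[F] F[X][X]) _ g

lemma aeval_tau' (c : F) (g : F[X]) : aeval (X + C c : F[X]) g = taylor c g := by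
  rw [taylor_apply, comp_eq_aeval]

lemma ps_pow (c : F) (Y : Fin 2 → F[X][X]) (R : Fin 6 → F[X]) :
    ps c Y ((X - C c) ^ 4 • R) = 0 := by
  rw [ps_zero_iff, ev_smul, aeval_tau]
  exact Ideal.mul_mem_right _ _ (C_mem_I4 (by simp))

lemma ps_smul {c : F} {Y : Fin 2 → F[X][X]} {R : Fin 6 → F[X]} (h : ps c Y R = 0) (g : F[X]) :
    ps c Y (g • R) = 0 := by
  rw [ps_zero_iff] at h ⊢
  rw [ev_smul]
  exact Ideal.mul_mem_left _ _ h

/-- The conditions give a zero of order four of the true jet. -/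
lemma ps_dvd {c : F} {Y : Fin 2 → F[X][X]} {R : Fin 6 → F[X]} (h : ps c Y R = 0) {ξ : F[X]}
    (hξ : X ∣ ξ) : X ^ 4 ∣ ev R (X + C c) fun i => (Y i).eval ξ := by
  have := ev_hom (RingHom.id F) (evalRingHom ξ) (fun c => by simp) R (C (X + C c)) Y
  simp only [coe_evalRingHom, eval_C] at this
  rw [show twQ (RingHom.id F) R = R from funext fun o => Polynomial.map_id] at this
  exact this ▸ I4_eval (ps_zero_iff.1 h) hξ

lemma vl_eval (Y : Fin 2 → F[X][X]) {ξ : F[X]} (hξ : X ∣ ξ) (i : Fin 2) :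
    ((Y i).eval ξ).coeff 0 = vl Y i := by
  obtain ⟨g, rfl⟩ := hξ
  conv_lhs => rw [← divX_mul_X_add (Y i)]
  simp [vl]

variable {q : ℕ} {θ : F} {σ : F →+* F} {x : Fin 2 → F} {e : ℕ} {Y : ℕ → ℕ → Fin 2 → F[X][X]}

lemma J2.ev_trQ (h : J2 q θ σ x e Y) {m j : ℕ} (hj : j + e ≤ m) (R : Fin 6 → F[X]) :
    ev (trQ (θ ^ q ^ m) (fun i => x i ^ q ^ m) R) (C (X + C (θ ^ q ^ j))) (Y (m + 1) j) =
      C (X + C (θ ^ q ^ j) - C (θ ^ q ^ m)) ^ 2 * ev R (C (X + C (θ ^ q ^ j))) (Y m j) := by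
  rw [funext fun i => h.Yrec m j i hj, C_sub]
  exact Q2.ev_trQ _ _ R _ _

lemma J2.ps_trM (h : J2 q θ σ x e Y) {m j : ℕ} (hj : j + e ≤ m) {R : Fin 6 → F[X]}
    (hR : ps (θ ^ q ^ j) (Y m j) R = 0) (s : ℕ) :
    ps (θ ^ q ^ j) (Y (m + s) j) (trM q θ x m R s) = 0 := by
  induction s with
  | zero => exact hR
  | succ s ih =>
    rw [ps_zero_iff] at ih ⊢
    rw [trM, ← add_assoc, h.ev_trQ (by omega)]
    exact Ideal.mul_mem_left _ _ ih

lemma J2.ev_tw (h : J2 q θ σ x e Y) (hσ : ∀ y, σ y = y ^ q) {m j : ℕ} (hj : j + e ≤ m)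
    (R : Fin 6 → F[X]) : ev (twQ σ R) (C (X + C (θ ^ q ^ (j + 1)))) (Y (m + 1) (j + 1)) =
      (ev R (C (X + C (θ ^ q ^ j))) (Y m j)).map (mapRingHom σ) := by
  have := ev_hom σ (mapRingHom (mapRingHom σ)) (fun c => by simp) R (C (X + C (θ ^ q ^ j))) (Y m j)
  simp only [coe_mapRingHom, map_C, Polynomial.map_add, map_X, sig_c hσ] at this
  rw [this, funext fun i => h.Ytw m j i hj]

lemma J2.ps_tw (h : J2 q θ σ x e Y) (hσ : ∀ y, σ y = y ^ q) {m j : ℕ} (hj : j + e ≤ m)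
    (R : Fin 6 → F[X]) (p : S4) : ps (θ ^ q ^ (j + 1)) (Y (m + 1) (j + 1)) (twQ σ R) p =
      σ (ps (θ ^ q ^ j) (Y m j) R p) := by
  rw [ps_apply, ps_apply, h.ev_tw hσ hj, coeff_map, coe_mapRingHom, coeff_map]

lemma J2.ps_twN (h : J2 q θ σ x e Y) (hσ : ∀ y, σ y = y ^ q) {m j : ℕ} (hj : j + e ≤ m)
    {R : Fin 6 → F[X]} (hR : ps (θ ^ q ^ j) (Y m j) R = 0) (a : ℕ) :
    ps (θ ^ q ^ (j + a)) (Y (m + a) (j + a)) ((twQ σ)^[a] R) = 0 := by
  induction a with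
  | zero => exact hR
  | succ a ih =>
    funext p
    rw [Function.iterate_succ_apply', ← add_assoc, ← add_assoc, h.ps_tw hσ (by omega), ih]
    exact map_zero σ

lemma J2.vl_rec (h : J2 q θ σ x e Y) {m j : ℕ} (hj : j + e ≤ m) (i : Fin 2) :
    vl (Y (m + 1) j) i = (θ ^ q ^ j - θ ^ q ^ m) * vl (Y m j) i + x i ^ q ^ m := by
  simp [vl, h.Yrec m j i hj, -map_pow, -map_sub, -map_add]

lemma J2.vl_tw (h : J2 q θ σ x e Y) {m j : ℕ} (hj : j + e ≤ m) (i : Fin 2) :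
    vl (Y (m + 1) (j + 1)) i = σ (vl (Y m j) i) := by
  simp [vl, h.Ytw m j i hj]

lemma J2.val_trM (h : J2 q θ σ x e Y) {m j : ℕ} (hj : j + e ≤ m) (R : Fin 6 → F[X]) (s : ℕ) :
    ev (trM q θ x m R s) (θ ^ q ^ j) (vl (Y (m + s) j)) =
      (∏ l ∈ range s, (θ ^ q ^ j - θ ^ q ^ (m + l))) ^ 2 * ev R (θ ^ q ^ j) (vl (Y m j)) := by
  induction s with
  | zero => simp [trM]
  | succ s ih =>
    rw [trM, ← add_assoc, funext (h.vl_rec (m := m + s) (j := j) (by omega))]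
    refine (Q2.ev_trQ _ _ _ _ _).trans ?_
    rw [ih, prod_range_succ, Algebra.algebraMap_self_apply]
    ring

lemma J2.val_tw (h : J2 q θ σ x e Y) (hσ : ∀ y, σ y = y ^ q) {m j : ℕ} (hj : j + e ≤ m)
    (R : Fin 6 → F[X]) : ev (twQ σ R) (θ ^ q ^ (j + 1)) (vl (Y (m + 1) (j + 1))) =
      σ (ev R (θ ^ q ^ j) (vl (Y m j))) := by
  rw [ev_hom σ σ (fun _ => rfl), sig_c hσ, funext (h.vl_tw hj)]

lemma J2.val_twN (h : J2 q θ σ x e Y) (hσ : ∀ y, σ y = y ^ q) {m j : ℕ} (hj : j + e ≤ m)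
    {R : Fin 6 → F[X]} (hR : ev R (θ ^ q ^ j) (vl (Y m j)) = 0) (a : ℕ) :
    ev ((twQ σ)^[a] R) (θ ^ q ^ (j + a)) (vl (Y (m + a) (j + a))) = 0 := by
  induction a with
  | zero => exact hR
  | succ a ih =>
    rw [Function.iterate_succ_apply', ← add_assoc, ← add_assoc, h.val_tw hσ (by omega), ih,
      map_zero]

lemma twQ_trQ (σ : F →+* F) (c : F) (x : Fin 2 → F) (R : Fin 6 → F[X]) :
    twQ σ (trQ c x R) = trQ (σ c) (fun i => σ (x i)) (twQ σ R) := by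
  funext o
  fin_cases o <;> simp [twQ, trQ]

lemma twQ_trM (hσ : ∀ y, σ y = y ^ q) (m : ℕ) (R : Fin 6 → F[X]) (s : ℕ) :
    twQ σ (trM q θ x m R s) = trM q θ x (m + 1) (twQ σ R) s := by
  induction s with
  | zero => rfl
  | succ s ih => simp only [trM, twQ_trQ, ih, sig_c hσ, add_right_comm]

lemma twQ_smul (σ : F →+* F) (g : F[X]) (R : Fin 6 → F[X]) :
    twQ σ (g • R) = g.map σ • twQ σ R := funext fun o => by simp [twQ]

lemma twQN_deg (R : Fin 6 → F[X]) (a : ℕ) (o : Fin 6) :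
    ((twQ σ)^[a] R o).degree = (R o).degree := by
  induction a with
  | zero => rfl
  | succ a ih => rw [Function.iterate_succ_apply', twQ, degree_map, ih]

lemma twQN_ne {R : Fin 6 → F[X]} (h : R ≠ 0) (a : ℕ) : (twQ σ)^[a] R ≠ 0 := fun h0 =>
  h (funext fun o => degree_eq_bot.1 (by rw [← twQN_deg (σ := σ) R a o, h0]; exact degree_zero))

/-- The transport is `F[t]`-linear. -/
noncomputable def trL (c : F) (x : Fin 2 → F) : (Fin 6 → F[X]) →ₗ[F[X]] (Fin 6 → F[X]) where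
  toFun := trQ c x
  map_add' R R' := funext fun o => by fin_cases o <;> simp [trQ] <;> ring
  map_smul' g R := funext fun o => by fin_cases o <;> simp [trQ] <;> ring

lemma trQ_zero {c : F} {x : Fin 2 → F} {R : Fin 6 → F[X]} (h : trQ c x R = 0) : R = 0 := by
  have h3 : R 3 = 0 := congrFun h 3
  have h4 : R 4 = 0 := congrFun h 4
  have h5 : R 5 = 0 := congrFun h 5
  have h1 : R 1 = 0 := by simpa [trQ, h3, h4, X_sub_C_ne_zero] using congrFun h 1
  have h2 : R 2 = 0 := by simpa [trQ, h5, h4, X_sub_C_ne_zero] using congrFun h 2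
  have h0 : R 0 = 0 := by simpa [trQ, h1, h2, h3, h5, h4, X_sub_C_ne_zero] using congrFun h 0
  funext o
  fin_cases o <;> assumption

lemma trM_ne {m : ℕ} {R : Fin 6 → F[X]} (h : R ≠ 0) (s : ℕ) : trM q θ x m R s ≠ 0 := by
  induction s with
  | zero => exact h
  | succ s ih => exact fun h0 => ih (trQ_zero h0)

lemma trQ_deg (c : F) (x : Fin 2 → F) {R : Fin 6 → F[X]} {D : ℕ} (h : ∀ o, (R o).degree < D)
    (o : Fin 6) : (trQ c x R o).degree < (D + 2 : ℕ) := by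
  have a : ∀ {g : F[X]} {n : ℕ}, g ∈ degreeLT F n → (X - C c) * g ∈ degreeLT F (n + 1) :=
    fun {g n} hg => by
      rw [mem_degreeLT] at hg ⊢
      rw [degree_mul, degree_X_sub_C, add_comm, Nat.cast_succ]
      exact WithBot.add_lt_add_right WithBot.one_ne_bot hg
  have b : ∀ (u : F) {g : F[X]} {n : ℕ}, g ∈ degreeLT F n → C u * g ∈ degreeLT F n :=
    fun u g n hg => by rw [C_mul']; exact Submodule.smul_mem _ _ hg
  have h0 := fun o => mem_degreeLT.2 (h o)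
  have h1 := fun o => degreeLT_mono (Nat.le_succ D) (h0 o)
  have h2 := fun o => degreeLT_mono (Nat.le_succ _) (h1 o)
  rw [← mem_degreeLT]
  fin_cases o
  · refine add_mem (sub_mem ?_ (a (add_mem (b _ (h1 _)) (b _ (h1 _))))) (add_mem (add_mem ?_ ?_) ?_)
    · rw [pow_two, mul_assoc]; exact a (a (h0 _))
    · rw [← C_pow]; exact b _ (h2 _)
    · rw [← C_mul]; exact b _ (h2 _)
    · rw [← C_pow]; exact b _ (h2 _)
  · refine sub_mem (a (h1 _)) (add_mem ?_ (b _ (h2 _)))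
    rw [two_mul, add_mul]; exact add_mem (b _ (h2 _)) (b _ (h2 _))
  · refine sub_mem (a (h1 _)) (add_mem (b _ (h2 _)) ?_)
    rw [two_mul, add_mul]; exact add_mem (b _ (h2 _)) (b _ (h2 _))
  all_goals exact h2 _

lemma trM_deg (m : ℕ) {R : Fin 6 → F[X]} {D : ℕ} (h : ∀ o, (R o).degree < D) (s : ℕ)
    (o : Fin 6) : (trM q θ x m R s o).degree < (D + 2 * s : ℕ) := by
  induction s generalizing o with
  | zero => exact h o
  | succ s ih => exact trQ_deg _ _ ih o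

end Pool.Agent.CSU.Q2
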