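import Pool.Agent.Lib.MP_0370b2_nt.S2.Bas
import Pool.Agent.Lib.MP_bf776f_nt.SU.ThmB
import Pool.Agent.Lib.MP_bf776f_nt.SU.An2

/-! Two points: reduction to the blocks. -/

namespace Pool.Agent.CSU.Q2

open Polynomial Finset

theorem c0 : An4S → TayS → HenS → Jet2S → MinS → ZE2S → CoreQS → HornS → C0S := by
  intro an4 tay hen jet mn ze core horn k F _ _ _ _ _ _ θ u hθ hal np y hu
  classical
  have hx : AX k θ := ax hθ
  have h0 : θ ≠ 0 := by rintro rfl; rw [norm_zero] at hθ; linarith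
  obtain ⟨n, hn⟩ := pow_unbounded_of_one_lt (∑ i, ‖u i‖) hθ
  have hn0 : θ ^ n ≠ 0 := pow_ne_zero _ h0
  set v : Fin 2 → F := fun i => u i / θ ^ n with hv
  have huv : ∀ i, θ ^ n * v i = u i := fun i => mul_div_cancel₀ _ hn0
  have hv1 : ∀ i, ‖v i‖ ≤ 1 := fun i => by
    rw [hv, norm_div, norm_pow, div_le_one (by positivity)]
    exact (single_le_sum (f := fun i => ‖u i‖) (fun _ _ => norm_nonneg _) (mem_univ i)).trans hn.le
  have gv : ∀ i, Gd k θ y (v i) := fun i => hx.gdiv n (by rw [huv]; exact hu i) h0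
  have vK : ∀ i, IsAlgebraic (Kinf k θ) (v i) := fun i => by
    have hK : IsAlgebraic (Kinf k θ) θ := isAlgebraic_algebraMap (⟨θ, Subfield.le_topologicalClosure
      _ (Subfield.subset_closure (Or.inr rfl))⟩ : Kinf k θ)
    rw [hv]
    simp only [div_eq_mul_inv]
    exact (hal i).mul (hK.pow n).inv
  let σ : F →+* F := (FiniteField.frobeniusAlgHom k F).toRingHom
  have hσ : ∀ y, σ y = y ^ Fintype.card k := fun y => rfl
  have ha := fun i => an4 k F θ (v i) σ hθ hσ
  obtain ⟨e, he, hT⟩ := tay k F θ v hθ vK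
  obtain ⟨Y0, ξ0, hξ0, hY0, hd0⟩ := hen k F θ y (fun i => Jt (Fintype.card k) θ (v i) e 0)
    (fun i => by rw [(ha i e 0 he).1]; exact al_phi an hθ (gv i) he)
    (by simpa only [(ha _ e 0 he).1] using hT)
  obtain ⟨Y, ξ, hJ, hYe, hξ, hd⟩ := jet F _ θ σ (fun i => cE (Fintype.card k) θ (v i)) e
    (fun m j i => Jt (Fintype.card k) θ (v i) m j) Y0 ξ0 hσ he
    (fun m j i hj => ⟨(ha i m j hj).2.1, (ha i m j hj).2.2.1⟩) hξ0 hd0
  have nt : NT k (Fintype.card k) θ σ fun i => cE (Fintype.card k) θ (v i) := fun T β g hg => by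
    by_contra hβ
    apply np β hβ
    have := hx.ezero (horn k F _ θ σ v T β g hθ hσ hg) n
    rw [mul_sum] at this
    rw [← this]
    congr 1
    exact sum_congr rfl fun i _ => by rw [← huv]; ring
  obtain ⟨r, κ, f, hf, r1, r6, hκ, hs, hmin⟩ := mn k F θ σ _ e Y hθ hσ hJ
  let S : Finset F := insert θ (univ.biUnion fun i => insert (cE (Fintype.card k) θ (v i))
    ((Y0 i).support.biUnion fun b => ((Y0 i).coeff b).coeffs))
  have hS : ∀ z ∈ S, Al k θ y z := by
    intro z hz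
    simp only [S, mem_insert, mem_biUnion, mem_univ, true_and, mem_coeffs_iff] at hz
    rcases hz with rfl | ⟨i, rfl | ⟨b, -, a, -, rfl⟩⟩
    exacts [al_th _ y, (gv i).2, hY0 i a b]
  have hU : ∀ z ∈ S, z ∈ Submodule.span k (insert 1 (S : Set F)) := fun z hz =>
    Submodule.subset_span (Set.mem_insert_of_mem _ hz)
  refine core k F θ σ _ e Y ξ _ r κ f hθ hσ hJ (hgt norm_fin ![θ, y] hθ S hS)
    (hU _ (mem_insert_self _ _))
    (fun i => hU _ (mem_insert_of_mem (mem_biUnion.2 ⟨i, mem_univ _, mem_insert_self _ _⟩)))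
    (fun i a b => ?_) (fun i => by rw [(fr k F).norm_cE hθ (hv1 i)]; exact hv1 i) hξ
    (fun m j i l hj hl => ?_) hf r1 r6 hκ hs (ze k F θ σ _ e Y κ r hθ hσ hJ nt hmin)
  · rw [hYe]
    by_cases h : ((Y0 i).coeff b).coeff a = 0
    · rw [h]; exact zero_mem _
    · exact hU _ (mem_insert_of_mem (mem_biUnion.2 ⟨i, mem_univ _, mem_insert_of_mem
        (mem_biUnion.2 ⟨b, mem_support_iff.2 fun e => h (by rw [e, coeff_zero]),
          coeff_mem_coeffs h⟩)⟩))
  · have := X_pow_dvd_iff.1 (hd m j i hj) l hl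
    rw [coeff_sub, sub_eq_zero] at this
    rw [this]
    exact (ha i m j (by omega)).2.2.2 (hv1 i) l

/-- Two points, linearly independent over `k(θ)`. -/
def CT : Prop :=
  ∀ (k F : Type) [Field k] [Fintype k] [NormedField F] [IsUltrametricDist F] [CompleteSpace F]
    [Algebra k F] (θ : F) (u : Fin 2 → F), 1 < ‖θ‖ → (∀ i, IsAlgebraic (Kinf k θ) (u i)) →
    LinearIndependent (IntermediateField.adjoin k {θ}) u →
    ∃ a ∈ Set.range u ∪ Set.range fun i => cE (Fintype.card k) θ (u i),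
      ∃ b ∈ Set.range u ∪ Set.range fun i => cE (Fintype.card k) θ (u i),
        AlgebraicIndependent (IntermediateField.adjoin k {θ}) ![a, b]

theorem thmC : AS → C0S → CT := by
  intro hA hC k F _ _ _ _ _ _ θ u hθ hal hi
  have hi' : ∀ β : Fin 2 → k[X], β ≠ 0 → ∑ i, aeval θ (β i) * u i ≠ 0 := fun β hβ h0 =>
    hβ (funext fun i => by
      have h1 := congrArg Subtype.val (Fintype.linearIndependent_iff.1 hi (fun i => ⟨aeval θ (β i),
        (IntermediateField.mem_adjoin_simple_iff k _).2 ⟨β i, 1, by simp⟩⟩) h0 i)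
      by_contra hb
      have := norm_aeval norm_fin hθ hb
      rw [show aeval θ (β i) = 0 from h1, norm_zero] at this
      exact absurd this (by positivity))
  refine pair_of θ _ fun y h => ?_
  have hu := fun i => And.intro (h _ (Or.inl ⟨i, rfl⟩)) (h _ (Or.inr ⟨i, rfl⟩))
  by_cases np : ∀ β : Fin 2 → k[X], β ≠ 0 → cE (Fintype.card k) θ (∑ i, aeval θ (β i) * u i) ≠ 0
  · exact hC k F θ u hθ hal np y hu
  push Not at np
  obtain ⟨β, hβ, h0⟩ := np
  have al : Al k θ y (∑ i, aeval θ (β i) * u i) := by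
    rw [Fin.sum_univ_two]
    exact ((al_pol θ y _).mul (hu 0).1).add ((al_pol θ y _).mul (hu 1).1)
  have key : ∀ i, ∃ a b : k[X], b ≠ 0 ∧
      aeval θ b * u i = aeval θ a * ∑ i, aeval θ (β i) * u i := fun i => by
    by_contra hc
    push Not at hc
    exact hA k F θ _ (u i) hθ (hi' β hβ) h0 hc y ⟨al, hu i⟩
  obtain ⟨a, b, hb, h1⟩ := key 0
  obtain ⟨c, d, hd, h2⟩ := key 1
  generalize ∑ i, aeval θ (β i) * u i = l at h1 h2
  by_cases ha : a = 0
  · refine hi' ![b, 0] (fun e => hb (congrFun e 0)) ?_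
    simpa [Fin.sum_univ_two, ha] using h1
  · refine hi' ![-(b * c), a * d] (fun e => mul_ne_zero ha hd (congrFun e 1)) ?_
    simp only [Fin.sum_univ_two, Matrix.cons_val_zero, Matrix.cons_val_one, map_neg, map_mul]
    linear_combination aeval θ a * h2 - aeval θ c * h1

end Pool.Agent.CSU.Q2
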