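import Mathlib

/-! Stable spaces of quadratic rows over a difference field. -/

namespace Pool.Agent.CSU

open Finset

variable {Φ : Type} [Field Φ] (σ : Φ →+* Φ)

lemma fixspan {ι : Type} [Fintype ι] (N P : Submodule Φ (ι → Φ)) (hN : ∀ v ∈ N, σ ∘ v ∈ N)
    (hP : ∀ v ∈ N, σ ∘ v = v → v ∈ P) : N ≤ P := by
  classical
  have lt : ∀ (v w : ι → Φ) (i : ι), (∀ j, v j = 0 → w j = 0) → v i ≠ 0 → w i = 0 →
      #{j | w j ≠ 0} < #{j | v j ≠ 0} := fun v w i h h1 h2 => card_lt_card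
    ((ssubset_iff_of_subset fun j hj => by
      simp only [mem_filter, mem_univ, true_and] at hj ⊢
      exact fun h' => hj (h j h')).2 ⟨i, by simpa using h1, by simpa using h2⟩)
  intro v hv
  induction hn : #{j | v j ≠ 0} using Nat.strong_induction_on generalizing v with
  | _ n ih =>
  by_cases h0 : v = 0
  · rw [h0]; exact zero_mem _
  have hex : ∃ m, ∃ w ∈ N, w ≠ 0 ∧ (∀ j, v j = 0 → w j = 0) ∧ #{j | w j ≠ 0} = m :=
    ⟨_, v, hv, h0, fun _ h => h, rfl⟩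
  obtain ⟨w, hw, hw0, hs, hm⟩ := Nat.find_spec hex
  obtain ⟨i, hi⟩ := Function.ne_iff.1 hw0
  have hi : w i ≠ 0 := hi
  have hu : (w i)⁻¹ • w ∈ N := N.smul_mem _ hw
  have hf : σ ∘ ((w i)⁻¹ • w) = (w i)⁻¹ • w := by
    by_contra hne
    refine Nat.find_min hex ?_ ⟨_, sub_mem (hN _ hu) hu, sub_ne_zero.2 hne,
      fun j hj => by simp [hs j hj], rfl⟩
    rw [← hm]
    exact lt _ _ i (fun j hj => by simp [hj]) hi (by simp [hi])
  have := ih _ (hn ▸ lt v (v - v i • ((w i)⁻¹ • w)) i (fun j hj => by simp [hj, hs j hj])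
    (fun h => hi (hs i h)) (by simp [hi])) (sub_mem hv (N.smul_mem _ hu)) rfl
  simpa using add_mem this (P.smul_mem (v i) (hP _ hu hf))

/-- The closure properties of a stable space of rows `(a; b₁, b₂; q₁, q₂, q₃)`. -/
theorem cls0 {lam a1 a2 : Φ} (hl : lam ≠ 0)
    (nt : ∀ g b1 b2, σ b1 = b1 → σ b2 = b2 → σ g = lam * g - (b1 * a1 + b2 * a2) →
      b1 = 0 ∧ b2 = 0 ∧ g = 0)
    (nt2 : (2 : Φ) = 0 → ∀ g b1 b2, σ b1 = b1 → σ b2 = b2 →
      σ g = lam ^ 2 * g + (b1 * a1 ^ 2 + b2 * a2 ^ 2) → b1 = 0 ∧ b2 = 0)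
    (M : Submodule Φ (Fin 6 → Φ)) (hM : M ≠ ⊥)
    (hA : ∀ m ∈ M, ∃ m' ∈ M, σ ∘ m =
      ![lam ^ 2 * m' 0 - lam * (m' 1 * a1 + m' 2 * a2) +
          (m' 3 * a1 ^ 2 + m' 4 * (a1 * a2) + m' 5 * a2 ^ 2),
        lam * m' 1 - (2 * m' 3 * a1 + m' 4 * a2), lam * m' 2 - (m' 4 * a1 + 2 * m' 5 * a2),
        m' 3, m' 4, m' 5]) :
    ![1, 0, 0, 0, 0, 0] ∈ M ∧ ∀ m ∈ M, σ ∘ m ∈ M ∧ ![0, m 1, m 2, 0, 0, 0] ∈ M ∧
      ![0, 0, 0, m 3, m 4, m 5] ∈ M ∧ ![0, 2 * m 3, m 4, 0, 0, 0] ∈ M ∧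
      ![0, m 4, 2 * m 5, 0, 0, 0] ∈ M := by
  let I : Φ → Φ → Φ → Φ → Φ → Φ → Prop := fun a b c d e f => ![a, b, c, d, e, f] ∈ M
  have eta : ∀ m : Fin 6 → Φ, m = ![m 0, m 1, m 2, m 3, m 4, m 5] := fun m => by
    ext i; fin_cases i <;> rfl
  have lc : ∀ (s t : Φ) {a b c d e f a' b' c' d' e' f' a'' b'' c'' d'' e'' f''}, I a b c d e f →
      I a' b' c' d' e' f' → a'' = s * a + t * a' → b'' = s * b + t * b' → c'' = s * c + t * c' →
      d'' = s * d + t * d' → e'' = s * e + t * e' → f'' = s * f + t * f' →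
      I a'' b'' c'' d'' e'' f'' := by
    intro s t a b c d e f a' b' c' d' e' f' _ _ _ _ _ _ h h' r1 r2 r3 r4 r5 r6
    subst r1 r2 r3 r4 r5 r6
    have := add_mem (M.smul_mem s h) (M.smul_mem t h')
    simpa using this
  have z0 : I 0 0 0 0 0 0 := by
    have := M.zero_mem
    rwa [eta 0] at this
  have hA' : ∀ {a b c d e f}, I a b c d e f → ∃ a' b' c', I a' b' c' (σ d) (σ e) (σ f) ∧
      σ a = lam ^ 2 * a' - lam * (b' * a1 + c' * a2) +
        (σ d * a1 ^ 2 + σ e * (a1 * a2) + σ f * a2 ^ 2) ∧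
      σ b = lam * b' - (2 * σ d * a1 + σ e * a2) ∧ σ c = lam * c' - (σ e * a1 + 2 * σ f * a2) := by
    intro a b c d e f h
    obtain ⟨m, hm, h'⟩ := hA _ h
    have h3 : σ d = m 3 := congrFun h' 3
    have h4 : σ e = m 4 := congrFun h' 4
    have h5 : σ f = m 5 := congrFun h' 5
    rw [h3, h4, h5]
    exact ⟨m 0, m 1, m 2, by rwa [eta m] at hm, congrFun h' 0, congrFun h' 1, congrFun h' 2⟩
  let G1 : Submodule Φ (Fin 2 → Φ) :=
    { carrier := {b | ∃ a, I a (b 0) (b 1) 0 0 0}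
      add_mem' := fun ⟨a, h⟩ ⟨a', h'⟩ => ⟨_, lc 1 1 h h' rfl (by simp) (by simp) (by simp)
        (by simp) (by simp)⟩
      zero_mem' := ⟨0, z0⟩
      smul_mem' := fun s _ ⟨a, h⟩ => ⟨_, lc s 0 h h rfl (by simp) (by simp) (by simp)
        (by simp) (by simp)⟩ }
  let G2 : Submodule Φ (Fin 3 → Φ) :=
    { carrier := {Q | ∃ a b c, I a b c (Q 0) (Q 1) (Q 2)}
      add_mem' := fun ⟨a, b, c, h⟩ ⟨a', b', c', h'⟩ => ⟨_, _, _, lc 1 1 h h' rfl rfl rfl (by simp)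
        (by simp) (by simp)⟩
      zero_mem' := ⟨0, 0, 0, z0⟩
      smul_mem' := fun s _ ⟨a, b, c, h⟩ => ⟨_, _, _, lc s 0 h h rfl rfl rfl (by simp)
        (by simp) (by simp)⟩ }
  have s1 : ∀ b ∈ G1, σ ∘ b ∈ G1 := fun b ⟨a, h⟩ => by
    obtain ⟨a', b', c', h', -, e1, e2⟩ := hA' h
    exact ⟨_, lc lam 0 h' h' rfl (by simpa using e1) (by simpa using e2) (by simp) (by simp)
      (by simp)⟩
  have s2 : ∀ Q ∈ G2, σ ∘ Q ∈ G2 := fun Q ⟨a, b, c, h⟩ => by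
    obtain ⟨a', b', c', h', -⟩ := hA' h
    exact ⟨_, _, _, h'⟩
  have dual : ∀ v : Fin 2 → Φ, (∀ l : Fin 2 → Φ, σ ∘ l = l → (∀ b ∈ G1, l ⬝ᵥ b = 0) →
      l ⬝ᵥ v = 0) → v ∈ G1 := fun v hv => by
    by_contra hn
    obtain ⟨f, hf, hle⟩ := G1.exists_le_ker_of_notMem hn
    have hfl : ∀ b, (fun i => f (Pi.single i 1)) ⬝ᵥ b = f b := fun b => by
      rw [LinearMap.pi_apply_eq_sum_univ f b]
      exact sum_congr rfl fun i _ => by
        rw [smul_eq_mul, mul_comm]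
        exact congrArg (fun y => b i * f y) (funext fun j => by simp [Pi.single_apply, eq_comm])
    let N : Submodule Φ (Fin 2 → Φ) := ⨅ b ∈ G1, LinearMap.ker (dotProductBilin Φ Φ |>.flip b)
    have hN : ∀ l, l ∈ N ↔ ∀ b ∈ G1, l ⬝ᵥ b = 0 := fun l => by simp [N]
    refine hf ((hfl v).symm.trans (fixspan σ N (LinearMap.ker (dotProductBilin Φ Φ |>.flip v))
      (fun l hl => (hN _).2 fun b hb => fixspan σ G1 (LinearMap.ker (dotProductBilin Φ Φ (σ ∘ l)))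
        s1 (fun b hb hf => ?_) hb) (fun l hl h => hv l h ((hN l).1 hl))
      ((hN _).2 fun b hb => (hfl b).trans (hle hb))))
    have := congrArg σ ((hN l).1 hl b hb)
    rw [RingHom.map_dotProduct, hf, map_zero] at this
    exact this
  have key : ∀ {a b c d e f}, σ d = d → σ e = e → σ f = f → I a b c d e f →
      ![b, c] ∈ G1 ∧ ![2 * d, e] ∈ G1 ∧ ![e, 2 * f] ∈ G1 := by
    intro a b c d e f hd he hf h
    obtain ⟨a', b', c', h', -, e1, e2⟩ := hA' h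
    rw [hd, he] at e1
    rw [he, hf] at e2
    rw [hd, he, hf] at h'
    have : ∀ l : Fin 2 → Φ, σ ∘ l = l → (∀ b ∈ G1, l ⬝ᵥ b = 0) → l 0 * (2 * d) + l 1 * e = 0 ∧
        l 0 * e + l 1 * (2 * f) = 0 ∧ l 0 * b + l 1 * c = 0 := fun l h1 h2 => by
      have l0 : σ (l 0) = l 0 := congrFun h1 0
      have l1 : σ (l 1) = l 1 := congrFun h1 1
      have h3 := h2 ![b' - b, c' - c] ⟨_, lc 1 (-1) h' h rfl (by simp; ring) (by simp; ring)
        (by ring) (by ring) (by ring)⟩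
      simp only [dotProduct, Fin.sum_univ_two, Matrix.cons_val_zero, Matrix.cons_val_one] at h3
      refine nt _ _ _ (by simp [map_ofNat, l0, l1, hd, he]) (by simp [map_ofNat, l0, l1, hf, he]) ?_
      rw [map_add, map_mul, map_mul, l0, l1, e1, e2]
      linear_combination lam * h3
    exact ⟨dual _ fun l h1 h2 => by simpa [dotProduct] using (this l h1 h2).2.2,
      dual _ fun l h1 h2 => by simpa [dotProduct] using (this l h1 h2).1,
      dual _ fun l h1 h2 => by simpa [dotProduct] using (this l h1 h2).2.1⟩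
  have e0 : I 1 0 0 0 0 0 := by
    by_contra hn
    have uq : ∀ {a}, I a 0 0 0 0 0 → a = 0 := fun {a} h => by
      by_contra ha
      exact hn (lc a⁻¹ 0 h h (by simp [ha]) (by simp) (by simp) (by simp) (by simp) (by simp))
    have g1 : G1 ≤ ⊥ := fixspan σ _ _ s1 fun b ⟨g, h⟩ hb => by
      obtain ⟨a', b', c', h', e0, e1, e2⟩ := hA' h
      have l0 : σ (b 0) = b 0 := congrFun hb 0
      have l1 : σ (b 1) = b 1 := congrFun hb 1
      simp only [map_zero, l0, l1, mul_zero, zero_mul, add_zero, sub_zero] at h' e0 e1 e2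
      have := uq (lc 1 (-lam) h h' rfl (by rw [e1]; ring) (by rw [e2]; ring) (by simp) (by simp)
        (by simp))
      obtain ⟨r1, r2, -⟩ := nt g _ _ l0 l1 (by rw [e0, e1, e2]; linear_combination -lam * this)
      exact funext (Fin.forall_fin_two.2 ⟨r1, r2⟩)
    have g2 : G2 ≤ ⊥ := fixspan σ _ _ s2 fun Q ⟨a, b, c, h⟩ hQ => by
      have l0 : σ (Q 0) = Q 0 := congrFun hQ 0
      have l1 : σ (Q 1) = Q 1 := congrFun hQ 1
      have l2 : σ (Q 2) = Q 2 := congrFun hQ 2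
      obtain ⟨k1, k2, k3⟩ := key l0 l1 l2 h
      have r1 : b = 0 := congrFun (g1 k1) 0
      have r2 : c = 0 := congrFun (g1 k1) 1
      have r3 : 2 * Q 0 = 0 := congrFun (g1 k2) 0
      have r4 : Q 1 = 0 := congrFun (g1 k2) 1
      have r5 : 2 * Q 2 = 0 := congrFun (g1 k3) 1
      suffices Q 0 = 0 ∧ Q 2 = 0 from funext fun i => by
        fin_cases i
        exacts [this.1, r4, this.2]
      by_cases h2 : (2 : Φ) = 0
      · obtain ⟨a', b', c', h', e0, -⟩ := hA' h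
        rw [l0, l1, l2] at h' e0
        have k4 := (key l0 l1 l2 h').1
        have r6 : b' = 0 := congrFun (g1 k4) 0
        have r7 : c' = 0 := congrFun (g1 k4) 1
        have := uq (lc 1 (-1) h h' rfl (by simp [r1, r6]) (by simp [r2, r7]) (by simp) (by simp)
          (by simp))
        exact nt2 h2 a _ _ l0 l2 (by rw [e0, r4, r6, r7]; linear_combination -lam ^ 2 * this)
      · exact ⟨(mul_eq_zero.1 r3).resolve_left h2, (mul_eq_zero.1 r5).resolve_left h2⟩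
    obtain ⟨m, hm, hm0⟩ := (Submodule.ne_bot_iff _).1 hM
    rw [eta m] at hm hm0
    have k1 := g2 (show ![m 3, m 4, m 5] ∈ G2 from ⟨_, _, _, hm⟩)
    have r3 : m 3 = 0 := congrFun k1 0
    have r4 : m 4 = 0 := congrFun k1 1
    have r5 : m 5 = 0 := congrFun k1 2
    rw [r3, r4, r5] at hm hm0
    have k2 := g1 (show ![m 1, m 2] ∈ G1 from ⟨_, hm⟩)
    have r1 : m 1 = 0 := congrFun k2 0
    have r2 : m 2 = 0 := congrFun k2 1
    rw [r1, r2] at hm hm0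
    rw [uq hm] at hm0
    exact hm0 (eta 0).symm
  have in1 : ∀ b ∈ G1, I 0 (b 0) (b 1) 0 0 0 := fun b ⟨a, h⟩ =>
    lc 1 (-a) h e0 (by simp) (by simp) (by simp) (by simp) (by simp) (by simp)
  let P : Submodule Φ (Fin 3 → Φ) :=
    { carrier := {Q | I 0 0 0 (Q 0) (Q 1) (Q 2) ∧ I 0 (2 * Q 0) (Q 1) 0 0 0 ∧
        I 0 (Q 1) (2 * Q 2) 0 0 0}
      add_mem' := fun ⟨a, b, c⟩ ⟨a', b', c'⟩ =>
        ⟨lc 1 1 a a' (by simp) (by simp) (by simp) (by simp) (by simp) (by simp),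
          lc 1 1 b b' (by simp) (by simp [mul_add]) (by simp) (by simp) (by simp) (by simp),
          lc 1 1 c c' (by simp) (by simp) (by simp [mul_add]) (by simp) (by simp) (by simp)⟩
      zero_mem' := by simpa using z0
      smul_mem' := fun s _ ⟨a, b, c⟩ =>
        ⟨lc s 0 a a (by simp) (by simp) (by simp) (by simp) (by simp) (by simp),
          lc s 0 b b (by simp) (by simp [mul_left_comm]) (by simp) (by simp) (by simp) (by simp),
          lc s 0 c c (by simp) (by simp) (by simp [mul_left_comm]) (by simp) (by simp) (by simp)⟩ }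
  have in2 : G2 ≤ P := fixspan σ _ _ s2 fun Q ⟨a, b, c, h⟩ hQ => by
    obtain ⟨k1, k2, k3⟩ := key (congrFun hQ 0) (congrFun hQ 1) (congrFun hQ 2) h
    exact ⟨lc 1 (-1) (lc 1 (-a) h e0 rfl rfl rfl rfl rfl rfl) (in1 _ k1) (by simp) (by simp)
      (by simp) (by simp) (by simp) (by simp), in1 _ k2, in1 _ k3⟩
  refine ⟨e0, fun m hm => ?_⟩
  rw [eta m] at hm
  have q2 : ![m 3, m 4, m 5] ∈ G2 := ⟨_, _, _, hm⟩
  have q1 : ![m 1, m 2] ∈ G1 := ⟨_, lc 1 (-1) hm (in2 q2).1 rfl (by simp) (by simp) (by simp)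
    (by simp) (by simp)⟩
  refine ⟨?_, in1 _ q1, in2 q2⟩
  rw [eta (σ ∘ m)]
  exact lc 1 1 (lc 1 (σ (m 0)) (in1 _ (s1 _ q1)) e0 rfl rfl rfl rfl rfl rfl) (in2 (s2 _ q2)).1
    (by simp) (by simp) (by simp) (by simp) (by simp) (by simp)

end Pool.Agent.CSU
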