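import Pool.Agent.Lib.MP_bf776f_nt.SU.AuxR

/-! Two points of the Carlitz exponential: quadratic rows and jets of order four. -/

namespace Pool.Agent.CSU.Q2

open Polynomial Finset

section Carlitz

variable {F : Type} [NormedField F]

/-- The Taylor coefficient of order `l` of the generating function at `θ^(q^j)`, level `m`. -/
noncomputable def psi (q : ℕ) (θ u : F) (l m j : ℕ) : F :=
  ∑' i : ℕ, u ^ q ^ (i + m) / (cD q θ i ^ q ^ m * (θ ^ q ^ (i + m) - θ ^ q ^ j) ^ (l + 1))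

/-- The jet of order four. -/
noncomputable def Jt (q : ℕ) (θ u : F) (m j : ℕ) : F[X] :=
  ∑ l ∈ range 4, C (psi q θ u l m j) * X ^ l

end Carlitz

variable {F : Type} [Field F]

/-- The monomials of degree at most two. -/
def mon {A : Type} [CommRing A] (y : Fin 2 → A) : Fin 6 → A :=
  ![1, y 0, y 1, y 0 ^ 2, y 0 * y 1, y 1 ^ 2]

/-- The value `R(t, y)` of a row. -/
noncomputable def ev {A : Type} [CommRing A] [Algebra F A] (R : Fin 6 → F[X]) (t : A)
    (y : Fin 2 → A) : A :=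
  ∑ o, aeval t (R o) * mon y o

/-- The substitution `Y ↦ lam Y + a`. -/
noncomputable def sb (lam : F[X]) (a : Fin 2 → F[X]) (R : Fin 6 → F[X]) : Fin 6 → F[X] :=
  ![R 0 + R 1 * a 0 + R 2 * a 1 + R 3 * a 0 ^ 2 + R 4 * (a 0 * a 1) + R 5 * a 1 ^ 2,
    lam * (R 1 + 2 * R 3 * a 0 + R 4 * a 1), lam * (R 2 + R 4 * a 0 + 2 * R 5 * a 1),
    lam ^ 2 * R 3, lam ^ 2 * R 4, lam ^ 2 * R 5]

/-- The transport `R ↦ (t - c) ^ 2 R((Y - x) / (t - c))`. -/
noncomputable def trQ (c : F) (x : Fin 2 → F) (R : Fin 6 → F[X]) : Fin 6 → F[X] :=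
  ![(X - C c) ^ 2 * R 0 - (X - C c) * (C (x 0) * R 1 + C (x 1) * R 2) +
      (C (x 0) ^ 2 * R 3 + C (x 0) * C (x 1) * R 4 + C (x 1) ^ 2 * R 5),
    (X - C c) * R 1 - (2 * C (x 0) * R 3 + C (x 1) * R 4),
    (X - C c) * R 2 - (C (x 0) * R 4 + 2 * C (x 1) * R 5), R 3, R 4, R 5]

/-- `s` transports, from level `m` to level `m + s`. -/
noncomputable def trM (q : ℕ) (θ : F) (x : Fin 2 → F) (m : ℕ) (R : Fin 6 → F[X]) :
    ℕ → Fin 6 → F[X]
  | 0 => R
  | s + 1 => trQ (θ ^ q ^ (m + s)) (fun i => x i ^ q ^ (m + s)) (trM q θ x m R s)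

/-- The twist of a row. -/
noncomputable def twQ (σ : F →+* F) (R : Fin 6 → F[X]) : Fin 6 → F[X] := fun o => (R o).map σ

/-- The monomials `τ ^ a ξ ^ b` with `a + b < 4`. -/
abbrev S4 : Type := {p : Fin 4 × Fin 4 // (p.1 : ℕ) + p.2 < 4}

/-- The ten conditions at the point `c`: in `F[X][X]` the inner variable is `τ`, the outer `ξ`. -/
noncomputable def ps (c : F) (Y : Fin 2 → F[X][X]) : (Fin 6 → F[X]) →ₗ[F] (S4 → F) where
  toFun R p := ((ev R (C (X + C c)) Y).coeff p.1.2).coeff p.1.1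
  map_add' R R' := funext fun p => by simp [ev, add_mul, sum_add_distrib]
  map_smul' a R := funext fun p => by
    simp only [ev, Pi.smul_apply, map_smul, smul_mul_assoc, ← smul_sum, coeff_smul, RingHom.id_apply]

/-- The value of a formal jet. -/
noncomputable def vl (Y : Fin 2 → F[X][X]) (i : Fin 2) : F := ((Y i).coeff 0).coeff 0

/-- Formal jets at all levels `m` and points `θ^(q^j)`, meaningful for `j + e ≤ m`. -/
structure J2 (q : ℕ) (θ : F) (σ : F →+* F) (x : Fin 2 → F) (e : ℕ)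
    (Y : ℕ → ℕ → Fin 2 → F[X][X]) : Prop where
  e1 : 1 ≤ e
  Yrec : ∀ m j i, j + e ≤ m → Y (m + 1) j i =
    C (X + C (θ ^ q ^ j) - C (θ ^ q ^ m)) * Y m j i + C (C (x i ^ q ^ m))
  Ytw : ∀ m j i, j + e ≤ m → Y (m + 1) (j + 1) i = (Y m j i).map (mapRingHom σ)

/-- Admissible modules of rows. -/
structure Adm (σ : F →+* F) (N : Submodule F[X] (Fin 6 → F[X])) : Prop where
  one : Pi.single 0 1 ∈ N
  tw : ∀ v ∈ N, twQ σ v ∈ N
  sb : ∀ lam a, ∀ v ∈ N, sb lam a v ∈ N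

/-- The number of independent conditions on `N`. -/
noncomputable def kap (N : Submodule F[X] (Fin 6 → F[X])) (c : F) (Y : Fin 2 → F[X][X]) : ℕ :=
  Module.finrank F ((N.restrictScalars F).map (ps c Y))

/-- The zero estimate for the slope `a / b`. -/
def ZE2 (q : ℕ) (θ : F) (σ : F →+* F) (e : ℕ) (Y : ℕ → ℕ → Fin 2 → F[X][X]) (a b : ℕ) : Prop :=
  ∀ (P d μ : ℕ) (R : Fin 6 → F[X]), 6 ≤ P → R ≠ 0 → (∀ o, (R o).degree < d) →
    (∀ j < P, ps (θ ^ q ^ j) (Y (e + P) j) R = 0) →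
    (∀ n, 1 ≤ n → n ≤ μ → ev ((twQ σ)^[n] R) θ (vl (Y (e + P + n) 0)) = 0) →
    ∃ r ≤ 6, b * μ + a * r * (P - 6) ≤ b * r * (d + 12) + 6 * b

/-- A row over `k[t]`, seen over `F[t]`. -/
noncomputable def up {k ι : Type} (F : Type) [Field k] [Field F] [Algebra k F] (f : ι → k[X]) :
    ι → F[X] :=
  fun o => (f o).map (algebraMap k F)

end Pool.Agent.CSU.Q2
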