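import Pool.Agent.Lib.MP_0370b2_nt.S2.Bas

/-! The formal jets at all levels. -/

namespace Pool.Agent.CSU.Q2

open Polynomial Finset

/-- The formal jet at the point `j`, `n` levels above the first one. -/
noncomputable def Yn {F : Type} [Field F] (q : ℕ) (θ : F) (σ : F →+* F) (x : F) (e : ℕ)
    (Y0 : F[X][X]) (j : ℕ) : ℕ → F[X][X]
  | 0 => (Polynomial.map (mapRingHom σ))^[j] Y0
  | n + 1 => C (X + C (θ ^ q ^ j) - C (θ ^ q ^ (j + e + n))) * Yn q θ σ x e Y0 j n +
      C (C (x ^ q ^ (j + e + n)))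

theorem jet2 : Jet2S := by
  intro F _ q θ σ x e J Y0 ξ0 hσ he hJ hξ h0
  have hj : J2 q θ σ x e fun m j i => Yn q θ σ (x i) e (Y0 i) j (m - (j + e)) := by
    refine ⟨he, fun m j i hm => ?_, fun m j i hm => ?_⟩
    · obtain ⟨n, rfl⟩ := Nat.exists_eq_add_of_le hm
      rw [add_assoc _ n, Nat.add_sub_cancel_left, Nat.add_sub_cancel_left, Yn]
    · obtain ⟨n, rfl⟩ := Nat.exists_eq_add_of_le hm
      rw [show j + e + n + 1 - (j + 1 + e) = n by omega, Nat.add_sub_cancel_left]
      clear hm
      induction n with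
      | zero => exact Function.iterate_succ_apply' _ _ _
      | succ n ih =>
        rw [Yn, Yn, ih, show j + 1 + e + n = j + e + n + 1 by omega]
        simp [-map_pow, sig_c hσ]
  refine ⟨_, fun j => (Polynomial.map σ)^[j] ξ0, hj, funext fun i => by simp [Yn], fun j => ?_,
    fun m j i hm => ?_⟩
  · induction j with
    | zero => exact hξ
    | succ j ih =>
      simpa only [Function.iterate_succ_apply', map_X] using Polynomial.map_dvd σ ih
  have hr := fun m j (h : j + e ≤ m) (ξ : F[X])
      (ih : X ^ 4 ∣ (Yn q θ σ (x i) e (Y0 i) j (m - (j + e))).eval ξ - J m j i) => by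
    have h1 := dvd_sub (ih.mul_left (X + C (θ ^ q ^ j) - C (θ ^ q ^ m))) (hJ m j i (by omega)).1
    exact h1
  refine jet_ind (e := e) (fun m j => X ^ 4 ∣ (Yn q θ σ (x i) e (Y0 i) j (m - (j + e))).eval
    ((Polynomial.map σ)^[j] ξ0) - J m j i) (by simpa [Yn] using h0 i) (fun m hm ih => ?_)
    (fun m j hm ih => ?_) j m hm
  · rw [hj.Yrec m 0 i (by omega)]
    convert hr m 0 (by omega) _ ih using 1
    simp only [eval_add, eval_mul, eval_C]
    ring
  · rw [hj.Ytw m j i hm, (hJ m j i (by omega)).2, Function.iterate_succ_apply']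
    have := Polynomial.map_dvd σ ih
    rw [Polynomial.map_pow, map_X, Polynomial.map_sub] at this
    convert this using 2
    exact eval_map_apply (mapRingHom σ) _

end Pool.Agent.CSU.Q2
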