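import Pool.Agent.Lib.MP_0370b2_nt.S2.Defs
import Pool.Agent.Lib.MP_bf776f_nt.SU.St

/-! Two points of the Carlitz exponential: block statements. -/

namespace Pool.Agent.CSU.Q2

open Polynomial Finset

/-- Analysis of the jets. -/
def An4S : Prop :=
  ∀ (k F : Type) [Field k] [Fintype k] [NormedField F] [IsUltrametricDist F] [CompleteSpace F]
    [Algebra k F] (θ u : F) (σ : F →+* F), 1 < ‖θ‖ → (∀ y, σ y = y ^ Fintype.card k) →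
    ∀ m j, j < m →
      (Jt (Fintype.card k) θ u m j).coeff 0 = phi (Fintype.card k) θ u m j ∧
      X ^ 4 ∣ Jt (Fintype.card k) θ u (m + 1) j -
        ((X + C (θ ^ Fintype.card k ^ j) - C (θ ^ Fintype.card k ^ m)) *
          Jt (Fintype.card k) θ u m j + C (cE (Fintype.card k) θ u ^ Fintype.card k ^ m)) ∧
      Jt (Fintype.card k) θ u (m + 1) (j + 1) = (Jt (Fintype.card k) θ u m j).map σ ∧
      (‖u‖ ≤ 1 → ∀ l, ‖(Jt (Fintype.card k) θ u m j).coeff l‖ * ‖θ‖ ^ Fintype.card k ^ m ≤ 1)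

/-- The Taylor map: relations between the values hold for the jets. -/
def TayS : Prop :=
  ∀ (k F : Type) [Field k] [Fintype k] [NormedField F] [IsUltrametricDist F] [CompleteSpace F]
    [Algebra k F] (θ : F) (u : Fin 2 → F), 1 < ‖θ‖ → (∀ i, IsAlgebraic (Kinf k θ) (u i)) →
    ∃ e, 1 ≤ e ∧ ∀ P : MvPolynomial (Fin 3) k,
      MvPolynomial.aeval ![θ, phi (Fintype.card k) θ (u 0) e 0, phi (Fintype.card k) θ (u 1) e 0]
        P = 0 →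
      X ^ 4 ∣ MvPolynomial.aeval ![X + C θ, Jt (Fintype.card k) θ (u 0) e 0,
        Jt (Fintype.card k) θ (u 1) e 0] P

/-- Newton's method on the surface. -/
def HenS : Prop :=
  ∀ (k F : Type) [Field k] [Fintype k] [NormedField F] [Algebra k F] (θ y : F) (J : Fin 2 → F[X]),
    (∀ i, IsAlgebraic (Algebra.adjoin k (Set.range ![θ, y])) ((J i).coeff 0)) →
    (∀ P : MvPolynomial (Fin 3) k, MvPolynomial.aeval ![θ, (J 0).coeff 0, (J 1).coeff 0] P = 0 →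
      X ^ 4 ∣ MvPolynomial.aeval ![X + C θ, J 0, J 1] P) →
    ∃ (Y : Fin 2 → F[X][X]) (ξ : F[X]), X ∣ ξ ∧
      (∀ i a b, IsAlgebraic (Algebra.adjoin k (Set.range ![θ, y])) (((Y i).coeff b).coeff a)) ∧
      ∀ i, X ^ 4 ∣ (Y i).eval ξ - J i

/-- The formal jets at all levels. -/
def Jet2S : Prop :=
  ∀ (F : Type) [Field F] (q : ℕ) (θ : F) (σ : F →+* F) (x : Fin 2 → F) (e : ℕ)
    (J : ℕ → ℕ → Fin 2 → F[X]) (Y0 : Fin 2 → F[X][X]) (ξ0 : F[X]), (∀ y, σ y = y ^ q) → 1 ≤ e →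
    (∀ m j i, j < m → X ^ 4 ∣ J (m + 1) j i -
        ((X + C (θ ^ q ^ j) - C (θ ^ q ^ m)) * J m j i + C (x i ^ q ^ m)) ∧
      J (m + 1) (j + 1) i = (J m j i).map σ) →
    X ∣ ξ0 → (∀ i, X ^ 4 ∣ (Y0 i).eval ξ0 - J e 0 i) →
    ∃ (Y : ℕ → ℕ → Fin 2 → F[X][X]) (ξ : ℕ → F[X]), J2 q θ σ x e Y ∧ Y e 0 = Y0 ∧
      (∀ j, X ∣ ξ j) ∧ ∀ m j i, j + e ≤ m → X ^ 4 ∣ (Y m j i).eval (ξ j) - J m j i

/-- A stable subspace is spanned by its fixed vectors. -/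
def FixS : Prop :=
  ∀ (k F ι : Type) [Field k] [Fintype k] [Field F] [Algebra k F] [Fintype ι] (σ : F →+* F)
    (N : Submodule F (ι → F[X])), (∀ y, σ y = y ^ Fintype.card k) →
    (∀ v ∈ N, (fun o => (v o).map σ) ∈ N) →
    ∀ v ∈ N, v ∈ Submodule.span F {w | w ∈ N ∧ ∃ f : ι → k[X], w = up F f}

/-- The number of conditions depends neither on the level nor on the point. -/
def SloS : Prop :=
  ∀ (k F : Type) [Field k] [Fintype k] [NormedField F] [IsUltrametricDist F] [Algebra k F]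
    (θ : F) (σ : F →+* F) (x : Fin 2 → F) (e : ℕ) (Y : ℕ → ℕ → Fin 2 → F[X][X])
    (N : Submodule F[X] (Fin 6 → F[X])), 1 < ‖θ‖ → (∀ y, σ y = y ^ Fintype.card k) →
    J2 (Fintype.card k) θ σ x e Y → Adm σ N → ∀ m j, j + e ≤ m →
    kap N (θ ^ Fintype.card k ^ j) (Y m j) = kap N θ (Y e 0)

/-- The module of minimal slope. -/
def MinS : Prop :=
  ∀ (k F : Type) [Field k] [Fintype k] [NormedField F] [IsUltrametricDist F] [Algebra k F]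
    (θ : F) (σ : F →+* F) (x : Fin 2 → F) (e : ℕ) (Y : ℕ → ℕ → Fin 2 → F[X][X]),
    1 < ‖θ‖ → (∀ y, σ y = y ^ Fintype.card k) → J2 (Fintype.card k) θ σ x e Y →
    ∃ (r κ : ℕ) (f : Fin r → Fin 6 → k[X]), (LinearIndependent F[X] fun i => up F (f i)) ∧
      1 ≤ r ∧ r ≤ 6 ∧ 6 * κ ≤ 10 * r ∧
      (∀ m j, j + e ≤ m → ∃ s : Finset S4, s.card ≤ κ ∧ ∀ g : Fin r → F[X],
        (∀ p ∈ s, ps (θ ^ Fintype.card k ^ j) (Y m j) (∑ i, g i • up F (f i)) p = 0) →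
        ps (θ ^ Fintype.card k ^ j) (Y m j) (∑ i, g i • up F (f i)) = 0) ∧
      ∀ N, Adm σ N → κ * Module.finrank F[X] N ≤ r * kap N θ (Y e 0)

/-- Classification of the stable modules. -/
def ClsS : Prop :=
  ∀ (k F : Type) [Field k] [Fintype k] [Field F] [Algebra k F] (θ : F) (σ : F →+* F)
    (x : Fin 2 → F) (T : ℕ) (N : Submodule F[X] (Fin 6 → F[X])),
    (∀ y, σ y = y ^ Fintype.card k) → NT k (Fintype.card k) θ σ x → N ≠ ⊥ →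
    (∀ (a : F[X]) v, a ≠ 0 → a • v ∈ N → v ∈ N) →
    (∀ v ∈ N, ∃ a : F[X], a ≠ 0 ∧ ∃ w ∈ N, a • twQ σ v =
      trQ (θ ^ Fintype.card k ^ T) (fun i => x i ^ Fintype.card k ^ T) w) → Adm σ N

/-- Counting dimensions. -/
def CntS : Prop :=
  ∀ (F ι Z : Type) [Field F] [Fintype ι] [AddCommGroup Z] [Module F Z] [Module.Finite F Z]
    (N : Submodule F[X] (ι → F[X])) (r d : ℕ) (ρ : Fin r → ι → F[X]) (Ψ : (ι → F[X]) →ₗ[F] Z),
    LinearIndependent F[X] ρ → (∀ i, ρ i ∈ N) →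
    (∀ v ∈ N, ∃ a : F[X], a ≠ 0 ∧ a • v ∈ Submodule.span F[X] (Set.range ρ)) →
    (∀ i o, (ρ i o).degree < d) → (∀ (g : F[X]) i, Ψ (g • ρ i) = 0) →
    Module.finrank F ((N.restrictScalars F).map Ψ) ≤ r * d

/-- Chinese remainders. -/
def CrtS : Prop :=
  ∀ (F ι κ Z : Type) [Field F] [Fintype κ] [AddCommGroup Z] [Module F Z] [Module.Finite F Z]
    (N : Submodule F[X] (ι → F[X])) (c : κ → F) (ψ : κ → (ι → F[X]) →ₗ[F] Z),
    Function.Injective c → (∀ j v, ψ j ((X - C (c j)) ^ 4 • v) = 0) →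
    ∑ j, Module.finrank F ((N.restrictScalars F).map (ψ j)) ≤
      Module.finrank F ((N.restrictScalars F).map (LinearMap.pi ψ))

/-- The zero estimate. -/
def ZE2S : Prop :=
  ∀ (k F : Type) [Field k] [Fintype k] [NormedField F] [IsUltrametricDist F] [Algebra k F]
    (θ : F) (σ : F →+* F) (x : Fin 2 → F) (e : ℕ) (Y : ℕ → ℕ → Fin 2 → F[X][X]) (a b : ℕ),
    1 < ‖θ‖ → (∀ y, σ y = y ^ Fintype.card k) → J2 (Fintype.card k) θ σ x e Y →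
    NT k (Fintype.card k) θ σ x →
    (∀ N, Adm σ N → a * Module.finrank F[X] N ≤ b * kap N θ (Y e 0)) →
    ZE2 (Fintype.card k) θ σ e Y a b

/-- Hermite interpolation with nodes of order four. -/
def Int4S : Prop :=
  ∀ (F : Type) [NormedField F] [IsUltrametricDist F] (c : ℕ → F) (s : Finset ℕ) (G : F[X])
    (y : F) (ε r : ℝ), 0 ≤ ε → 1 ≤ r → (∀ i ∈ s, ∀ j ∈ s, i ≠ j → 1 ≤ ‖c i - c j‖) →
    G.degree < (4 * s.card : ℕ) → (∀ i ∈ s, ∀ l < 4, ‖(taylor (c i) G).coeff l‖ ≤ ε) →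
    (∀ i ∈ s, ‖y - c i‖ ≤ r) → ‖G.eval y‖ ≤ ε * r ^ (4 * s.card)

/-- The value is small. -/
def SmallS : Prop :=
  ∀ (F : Type) [NormedField F] [IsUltrametricDist F] (q : ℕ) (θ : F) (σ : F →+* F)
    (x : Fin 2 → F) (e : ℕ) (Y : ℕ → ℕ → Fin 2 → F[X][X]) (ξ : ℕ → F[X]) (R : Fin 6 → F[X])
    (ν a P D s : ℕ) (H : ℝ), 2 ≤ q → 1 < ‖θ‖ → J2 q θ σ x e Y → (∀ i, ‖x i‖ ≤ 1) → (∀ j, X ∣ ξ j) →
    (∀ m j i l, j + e ≤ m → l < 4 → ‖((Y m j i).eval (ξ j)).coeff l‖ * ‖θ‖ ^ q ^ m ≤ 1) →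
    (∀ o, (R o).degree < D) → D + 2 * s ≤ 4 * P → 1 ≤ a → a + P + e ≤ ν → 0 ≤ H →
    (∀ j, a ≤ j → j < a + P → ps (θ ^ q ^ j) (Y ν j) R = 0) →
    (∀ j ≤ a + P, ∀ o l, ‖(taylor (θ ^ q ^ j) (R o)).coeff l‖ ≤ H) →
    ‖ev R θ (vl (Y ν 0))‖ * ‖θ‖ ^ q ^ (ν + s) ≤ H * ‖θ‖ ^ (q ^ (a + P) * (4 * P))

/-- The auxiliary row. -/
def Aux2S : Prop :=
  ∀ (k F : Type) [Field k] [NormedField F] [IsUltrametricDist F] [Algebra k F] (θ : F)
    (U : Submodule k F) (r κ w δ : ℕ) (f : Fin r → Fin 6 → k[X]), Ht θ U → 120 * κ < r * w →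
    (∀ i o, (f i o).natDegree ≤ δ) → ∃ c : ℕ, ∀ (L a t : ℕ) (cc : ℕ → F)
      (Y : ℕ → Fin 2 → F[X][X]) (s : ℕ → Finset S4), 1 ≤ L →
      (∀ j < 120 * L, cc j ∈ U ^ a ∧ (∀ i l b, ((Y j i).coeff b).coeff l ∈ U ^ a) ∧
        (s j).card ≤ κ) → (w * L + δ + 2) * a ≤ 2 ^ t →
      ∃ g : Fin r → F[X], g ≠ 0 ∧
        (∀ i, PU U (c * (t + 1) * ((w * L + δ + 2) * a)) (w * L) (g i)) ∧
        ∀ j < 120 * L, ∀ p ∈ s j, ps (cc j) (Y j) (∑ i, g i • up F (f i)) p = 0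

/-- The core: Siegel, smallness, Gelfond. -/
def CoreQS : Prop :=
  ∀ (k F : Type) [Field k] [Fintype k] [NormedField F] [IsUltrametricDist F] [Algebra k F]
    (θ : F) (σ : F →+* F) (x : Fin 2 → F) (e : ℕ) (Y : ℕ → ℕ → Fin 2 → F[X][X]) (ξ : ℕ → F[X])
    (U : Submodule k F) (r κ : ℕ) (f : Fin r → Fin 6 → k[X]),
    1 < ‖θ‖ → (∀ y, σ y = y ^ Fintype.card k) → J2 (Fintype.card k) θ σ x e Y →
    Ht θ U → θ ∈ U → (∀ i, x i ∈ U) → (∀ i a b, ((Y e 0 i).coeff b).coeff a ∈ U) →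
    (∀ i, ‖x i‖ ≤ 1) → (∀ j, X ∣ ξ j) →
    (∀ m j i l, j + e ≤ m → l < 4 →
      ‖((Y m j i).eval (ξ j)).coeff l‖ * ‖θ‖ ^ Fintype.card k ^ m ≤ 1) →
    (LinearIndependent F[X] fun i => up F (f i)) → 1 ≤ r → r ≤ 6 → 6 * κ ≤ 10 * r →
    (∀ m j, j + e ≤ m → ∃ s : Finset S4, s.card ≤ κ ∧ ∀ g : Fin r → F[X],
      (∀ p ∈ s, ps (θ ^ Fintype.card k ^ j) (Y m j) (∑ i, g i • up F (f i)) p = 0) →
      ps (θ ^ Fintype.card k ^ j) (Y m j) (∑ i, g i • up F (f i)) = 0) →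
    ZE2 (Fintype.card k) θ σ e Y κ r → False

/-- Two points, no period in their span. -/
def C0S : Prop :=
  ∀ (k F : Type) [Field k] [Fintype k] [NormedField F] [IsUltrametricDist F] [CompleteSpace F]
    [Algebra k F] (θ : F) (u : Fin 2 → F), 1 < ‖θ‖ → (∀ i, IsAlgebraic (Kinf k θ) (u i)) →
    (∀ β : Fin 2 → k[X], β ≠ 0 → cE (Fintype.card k) θ (∑ i, aeval θ (β i) * u i) ≠ 0) →
    ∀ y : F, ¬ ∀ i, IsAlgebraic (Algebra.adjoin k (Set.range ![θ, y])) (u i) ∧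
      IsAlgebraic (Algebra.adjoin k (Set.range ![θ, y])) (cE (Fintype.card k) θ (u i))

end Pool.Agent.CSU.Q2
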