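import Pool.Agent.Lib.MP_0370b2_nt.S2.C0

/-! Two points, with no hypothesis on their position. -/

namespace Pool.Agent.CSU.Q2

open Polynomial Finset

/-- A point that is algebraically dependent on its exponential is algebraic over the completion. -/
def WeiS : Prop :=
  ∀ (k F : Type) [Field k] [Fintype k] [NormedField F] [IsUltrametricDist F] [CompleteSpace F]
    [Algebra k F] (θ y u : F), 1 < ‖θ‖ → Al k θ y u → Al k θ y (cE (Fintype.card k) θ u) →
    IsAlgebraic (Kinf k θ) u

/-- Two points, linearly independent over `k(θ)`. -/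
def DT : Prop :=
  ∀ (k F : Type) [Field k] [Fintype k] [NormedField F] [IsUltrametricDist F] [CompleteSpace F]
    [Algebra k F] (θ : F) (u : Fin 2 → F), 1 < ‖θ‖ →
    LinearIndependent (IntermediateField.adjoin k {θ}) u →
    ∃ a ∈ Set.range u ∪ Set.range fun i => cE (Fintype.card k) θ (u i),
      ∃ b ∈ Set.range u ∪ Set.range fun i => cE (Fintype.card k) θ (u i),
        AlgebraicIndependent (IntermediateField.adjoin k {θ}) ![a, b]

theorem thmD : AS → C0S → WeiS → DT := by
  intro hA hC hW k F _ _ _ _ _ _ θ u hθ hi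
  have hi' : ∀ β : Fin 2 → k[X], β ≠ 0 → ∑ i, aeval θ (β i) * u i ≠ 0 := fun β hβ h0 =>
    hβ (funext fun i => by
      have h1 := congrArg Subtype.val (Fintype.linearIndependent_iff.1 hi (fun i => ⟨aeval θ (β i),
        (IntermediateField.mem_adjoin_simple_iff k _).2 ⟨β i, 1, by simp⟩⟩) h0 i)
      by_contra hb
      have := norm_aeval norm_fin hθ hb
      rw [show aeval θ (β i) = 0 from h1, norm_zero] at this
      exact absurd this (by positivity))
  refine pair_of θ _ fun y h => ?_
  have hu := fun i => And.intro (h _ (Or.inl ⟨i, rfl⟩)) (h _ (Or.inr ⟨i, rfl⟩))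
  by_cases np : ∀ β : Fin 2 → k[X], β ≠ 0 → cE (Fintype.card k) θ (∑ i, aeval θ (β i) * u i) ≠ 0
  · exact hC k F θ u hθ (fun i => hW k F θ y (u i) hθ (hu i).1 (hu i).2) np y hu
  push Not at np
  obtain ⟨β, hβ, h0⟩ := np
  have al : Al k θ y (∑ i, aeval θ (β i) * u i) := by
    rw [Fin.sum_univ_two]
    exact ((al_pol θ y _).mul (hu 0).1).add ((al_pol θ y _).mul (hu 1).1)
  have key : ∀ i, ∃ a b : k[X], b ≠ 0 ∧
      aeval θ b * u i = aeval θ a * ∑ i, aeval θ (β i) * u i := fun i => by
    by_contra hc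
    push Not at hc
    exact hA k F θ _ (u i) hθ (hi' β hβ) h0 hc y ⟨al, hu i⟩
  obtain ⟨a, b, hb, h1⟩ := key 0
  obtain ⟨c, d, hd, h2⟩ := key 1
  generalize ∑ i, aeval θ (β i) * u i = l at h1 h2
  by_cases ha : a = 0
  · refine hi' ![b, 0] (fun e => hb (congrFun e 0)) ?_
    simpa [Fin.sum_univ_two, ha] using h1
  · refine hi' ![-(b * c), a * d] (fun e => mul_ne_zero ha hd (congrFun e 1)) ?_
    simp only [Fin.sum_univ_two, Matrix.cons_val_zero, Matrix.cons_val_one, map_neg, map_mul]
    linear_combination aeval θ a * h2 - aeval θ c * h1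

end Pool.Agent.CSU.Q2
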